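import Mathlib

/-!
# Bouncing robots on a circle: definitions

`n` point robots on a circle of circumference `L`.  Positions are lifted to the real line: the
point of the circle is `x i t` modulo `L`.  All robots have speed one and equal masses, collisions
are elastic, so two colliding robots exchange their velocities.  A robot dies at the first time
`t > 0` at which it is again at its home base `h i`; afterwards it interacts with no robot (we leave
it at rest at its home base).
-/

namespace Q32.RB

/-- Robot `i` is at its home base at time `t`. -/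
def AtHome {ι : Type} (L : ℝ) (h : ι → ℝ) (x : ι → ℝ → ℝ) (i : ι) (t : ℝ) : Prop :=
  ∃ z : ℤ, x i t = h i + z * L

/-- Robot `i` has not died at a time `≤ t`. -/
def Alive {ι : Type} (L : ℝ) (h : ι → ℝ) (x : ι → ℝ → ℝ) (i : ι) (t : ℝ) : Prop :=
  ∀ s, 0 < s → s ≤ t → ¬ AtHome L h x i s

/-- Robots `i` and `k` are at the same point of the circle at time `t`. -/
def Meet {ι : Type} (L : ℝ) (x : ι → ℝ → ℝ) (i k : ι) (t : ℝ) : Prop :=
  ∃ z : ℤ, x i t = x k t + z * L

/-- A configuration of robots (indexed by `ι`) on the circle of circumference `L` together with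
its motion: home bases `h`, initial directions `d`, positions `x`, velocities `v` just after and
`w` just before a given time. -/
structure Motion (ι : Type) (L : ℝ) where
  /-- home bases -/
  h : ι → ℝ
  /-- initial directions -/
  d : ι → ℝ
  /-- lifted positions -/
  x : ι → ℝ → ℝ
  /-- velocity just after time `t` -/
  v : ι → ℝ → ℝ
  /-- velocity just before time `t` -/
  w : ι → ℝ → ℝ
  /-- the home bases are different points of the circle -/
  homes : ∀ i k, i ≠ k → ∀ z : ℤ, h i ≠ h k + z * L
  /-- every robot starts with speed one -/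
  dir : ∀ i, d i = 1 ∨ d i = -1
  start : ∀ i, x i 0 = h i
  init : ∀ i, v i 0 = d i
  /-- `v i t` is the velocity just after time `t` -/
  right : ∀ i t, 0 ≤ t → ∃ ε > 0, ∀ s, t ≤ s → s ≤ t + ε → x i s = x i t + v i t * (s - t)
  /-- `w i t` is the velocity just before time `t` -/
  left : ∀ i t, 0 < t → ∃ ε > 0, ∀ s, t - ε ≤ s → s ≤ t → x i s = x i t + w i t * (s - t)
  /-- dead robots are left at rest -/
  rest : ∀ i t, 0 ≤ t → ¬ Alive L h x i t → v i t = 0
  /-- a robot which is alive and meets no other living robot keeps its velocity -/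
  free : ∀ i t, 0 < t → Alive L h x i t →
    (∀ k, k ≠ i → Alive L h x k t → ¬ Meet L x i k t) → v i t = w i t
  /-- two living robots which meet exchange their velocities -/
  bounce : ∀ i k t, 0 < t → k ≠ i → Alive L h x i t → Alive L h x k t → Meet L x i k t →
    v i t = w k t

namespace Motion

variable {ι : Type} {L : ℝ}

/-- Robot `i` is at its home base at time `t`. -/
def AtHome (M : Motion ι L) (i : ι) (t : ℝ) : Prop := Q32.RB.AtHome L M.h M.x i t

/-- Robot `i` has not died at a time `≤ t`. -/
def Alive (M : Motion ι L) (i : ι) (t : ℝ) : Prop := Q32.RB.Alive L M.h M.x i t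

/-- Robots `i`, `k` are at the same point at time `t`. -/
def Meet (M : Motion ι L) (i k : ι) (t : ℝ) : Prop := Q32.RB.Meet L M.x i k t

/-- Robot `i` has not died at a time `< t`. -/
def AliveB (M : Motion ι L) (i : ι) (t : ℝ) : Prop := ∀ s, 0 < s → s < t → ¬ M.AtHome i s

/-- Robot `i` dies at time `T`. -/
def DeathAt (M : Motion ι L) (i : ι) (T : ℝ) : Prop :=
  0 < T ∧ M.AtHome i T ∧ ∀ s, 0 < s → s < T → ¬ M.AtHome i s

/-- The robots which never die. -/
def survivors (M : Motion ι L) : Set ι := {i | ∀ t, M.Alive i t}

/-- Book-keeping at time `t`: robot `i` carries the token `σ i` (tokens are points moving with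
constant velocity; colliding robots exchange their tokens; the token of a dying robot is killed),
`a i` is the age of robot `i` (and of its token), `z` are winding numbers. -/
structure Tok [Fintype ι] (M : Motion ι L) (t : ℝ) (σ : Equiv.Perm ι) (z : ι → ℤ) (a : ι → ℝ) :
    Prop where
  pos : ∀ i, M.x i t = M.h (σ i) + M.d (σ i) * a i + z i * L
  sum : ∑ i, z i = 0
  alive : ∀ i, M.Alive i t → a i = t ∧ M.v i t = M.d (σ i)
  dead : ∀ i T, T ≤ t → M.DeathAt i T → a i = T ∧ M.w i T = M.d (σ i)

end Motion

end Q32.RB
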