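import Mathlib
import Pool.Agent.Q32.RB.Def

/-!
# Bouncing robots: statements of the steps (project RB, helper32)
-/

namespace Q32.RB

open Finset

/-! ### General theory -/

/-- real induction -/
def S_REAL : Prop := ∀ P : ℝ → Prop, P 0 →
  (∀ t, 0 ≤ t → P t → ∃ ε > 0, ∀ s, t < s → s < t + ε → P s) →
  (∀ t, 0 < t → (∀ s, 0 ≤ s → s < t → P s) → P t) → ∀ t, 0 ≤ t → P t

/-- structure just after time `t` -/
def S_RIGHT : Prop := ∀ (ι : Type) [Fintype ι] (L : ℝ) (M : Motion ι L), 0 < L → ∀ t, 0 ≤ t →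
  ∃ ε > 0, ∀ s, t < s → s < t + ε → ∀ i, M.x i s = M.x i t + M.v i t * (s - t) ∧
    M.v i s = M.v i t ∧ M.w i s = M.v i t ∧ (M.Alive i s ↔ M.Alive i t)

/-- structure just before time `t` -/
def S_LEFT : Prop := ∀ (ι : Type) [Fintype ι] (L : ℝ) (M : Motion ι L), 0 < L → ∀ t, 0 < t →
  ∃ ε > 0, ε ≤ t ∧ ∀ s, t - ε < s → s < t → ∀ i, M.x i s = M.x i t + M.w i t * (s - t) ∧
    M.v i s = M.w i t ∧ M.w i s = M.w i t ∧ (M.Alive i s ↔ M.AliveB i t)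

/-- a dead robot has a time of death and stays at home -/
def S_DEATH : Prop := ∀ (ι : Type) [Fintype ι] (L : ℝ) (M : Motion ι L), 0 < L →
  (∀ i t, 0 ≤ t → ¬ M.Alive i t → ∃ T, T ≤ t ∧ M.DeathAt i T) ∧
  (∀ i T, M.DeathAt i T → ∀ s, T ≤ s → M.x i s = M.x i T ∧ ¬ M.Alive i s)

/-- the tokens -/
def S_TOK : Prop := ∀ (ι : Type) [Fintype ι] (L : ℝ) (M : Motion ι L), 0 < L → ∀ t, 0 ≤ t →
  ∃ (σ : Equiv.Perm ι) (z : ι → ℤ) (a : ι → ℝ), M.Tok t σ z a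

/-- uniqueness of the tokens; the token of a dead robot does not change -/
def S_TOKU : Prop := ∀ (ι : Type) [Fintype ι] (L : ℝ) (M : Motion ι L), 0 < L →
  ∀ (t t' : ℝ) (σ σ' : Equiv.Perm ι) (z z' : ι → ℤ) (a a' : ι → ℝ), 0 ≤ t → t ≤ t' →
    M.Tok t σ z a → M.Tok t' σ' z' a' →
    (∀ i, ¬ M.Alive i t → σ i = σ' i ∧ a i = a' i) ∧ (t = t' → ∀ i, σ i = σ' i ∧ a i = a' i)

/-- the cyclic order is preserved -/
def S_ORD : Prop := ∀ (ι : Type) [Fintype ι] (L : ℝ) (M : Motion ι L), 0 < L →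
  ∀ i k (z : ℤ), M.h i < M.h k + z * L → ∀ t, 0 ≤ t → M.AliveB i t → M.AliveB k t →
    M.x i t ≤ M.x k t + z * L

/-- a living robot stays between its home base and the next (previous) lift of its home base -/
def S_RANGE : Prop := ∀ (ι : Type) [Fintype ι] (L : ℝ) (M : Motion ι L), 0 < L →
  ∀ i t, 0 < t → M.AliveB i t →
    (M.d i = 1 → M.h i ≤ M.x i t ∧ M.x i t ≤ M.h i + L ∧
      (M.Alive i t → M.h i < M.x i t ∧ M.x i t < M.h i + L)) ∧
    (M.d i = -1 → M.h i - L ≤ M.x i t ∧ M.x i t ≤ M.h i ∧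
      (M.Alive i t → M.h i - L < M.x i t ∧ M.x i t < M.h i))

/-- speed at most one -/
def S_LIP : Prop := ∀ (ι : Type) [Fintype ι] (L : ℝ) (M : Motion ι L), 0 < L →
  ∀ i s t, 0 ≤ s → s ≤ t → M.x i t ≤ M.x i s + (t - s) ∧ M.x i s - (t - s) ≤ M.x i t

/-- place and velocity at the time of death -/
def S_DVEL : Prop := ∀ (ι : Type) [Fintype ι] (L : ℝ) (M : Motion ι L), 0 < L →
  ∀ i T, M.DeathAt i T →
    (M.d i = 1 → (M.x i T = M.h i ∧ M.w i T = -1) ∨ (M.x i T = M.h i + L ∧ M.w i T = 1)) ∧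
    (M.d i = -1 → (M.x i T = M.h i ∧ M.w i T = 1) ∨ (M.x i T = M.h i - L ∧ M.w i T = -1))

/-- the final regime: `S` survivors, `K` surviving tokens, balanced directions -/
def S_FIN : Prop := ∀ (ι : Type) [Fintype ι] [DecidableEq ι] (L : ℝ) (M : Motion ι L), 0 < L →
  ∃ (S K : Finset ι) (T0 : ℝ), 0 ≤ T0 ∧ (∀ i, i ∈ S ↔ i ∈ M.survivors) ∧ K.card = S.card ∧
    (∀ t, T0 ≤ t → ∀ i, M.Alive i t → i ∈ S) ∧
    (∀ t, T0 ≤ t → ∀ σ z a, M.Tok t σ z a → ∀ i, i ∈ S ↔ σ i ∈ K) ∧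
    (∀ t, 0 ≤ t → ∀ σ z a, M.Tok t σ z a → ∀ i, σ i ∈ K → M.Alive i t) ∧
    ∑ k ∈ K, M.d k = 0 ∧
    (∀ k, k ∉ K → ∃ i T, ∃ z : ℤ, M.DeathAt i T ∧ M.w i T = M.d k ∧
      M.x i T = M.h k + M.d k * T + z * L)

/-! ### Upper bound -/

/-- all survivors start in the same direction -/
def S_UB1 : Prop := ∀ (ι : Type) [Fintype ι] (L : ℝ) (M : Motion ι L), 0 < L →
  ∀ i j, i ∈ M.survivors → j ∈ M.survivors → M.d i = M.d j

/-- if all right-starters survive and all survivors are right-starters, then every left-starter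
dies at its home base moving right -/
def S_LDIE : Prop := ∀ (ι : Type) [Fintype ι] (L : ℝ) (M : Motion ι L), 0 < L →
  M.survivors.Nonempty → (∀ i, i ∈ M.survivors ↔ M.d i = 1) →
  ∀ j, M.d j = -1 → ∃ T, M.DeathAt j T ∧ M.x j T = M.h j ∧ M.w j T = 1

/-- the chain argument -/
def S_CHAIN : Prop := ∀ (ι : Type) [Fintype ι] (L : ℝ) (M : Motion ι L), 0 < L →
  (∀ j, M.d j = -1 → ∃ T, M.DeathAt j T ∧ M.x j T = M.h j ∧ M.w j T = 1) →
  ∀ k, M.d k = 1 →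
    (∀ t, 0 ≤ t → ∀ σ z a, M.Tok t σ z a → ∀ i, σ i = k → M.Alive i t) →
    ∀ j T (z : ℤ), M.d j = -1 → M.DeathAt j T → M.h k < M.h j + z * L →
      T < M.h j + z * L - M.h k

/-- if all survivors are right-starters, some right-starter dies -/
def S_UB2 : Prop := ∀ (ι : Type) [Fintype ι] (L : ℝ) (M : Motion ι L), 0 < L →
  M.survivors.Nonempty → (∀ i, i ∈ M.survivors → M.d i = 1) →
  ∃ i, M.d i = 1 ∧ i ∉ M.survivors

/-- reflection -/
def S_NEG : Prop := ∀ (ι : Type) (L : ℝ) (M : Motion ι L),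
  ∃ M' : Motion ι L, (∀ i, M'.d i = - M.d i) ∧ M'.survivors = M.survivors

/-- the upper bound -/
def S_UB : Prop := ∀ (ι : Type) [Fintype ι] (L : ℝ) (M : Motion ι L), 0 < L →
  M.survivors.ncard ≤ 2 * ((Fintype.card ι - 1) / 3)

/-! ### Existence, normalisation, killing pair -/

/-- motions exist on an even integer grid -/
def S_GRID : Prop := ∀ (ι : Type) [Fintype ι] [DecidableEq ι] (H D : ι → ℤ) (C : ℤ), 0 < C →
  Even C → (∀ i, Even (H i)) → (∀ i, D i = 1 ∨ D i = -1) →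
  (∀ i k, i ≠ k → ∀ z : ℤ, H i ≠ H k + z * C) →
  ∃ M : Motion ι (C : ℝ), (∀ i, M.h i = (H i : ℝ)) ∧ ∀ i, M.d i = (D i : ℝ)

/-- normalisation: circumference one, home bases in `[0,1)`, increasing -/
def S_NORM : Prop := ∀ (ι : Type) [Fintype ι] (L : ℝ) (M : Motion ι L) (n : ℕ), 0 < L →
  Fintype.card ι = n →
  ∃ M' : Motion (Fin n) 1, StrictMono M'.h ∧ (∀ i, 0 ≤ M'.h i ∧ M'.h i < 1) ∧
    M'.survivors.ncard = M.survivors.ncard

/-- two robots which kill each other at once can be added -/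
def S_PAIR : Prop := ∀ (ι : Type) [Fintype ι] (L : ℝ) (M : Motion ι L), 0 < L →
  ∃ M' : Motion (ι ⊕ Fin 2) L, M.survivors.ncard ≤ M'.survivors.ncard

/-! ### Criteria -/

/-- the flux criterion at the home base of a right-starter -/
def S_FLUX : Prop := ∀ (ι : Type) [Fintype ι] [DecidableEq ι] (L : ℝ) (M : Motion ι L), 0 < L →
  ∀ (t : ℝ) (σ : Equiv.Perm ι) (z : ι → ℤ) (a : ι → ℝ), 0 < t → M.Tok t σ z a →
  ∀ (A : Finset ι) (D : ι → ℤ) (i : ι), M.d i = 1 → i ∈ A → (∀ l ∈ A, M.AliveB l t) →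
    (∀ l, l ∉ A → M.x l t = M.h l + D l * L) →
    (M.Alive i t → ∑ k, (⌊(M.h k + M.d k * a (σ.symm k) - M.h i) / L⌋ -
        ⌊(M.h k - M.h i) / L⌋) ≤ (A.card : ℤ) - 1 + ∑ l ∈ Aᶜ, D l) ∧
    (M.x i t = M.h i + L → (A.card : ℤ) + ∑ l ∈ Aᶜ, D l ≤
      ∑ k, (⌊(M.h k + M.d k * a (σ.symm k) - M.h i) / L⌋ - ⌊(M.h k - M.h i) / L⌋)) ∧
    (M.x i t = M.h i → ∑ k, (⌈(M.h k + M.d k * a (σ.symm k) - M.h i) / L⌉ -
        ⌈(M.h k - M.h i) / L⌉) ≤ ∑ l ∈ Aᶜ, D l)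

/-- a left-starter `j` is killed at time `s` by the token of the right-starter `k` -/
def S_NDIE : Prop := ∀ (ι : Type) [Fintype ι] (L : ℝ) (M : Motion ι L), 0 < L →
  ∀ (j k : ι) (s : ℝ) (z : ℤ), M.d j = -1 → M.d k = 1 → 0 < s → s < L →
    M.h k + s = M.h j + z * L →
    (∀ l (y : ℤ), ¬ (M.h k < M.h l + y * L ∧ M.h l + y * L < M.h k + s)) →
    (∀ l (y : ℤ), M.d l = -1 → ¬ (M.h j < M.h l + y * L ∧ M.h l + y * L ≤ M.h j + s)) →
    M.DeathAt j s ∧ M.x j s = M.h j ∧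
      ∀ t, s ≤ t → ∀ σ z a, M.Tok t σ z a → σ j = k ∧ a j = s

/-! ### Arithmetic of the example -/

/-- parameters of the example -/
structure Par (p : ℕ) (u : ℕ → ℤ) (v c S : ℤ) : Prop where
  pos : ∀ k, k < p → 0 < u k
  big : ∀ k, k < p → 2 * u k < v
  dec : ∀ k j, 0 < k → k < j → j < p → 2 * u j < u k
  zero : ∀ k, 0 < k → k < p → 2 * u 0 < u k
  vc : v < c
  cv : c < 2 * v
  room : 2 * (c + v) < S

/-- crossings of `0` modulo `C` by a point moving from `g` to `g + y`, floor version -/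
def fl (C g y : ℤ) : ℤ := (g + y) / C - g / C

/-- crossings of `0` modulo `C` by a point moving from `g` to `g + y`, ceiling version -/
def cl (C g y : ℤ) : ℤ := (-g) / C - (-(g + y)) / C

/-- flux at `h` of the long-lived tokens; `f` is `fl` or `cl`; `T0`, `TV` are the ages of the
tokens of `U 0` and `V 0` -/
def flux (f : ℤ → ℤ → ℤ → ℤ) (p e : ℕ) (u : ℕ → ℤ) (v c S h T T0 TV : ℤ) : ℤ :=
  ∑ b ∈ range p, f (p * S) (b * S - h) (-T) +
  ∑ b ∈ range p, f (p * S) (b * S + u b - h) (if b = 0 then T0 else T) +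
  f (p * S) (v - h) TV + e * f (p * S) (c - h) T

/-- number of full turns before the late deaths -/
def Qn (p e : ℕ) : ℤ := if e = 0 then 2 * p - 1 else p

/-- the time of the late deaths -/
def Tst (p e : ℕ) (u : ℕ → ℤ) (c S : ℤ) : ℤ := Qn p e * (p * S) + c - u 0

/-- a right-starter never returns in phase 1: homes of type U -/
def S_A1U : Prop := ∀ (p e : ℕ) (u : ℕ → ℤ) (v c S : ℤ), 1 ≤ p → e ≤ 1 → Par p u v c S →
  ∀ (k : ℕ) (j : ℤ), k < p → 1 ≤ j →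
    1 ≤ flux cl p e u v c S (k * S + u k) (j * S - u k) (j * S - u k) (j * S - u k)

/-- the same for homes of type V -/
def S_A1V : Prop := ∀ (p e : ℕ) (u : ℕ → ℤ) (v c S : ℤ), 1 ≤ p → e ≤ 1 → Par p u v c S →
  ∀ (k : ℕ) (j : ℤ), k < p → 1 ≤ j →
    (if k = 0 then 1 else 0) ≤
      flux cl p e u v c S (k * S + v) (j * S - v) (j * S - v) (j * S - v)

/-- the same for homes of type C -/
def S_A1C : Prop := ∀ (p e : ℕ) (u : ℕ → ℤ) (v c S : ℤ), 1 ≤ p → e ≤ 1 → Par p u v c S →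
  ∀ (i : ℕ) (j : ℤ) (x : ℤ), i ≤ e → 1 ≤ j → x = c + i * (v - u 0) →
    (if i = e then 0 else 1) ≤ flux cl p e u v c S x (j * S - x) (j * S - x) (j * S - x)

/-- nobody is pushed around the circle before the time `Tst`: homes of type U -/
def S_B1U : Prop := ∀ (p e : ℕ) (u : ℕ → ℤ) (v c S : ℤ), 1 ≤ p → e ≤ 1 → Par p u v c S →
  ∀ (k : ℕ) (T : ℤ), k < p → 0 < T → T ≤ Tst p e u c S →
    flux fl p e u v c S (k * S + u k) T T T ≤ 2 * p + e

/-- the same for homes of type V -/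
def S_B1V : Prop := ∀ (p e : ℕ) (u : ℕ → ℤ) (v c S : ℤ), 1 ≤ p → e ≤ 1 → Par p u v c S →
  ∀ (k : ℕ) (T : ℤ), k < p → 0 < T → T ≤ Tst p e u c S →
    flux fl p e u v c S (k * S + v) T T T ≤ 2 * p + e

/-- the same for homes of type C, strictly before `Tst` -/
def S_B1C : Prop := ∀ (p e : ℕ) (u : ℕ → ℤ) (v c S : ℤ), 1 ≤ p → e ≤ 1 → Par p u v c S →
  ∀ (i : ℕ) (T : ℤ), i ≤ e → 0 < T → T < Tst p e u c S →
    flux fl p e u v c S (c + i * (v - u 0)) T T T ≤ 2 * p + e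

/-- the robots C must die at the time `Tst` at the latest -/
def S_GAM : Prop := ∀ (p e : ℕ) (u : ℕ → ℤ) (v c S : ℤ), 1 ≤ p → e ≤ 1 → Par p u v c S →
  ∀ (i : ℕ), i ≤ e →
    2 * p + 1 + e ≤ flux fl p e u v c S (c + i * (v - u 0)) (Tst p e u c S) (Tst p e u c S)
      (Tst p e u c S)

/-- phase 2, no return: homes of type U -/
def S_D2U : Prop := ∀ (p e : ℕ) (u : ℕ → ℤ) (v c S : ℤ), 1 ≤ p → e ≤ 1 → Par p u v c S →
  ∀ (k : ℕ) (j : ℤ), k < p → Tst p e u c S < j * S - u k →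
    2 + e ≤ flux cl p e u v c S (k * S + u k) (j * S - u k) (Tst p e u c S)
      (if e = 0 then j * S - u k else Tst p e u c S)

/-- phase 2, no return: homes of type V -/
def S_D2V : Prop := ∀ (p e : ℕ) (u : ℕ → ℤ) (v c S : ℤ), 1 ≤ p → e ≤ 1 → Par p u v c S →
  ∀ (k : ℕ) (j : ℤ), k < p → Tst p e u c S < j * S - v →
    2 + e - (if k = 0 then 0 else 1) ≤ flux cl p e u v c S (k * S + v) (j * S - v)
      (Tst p e u c S) (if e = 0 then j * S - v else Tst p e u c S)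

/-- phase 2, not pushed around: homes of type U -/
def S_E2U : Prop := ∀ (p e : ℕ) (u : ℕ → ℤ) (v c S : ℤ), 1 ≤ p → e ≤ 1 → Par p u v c S →
  ∀ (k : ℕ) (T : ℤ), k < p → Tst p e u c S < T →
    flux fl p e u v c S (k * S + u k) T (Tst p e u c S)
      (if e = 0 then T else Tst p e u c S) ≤ 2 * p + e

/-- phase 2, not pushed around: homes of type V -/
def S_E2V : Prop := ∀ (p e : ℕ) (u : ℕ → ℤ) (v c S : ℤ), 1 ≤ p → e ≤ 1 → Par p u v c S →
  ∀ (k : ℕ) (T : ℤ), k < p → Tst p e u c S < T →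
    flux fl p e u v c S (k * S + v) T (Tst p e u c S)
      (if e = 0 then T else Tst p e u c S) ≤ 2 * p + e

/-- Hermite's identity for the left tokens -/
def S_HERM : Prop := ∀ (p : ℕ) (S y : ℤ), 1 ≤ p → 0 < S →
  ∑ b ∈ range p, (y + b * S) / (p * S) = y / S

/-- perturbed Hermite identity for the right tokens -/
def S_HERMU : Prop := ∀ (p : ℕ) (u : ℕ → ℤ) (S y : ℤ), 1 ≤ p → 0 < S →
  (∀ k, k < p → 0 ≤ u k ∧ u k < S) →
  ∑ b ∈ range p, (y + b * S + u b) / (p * S) =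
    y / S + (if S ≤ y % S + u ((-1 - y / S) % p).toNat then 1 else 0)

/-! ### The example -/

/-- the robots: `inl (k, 0) = N k` left-starters, `inl (k, 1) = U k`, `inl (k, 2) = V k`,
`inr j = C j` -/
abbrev Idx (p e : ℕ) := (Fin p × Fin 3) ⊕ Fin (e + 1)

/-- home bases -/
def Hm {p e : ℕ} (u : ℕ → ℤ) (v c S : ℤ) : Idx p e → ℤ
  | Sum.inl (k, j) => (k : ℕ) * S + (if j = 0 then 0 else if j = 1 then u k else v)
  | Sum.inr j => c + (j : ℕ) * (v - u 0)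

/-- directions -/
def Dm {p e : ℕ} : Idx p e → ℤ
  | Sum.inl (_, j) => if j = 0 then -1 else 1
  | Sum.inr _ => 1

/-- the example: all robots `U k` and `V k` survive -/
def S_EX : Prop := ∀ (p e : ℕ) (u : ℕ → ℤ) (v c S : ℤ), 1 ≤ p → e ≤ 1 → Par p u v c S →
  ∀ M : Motion (Idx p e) (((p : ℤ) * S : ℤ) : ℝ),
    (∀ i, M.h i = (Hm u v c S i : ℝ)) → (∀ i, M.d i = (Dm i : ℝ)) →
    ∀ (k : Fin p) (j : Fin 3), j ≠ 0 → Sum.inl (k, j) ∈ M.survivors

end Q32.RB
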