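import Mathlib
import Pool.Agent.Q32.RB.Stm

/-!
# Bouncing robots: evaluation of the flux sums of the example
-/

namespace Q32.RB

open Finset

theorem floor_div_cast (a C : ℤ) (hC : 0 < C) : ⌊(a : ℝ) / (C : ℝ)⌋ = a / C := by
  have hC' : (0 : ℝ) < C := by exact_mod_cast hC
  rw [Int.floor_eq_iff]
  constructor
  · rw [le_div_iff₀ hC']
    exact_mod_cast Int.ediv_mul_le a hC.ne'
  · rw [div_lt_iff₀ hC']
    have := Int.lt_ediv_add_one_mul_self a hC
    exact_mod_cast this

theorem ceil_div_cast (a C : ℤ) (hC : 0 < C) : ⌈(a : ℝ) / (C : ℝ)⌉ = -((-a) / C) := by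
  have h := floor_div_cast (-a) C hC
  rw [← h]
  push_cast
  rw [neg_div, Int.floor_neg, neg_neg]

theorem fl_cast (C g y : ℤ) (hC : 0 < C) :
    ⌊((g : ℝ) + y) / C⌋ - ⌊(g : ℝ) / C⌋ = fl C g y := by
  unfold fl
  rw [floor_div_cast g C hC, ← floor_div_cast (g + y) C hC]
  push_cast
  rfl

theorem cl_cast (C g y : ℤ) (hC : 0 < C) :
    ⌈((g : ℝ) + y) / C⌉ - ⌈(g : ℝ) / C⌉ = cl C g y := by
  unfold cl
  have h1 := ceil_div_cast (g + y) C hC
  push_cast at h1
  rw [h1, ceil_div_cast g C hC]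
  have : (-g - y) / C = (-(g + y)) / C := by congr 1; ring
  rw [show (-(g + y) : ℤ) = -g + -y by ring] at *
  ring

/-- no crossing in floor version -/
theorem fl_zero {C g y : ℤ} (hC : 0 < C) (hy : 0 ≤ y) (h : ∀ z : ℤ, ¬ (g < z * C ∧ z * C ≤ g + y)) :
    fl C g y = 0 := by
  unfold fl
  have h1 : g / C ≤ (g + y) / C := Int.ediv_le_ediv hC (by omega)
  by_contra hne
  have h2 : g / C + 1 ≤ (g + y) / C := by omega
  apply h ((g + y) / C)
  constructor
  · have := Int.lt_ediv_add_one_mul_self g hC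
    nlinarith
  · exact Int.ediv_mul_le _ hC.ne'

/-- no crossing in ceiling version -/
theorem cl_zero {C g y : ℤ} (hC : 0 < C) (hy : 0 ≤ y) (h : ∀ z : ℤ, ¬ (g ≤ z * C ∧ z * C < g + y)) :
    cl C g y = 0 := by
  unfold cl
  have h1 : (-(g + y)) / C ≤ (-g) / C := Int.ediv_le_ediv hC (by omega)
  by_contra hne
  have h2 : (-(g + y)) / C + 1 ≤ (-g) / C := by omega
  apply h (- ((-g) / C))
  constructor
  · have := Int.ediv_mul_le (-g) hC.ne'
    nlinarith
  · have := Int.lt_ediv_add_one_mul_self (-(g + y)) hC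
    nlinarith

/-- exactly one crossing at the start, ceiling version -/
theorem cl_own {C y : ℤ} (hC : 0 < C) (hy : 0 < y) (hy2 : y ≤ C) : cl C 0 y = 1 := by
  unfold cl
  simp only [zero_add, neg_zero, Int.zero_ediv]
  have : (-y) / C = -1 := by
    rw [Int.ediv_eq_iff_of_pos hC]
    constructor <;> omega
  rw [this]; norm_num

end Q32.RB
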