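import Mathlib
import Pool.Agent.Q32.RB.Eval

/-!
# Bouncing robots: evaluation of the flux sums of the example, II
-/

namespace Q32.RB

open Finset

/-- the short-lived tokens: `V b` with `b ≠ 0` and the last `C` -/
def Short {p e : ℕ} : Idx p e → Prop
  | Sum.inl (b, j) => j = 2 ∧ (b : ℕ) ≠ 0
  | Sum.inr j => (j : ℕ) = e

instance {p e : ℕ} : DecidablePred (@Short p e) := fun k => by
  cases k with
  | inl q => exact inferInstanceAs (Decidable (q.2 = 2 ∧ (q.1 : ℕ) ≠ 0))
  | inr j => exact inferInstanceAs (Decidable ((j : ℕ) = e))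

theorem sum_idx {p e : ℕ} (G : Idx p e → ℤ) :
    ∑ k, G k = ∑ b : Fin p, G (Sum.inl (b, 0)) + ∑ b : Fin p, G (Sum.inl (b, 1)) +
      ∑ b : Fin p, G (Sum.inl (b, 2)) + ∑ j : Fin (e + 1), G (Sum.inr j) := by
  rw [Fintype.sum_sum_type, Fintype.sum_prod_type]
  simp only [Fin.sum_univ_three, Finset.sum_add_distrib]

/-- evaluation of a token sum -/
theorem eval_sum {p e : ℕ} (hp : 1 ≤ p) (he : e ≤ 1) (u : ℕ → ℤ) (v c S h T T0 TV : ℤ)
    (F : ℤ → ℤ → ℤ → ℤ) (G w : Idx p e → ℤ)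
    (hN : ∀ b : Fin p, G (Sum.inl (b, 0)) = F (p * S) ((b : ℕ) * S - h) (-T))
    (hU : ∀ b : Fin p, G (Sum.inl (b, 1)) = F (p * S) ((b : ℕ) * S + u b - h)
      (if (b : ℕ) = 0 then T0 else T))
    (hV0 : ∀ b : Fin p, (b : ℕ) = 0 → G (Sum.inl (b, 2)) = F (p * S) (v - h) TV)
    (hC0 : ∀ j : Fin (e + 1), (j : ℕ) ≠ e → G (Sum.inr j) = F (p * S) (c - h) T)
    (hs : ∀ k, Short k → G k = w k) :
    ∑ k, G k = flux F p e u v c S h T T0 TV + ∑ k ∈ univ.filter Short, w k := by
  rw [Finset.sum_filter, sum_idx G, sum_idx (fun k => if Short k then w k else 0)]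
  unfold flux
  rw [Finset.sum_range, Finset.sum_range]
  have h1 : ∑ b : Fin p, G (Sum.inl (b, 0)) = ∑ b : Fin p, F (p * S) ((b : ℕ) * S - h) (-T) :=
    Finset.sum_congr rfl (fun b _ => hN b)
  have h2 : ∑ b : Fin p, G (Sum.inl (b, 1)) = ∑ b : Fin p, F (p * S) ((b : ℕ) * S + u b - h)
      (if (b : ℕ) = 0 then T0 else T) := Finset.sum_congr rfl (fun b _ => hU b)
  have h3 : ∑ b : Fin p, G (Sum.inl (b, 2)) = F (p * S) (v - h) TV +
      ∑ b : Fin p, (if Short (e := e) (Sum.inl (b, (2 : Fin 3))) then w (Sum.inl (b, 2)) else 0) := by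
    have hz : ∑ b : Fin p, (if (b : ℕ) = 0 then F (p * S) (v - h) TV else 0) =
        F (p * S) (v - h) TV := by
      rw [Finset.sum_eq_single (⟨0, hp⟩ : Fin p)]
      · simp
      · intro b _ hb
        have : (b : ℕ) ≠ 0 := fun h0 => hb (Fin.ext h0)
        simp [this]
      · intro h0; exact absurd (Finset.mem_univ _) h0
    rw [← hz, ← Finset.sum_add_distrib]
    refine Finset.sum_congr rfl (fun b _ => ?_)
    by_cases hb : (b : ℕ) = 0
    · rw [hV0 b hb, if_pos hb, if_neg (by simp [Short, hb]), add_zero]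
    · rw [hs _ (by simp [Short, hb]), if_neg hb, if_pos (by simp [Short, hb]), zero_add]
  have h4 : ∑ j : Fin (e + 1), G (Sum.inr j) = e * F (p * S) (c - h) T +
      ∑ j : Fin (e + 1), (if Short (p := p) (Sum.inr j) then w (Sum.inr j) else 0) := by
    interval_cases e
    · simp only [Nat.reduceAdd, Finset.univ_unique, Fin.default_eq_zero, Finset.sum_singleton]
      rw [hs _ (by simp [Short]), if_pos (by simp [Short])]
      simp
    · rw [Fin.sum_univ_two, Fin.sum_univ_two, hC0 0 (by simp), hs (Sum.inr 1) (by simp [Short]),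
        if_neg (by simp [Short]), if_pos (by simp [Short])]
      simp
  rw [h1, h2, h3, h4]
  simp only [Short]
  simp
  ring

end Q32.RB
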