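import Mathlib
import Pool.Agent.Q32.RB.Eval2

/-!
# Bouncing robots: the example, part 1 (geometry of the homes, deaths of the left-starters)
-/

namespace Q32.RB

open Finset

section basic

variable {ι : Type} {L : ℝ} {M : Motion ι L} {i : ι} {t T T' : ℝ}

theorem alive_iff (ht : 0 < t) : M.Alive i t ↔ M.AliveB i t ∧ ¬ M.AtHome i t := by
  constructor
  · intro h
    exact ⟨fun s hs hst => h s hs hst.le, h t ht le_rfl⟩
  · rintro ⟨h1, h2⟩ s hs hst
    rcases hst.lt_or_eq with h | h
    · exact h1 s hs h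
    · rw [h]; exact h2

theorem deathAt_of (ht : 0 < t) (h : M.AliveB i t) (h' : ¬ M.Alive i t) : M.DeathAt i t := by
  refine ⟨ht, ?_, h⟩
  by_contra hn
  exact h' ((alive_iff ht).2 ⟨h, hn⟩)

theorem deathAt_unique (h : M.DeathAt i T) (h' : M.DeathAt i T') : T = T' := by
  rcases lt_trichotomy T T' with hlt | heq | hgt
  · exact absurd h.2.1 (h'.2.2 T h.1 hlt)
  · exact heq
  · exact absurd h'.2.1 (h.2.2 T' h'.1 hgt)

theorem DeathAt_aliveB (h : M.DeathAt i T) (ht : t ≤ T) : M.AliveB i t :=
  fun s hs hst => h.2.2 s hs (lt_of_lt_of_le hst ht)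

theorem age_of_aliveB [Fintype ι] {σ : Equiv.Perm ι} {z : ι → ℤ} {a : ι → ℝ} (ht : 0 < t)
    (hT : M.Tok t σ z a) (h : M.AliveB i t) : a i = t := by
  by_cases h1 : M.Alive i t
  · exact (hT.alive i h1).1
  · exact (hT.dead i t le_rfl (deathAt_of ht h h1)).1

end basic

section homes

variable {p e : ℕ} {u : ℕ → ℤ} {v c S : ℤ}

/-- block of a robot -/
def blk : Idx p e → ℤ
  | Sum.inl (k, _) => (k : ℕ)
  | Sum.inr _ => 0

/-- offset of a robot in its block -/
def off (u : ℕ → ℤ) (v c : ℤ) : Idx p e → ℤ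
  | Sum.inl (k, j) => if j = 0 then 0 else if j = 1 then u k else v
  | Sum.inr j => c + (j : ℕ) * (v - u 0)

theorem Hm_eq (i : Idx p e) : Hm u v c S i = blk i * S + off u v c i := by
  cases i with
  | inl q => obtain ⟨k, j⟩ := q; rfl
  | inr j => simp [Hm, blk, off]

theorem blk_nonneg (i : Idx p e) : 0 ≤ blk i := by
  cases i with
  | inl q => obtain ⟨k, j⟩ := q; simp [blk]
  | inr j => simp [blk]

theorem blk_lt (hp : 1 ≤ p) (i : Idx p e) : blk i < p := by
  cases i with
  | inl q => obtain ⟨k, j⟩ := q; simp [blk]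
  | inr j => simp [blk]; omega

theorem Par.S_pos (P : Par p u v c S) (hp : 1 ≤ p) : 0 < S := by
  have h1 := P.pos 0 (by omega)
  have h2 := P.big 0 (by omega)
  have h3 := P.vc
  have h4 := P.room
  omega

theorem Par.v_pos (P : Par p u v c S) (hp : 1 ≤ p) : 0 < v := by
  have h1 := P.pos 0 (by omega)
  have h2 := P.big 0 (by omega)
  omega

theorem off_nonneg (P : Par p u v c S) (hp : 1 ≤ p) (he : e ≤ 1) (i : Idx p e) :
    0 ≤ off u v c i := by
  have h1 := P.pos 0 (by omega)
  have h2 := P.big 0 (by omega)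
  have h3 := P.vc
  cases i with
  | inl q =>
    obtain ⟨k, j⟩ := q
    have h5 := P.pos k k.2
    simp only [off]
    split_ifs <;> omega
  | inr j =>
    simp only [off]
    have : (0 : ℤ) ≤ ((j : ℕ) : ℤ) * (v - u 0) := by
      apply mul_nonneg (by positivity); omega
    omega

theorem off_lt (P : Par p u v c S) (hp : 1 ≤ p) (he : e ≤ 1) (i : Idx p e) :
    2 * off u v c i < S := by
  have h1 := P.pos 0 (by omega)
  have h2 := P.big 0 (by omega)
  have h3 := P.vc
  have h4 := P.room
  cases i with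
  | inl q =>
    obtain ⟨k, j⟩ := q
    have h5 := P.pos k k.2
    have h6 := P.big k k.2
    simp only [off]
    split_ifs <;> omega
  | inr j =>
    simp only [off]
    have hj : ((j : ℕ) : ℤ) ≤ 1 := by have := j.2; omega
    have hj0 : (0 : ℤ) ≤ ((j : ℕ) : ℤ) := by positivity
    nlinarith

theorem off_pos (P : Par p u v c S) (hp : 1 ≤ p) (he : e ≤ 1) (i : Idx p e) (hi : Dm i = 1) :
    0 < off u v c i := by
  have h1 := P.pos 0 (by omega)
  have h2 := P.big 0 (by omega)
  have h3 := P.vc
  cases i with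
  | inl q =>
    obtain ⟨k, j⟩ := q
    have h5 := P.pos k k.2
    have hj : j ≠ 0 := by
      intro hj; simp [Dm, hj] at hi
    simp only [off, if_neg hj]
    split_ifs <;> omega
  | inr j =>
    simp only [off]
    have : (0 : ℤ) ≤ ((j : ℕ) : ℤ) * (v - u 0) := by
      apply mul_nonneg (by positivity); omega
    omega

/-- the last offset in a block -/
def lastOff (e : ℕ) (u : ℕ → ℤ) (v c : ℤ) (b : ℤ) : ℤ := if b = 0 then c + e * (v - u 0) else v

theorem off_le_last (P : Par p u v c S) (hp : 1 ≤ p) (he : e ≤ 1) (i : Idx p e) :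
    off u v c i ≤ lastOff e u v c (blk i) := by
  have h1 := P.pos 0 (by omega)
  have h2 := P.big 0 (by omega)
  have h3 := P.vc
  have hev : (0 : ℤ) ≤ (e : ℤ) * (v - u 0) := by
    apply mul_nonneg (by positivity); omega
  cases i with
  | inl q =>
    obtain ⟨k, j⟩ := q
    have h5 := P.pos k k.2
    have h6 := P.big k k.2
    simp only [off, lastOff, blk]
    split_ifs <;> omega
  | inr j =>
    simp only [off, lastOff, blk, if_true]
    have hj : ((j : ℕ) : ℤ) ≤ e := by have := j.2; omega
    nlinarith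

theorem off_short (i : Idx p e) (hi : Short i) : off u v c i = lastOff e u v c (blk i) := by
  cases i with
  | inl q =>
    obtain ⟨k, j⟩ := q
    simp only [Short] at hi
    obtain ⟨rfl, hk⟩ := hi
    simp only [off, lastOff, blk]
    rw [if_neg (by decide), if_neg (by decide), if_neg (by exact_mod_cast hk)]
  | inr j =>
    simp only [Short] at hi
    simp [off, lastOff, blk, hi]

/-- the previous block -/
def pr (k : Fin p) : Fin p :=
  if h : (k : ℕ) = 0 then ⟨p - 1, by have := k.2; omega⟩ else ⟨k - 1, by have := k.2; omega⟩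

/-- winding of the previous block -/
def wd (k : Fin p) : ℤ := if (k : ℕ) = 0 then 1 else 0

theorem pr_wd (k : Fin p) : ((pr k : ℕ) : ℤ) + 1 = (k : ℕ) + wd k * p := by
  unfold pr wd
  have := k.2
  split_ifs with h
  · simp; omega
  · simp; omega

/-- the token which kills `N k` -/
def tau (e : ℕ) (k : Fin p) : Idx p e :=
  if (pr k : ℕ) = 0 then Sum.inr (Fin.last e) else Sum.inl (pr k, 2)

theorem tau_short (k : Fin p) : Short (tau e k) := by
  unfold tau
  split_ifs with h
  · simp [Short]
  · simp [Short, h]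

theorem blk_tau (k : Fin p) : blk (tau e k) = (pr k : ℕ) := by
  unfold tau
  split_ifs with h
  · simp [blk, h]
  · simp [blk]

theorem Dm_tau (k : Fin p) : Dm (tau e k) = 1 := by
  unfold tau
  split_ifs with h
  · simp [Dm]
  · simp [Dm]

theorem Dm_short (i : Idx p e) (hi : Short i) : Dm i = 1 := by
  cases i with
  | inl q =>
    obtain ⟨k, j⟩ := q
    simp only [Short] at hi
    obtain ⟨rfl, hk⟩ := hi
    simp [Dm]
  | inr j => simp [Dm]

theorem pr_surj (b : Fin p) : ∃ k : Fin p, pr k = b := by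
  have hb := b.2
  by_cases h : (b : ℕ) + 1 = p
  · refine ⟨⟨0, by omega⟩, ?_⟩
    apply Fin.ext
    simp [pr]; omega
  · refine ⟨⟨b + 1, by omega⟩, ?_⟩
    apply Fin.ext
    simp [pr]

theorem pr_inj {k k' : Fin p} (h : pr k = pr k') : k = k' := by
  have h1 := pr_wd k
  have h2 := pr_wd k'
  rw [h] at h1
  have hk := k.2
  have hk' := k'.2
  apply Fin.ext
  unfold wd at h1 h2
  split_ifs at h1 h2 <;> omega

theorem short_eq_tau (hp : 1 ≤ p) (i : Idx p e) (hi : Short i) : ∃ k : Fin p, i = tau e k := by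
  cases i with
  | inl q =>
    obtain ⟨b, j⟩ := q
    simp only [Short] at hi
    obtain ⟨rfl, hb⟩ := hi
    obtain ⟨k, hk⟩ := pr_surj b
    exact ⟨k, by unfold tau; rw [hk, if_neg hb]⟩
  | inr j =>
    simp only [Short] at hi
    obtain ⟨k, hk⟩ := pr_surj (⟨0, hp⟩ : Fin p)
    refine ⟨k, ?_⟩
    unfold tau
    rw [hk, if_pos rfl]
    congr 1
    exact Fin.ext hi

theorem tau_inj {k k' : Fin p} (h : tau e k = tau e k') : k = k' := by
  apply pr_inj
  apply Fin.ext
  have h1 := blk_tau (e := e) k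
  have h2 := blk_tau (e := e) k'
  rw [h, h2] at h1
  exact_mod_cast h1.symm

/-- time of death of `N k` -/
def sd (e : ℕ) (u : ℕ → ℤ) (v c S : ℤ) (k : Fin p) : ℤ := S - off u v c (tau e k)

theorem sd_pos (P : Par p u v c S) (hp : 1 ≤ p) (he : e ≤ 1) (k : Fin p) :
    0 < sd e u v c S k := by
  have h1 := off_lt P hp he (tau e k)
  have h2 := off_nonneg P hp he (tau e k)
  unfold sd; omega

theorem sd_lt (P : Par p u v c S) (hp : 1 ≤ p) (he : e ≤ 1) (k : Fin p) :
    sd e u v c S k < S := by
  have h1 := off_pos P hp he (tau e k) (Dm_tau k)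
  unfold sd; omega

/-- comparison of points by blocks -/
theorem block_unique {S b b' x x' : ℤ} (hx : 0 ≤ x) (hx' : 0 ≤ x') (hxS : x < S) (hxS' : x' < S)
    (h : b * S + x = b' * S + x') : b = b' ∧ x = x' := by
  have hS : 0 < S := by omega
  have hb : b = b' := by
    by_contra hne
    rcases lt_or_gt_of_ne hne with h1 | h1
    · have : (b + 1) * S ≤ b' * S := mul_le_mul_of_nonneg_right (by omega) hS.le
      nlinarith
    · have : (b' + 1) * S ≤ b * S := mul_le_mul_of_nonneg_right (by omega) hS.le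
      nlinarith
  subst hb
  exact ⟨rfl, by omega⟩

/-- if a point of a block lies in the open block `[b S, (b+1) S)` then the block numbers agree -/
theorem block_of_mem {S b b' x : ℤ} (hx : 0 ≤ x) (hxS : x < S)
    (h1 : b * S < b' * S + x + 1) (h2 : b' * S + x < (b + 1) * S) : b = b' := by
  have hS : 0 < S := by omega
  by_contra hne
  rcases lt_or_gt_of_ne hne with h | h
  · have : (b + 1) * S ≤ b' * S := mul_le_mul_of_nonneg_right (by omega) hS.le
    nlinarith
  · have : (b' + 1) * S ≤ b * S := mul_le_mul_of_nonneg_right (by omega) hS.le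
    nlinarith

theorem mod_unique {p b b' y : ℤ} (hb : 0 ≤ b) (hb' : 0 ≤ b') (hbp : b < p) (hbp' : b' < p)
    (h : b + y * p = b') : y = 0 ∧ b = b' := by
  have hp : 0 < p := by omega
  have hy : y = 0 := by
    by_contra hne
    rcases lt_or_gt_of_ne hne with h1 | h1
    · have : y * p ≤ (-1) * p := mul_le_mul_of_nonneg_right (by omega) hp.le
      omega
    · have : 1 * p ≤ y * p := mul_le_mul_of_nonneg_right (by omega) hp.le
      omega
  subst hy
  exact ⟨rfl, by omega⟩

end homes

end Q32.RB
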