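import Mathlib
import Pool.Agent.Q32.RB.Stm

/-!
# Bouncing robots: Hermite identities
-/

namespace Q32.RB

open Finset

theorem herm0 (p : ℕ) (hp : 1 ≤ p) (Y : ℤ) : ∑ b ∈ range p, (Y + b) / (p : ℤ) = Y := by
  have hp' : (p : ℤ) ≠ 0 := by omega
  have step : ∀ Y : ℤ, ∑ b ∈ range p, (Y + 1 + b) / (p : ℤ) = ∑ b ∈ range p, (Y + b) / (p : ℤ) + 1 := by
    intro Y
    have h1 := Finset.sum_range_succ (fun b : ℕ => (Y + b) / (p : ℤ)) p
    have h2 := Finset.sum_range_succ' (fun b : ℕ => (Y + b) / (p : ℤ)) p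
    have h3 : ∑ b ∈ range p, (Y + ((b + 1 : ℕ) : ℤ)) / (p : ℤ) = ∑ b ∈ range p, (Y + 1 + b) / (p : ℤ) := by
      apply Finset.sum_congr rfl
      intro b _
      congr 1
      push_cast; ring
    have h4 : (Y + ((p : ℕ) : ℤ)) / (p : ℤ) = Y / (p : ℤ) + 1 := by
      have := Int.add_mul_ediv_right Y 1 hp'
      rw [one_mul] at this
      exact this
    rw [h1, h3] at h2
    simp only [Nat.cast_zero, add_zero] at h2
    rw [h4] at h2
    linarith
  have h0 : ∑ b ∈ range p, (0 + (b : ℤ)) / (p : ℤ) = 0 := by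
    apply Finset.sum_eq_zero
    intro b hb
    have := Finset.mem_range.1 hb
    apply Int.ediv_eq_zero_of_lt <;> omega
  induction Y using Int.induction_on with
  | zero => exact h0
  | succ n ih => rw [step, ih]
  | pred n ih =>
    have := step (-(n : ℤ) - 1)
    rw [show (-(n : ℤ) - 1 + 1) = -n by ring, ih] at this
    linarith

theorem div_block (p : ℕ) (S y : ℤ) (hS : 0 < S) (b : ℤ) :
    (y + b * S) / (p * S) = (y / S + b) / p := by
  rw [mul_comm (p : ℤ) S, ← Int.ediv_ediv_of_nonneg hS.le, Int.add_mul_ediv_right _ _ hS.ne']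

theorem herm : S_HERM := by
  intro p S y hp hS
  rw [← herm0 p hp (y / S)]
  exact Finset.sum_congr rfl (fun b _ => div_block p S y hS b)

theorem herm2 (p : ℕ) (S y : ℤ) (hp : 1 ≤ p) (hS : 0 < S) :
    ∑ b ∈ range p, (y - b * S) / (p * S) = y / S - (p - 1) := by
  rw [← Finset.sum_range_reflect]
  have h1 : ∀ b ∈ range p, (y - ((p - 1 - b : ℕ) : ℤ) * S) / (p * S) =
      ((y - (p - 1) * S) + b * S) / (p * S) := by
    intro b hb
    have := Finset.mem_range.1 hb
    congr 1
    have : ((p - 1 - b : ℕ) : ℤ) = p - 1 - b := by omega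
    rw [this]; ring
  rw [Finset.sum_congr rfl h1, herm p S _ hp hS]
  have := Int.add_mul_ediv_right y (-((p : ℤ) - 1)) hS.ne'
  rw [show y - ((p : ℤ) - 1) * S = y + (-((p : ℤ) - 1)) * S by ring, this]
  ring

theorem div_add_small (S y w : ℤ) (hS : 0 < S) (hw : 0 ≤ w) (hwS : w < S) :
    (y + w) / S = y / S + (if S ≤ y % S + w then 1 else 0) := by
  have h1 := Int.emod_add_mul_ediv y S
  have h2 := Int.emod_nonneg y hS.ne'
  have h3 := Int.emod_lt_of_pos y hS
  split_ifs with h
  · rw [Int.ediv_eq_iff_of_pos hS]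
    constructor <;> nlinarith
  · rw [Int.ediv_eq_iff_of_pos hS]
    constructor <;> nlinarith

theorem div_sub_small (S y w : ℤ) (hS : 0 < S) (hw : 0 ≤ w) (hwS : w < S) :
    (y - w) / S = y / S - (if y % S < w then 1 else 0) := by
  have h1 := Int.emod_add_mul_ediv y S
  have h2 := Int.emod_nonneg y hS.ne'
  have h3 := Int.emod_lt_of_pos y hS
  split_ifs with h
  · rw [Int.ediv_eq_iff_of_pos hS]
    constructor <;> nlinarith
  · rw [Int.ediv_eq_iff_of_pos hS]
    constructor <;> nlinarith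

theorem div_succ (p Y : ℤ) (hp : 0 < p) : (Y + 1) / p = Y / p + (if p ∣ Y + 1 then 1 else 0) := by
  have h1 := Int.emod_add_mul_ediv Y p
  have h2 := Int.emod_nonneg Y hp.ne'
  have h3 := Int.emod_lt_of_pos Y hp
  split_ifs with h
  · obtain ⟨c, hc⟩ := h
    rw [hc, Int.mul_ediv_cancel_left _ hp.ne']
    have h4 : Y / p = c - 1 := by
      rw [Int.ediv_eq_iff_of_pos hp]
      constructor <;> nlinarith
    omega
  · rw [Int.ediv_eq_iff_of_pos hp]
    have h5 : Y % p ≠ p - 1 := by
      intro h6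
      apply h
      exact ⟨Y / p + 1, by rw [h6] at h1; linarith⟩
    have h6 : Y % p + 1 < p := by omega
    constructor <;> nlinarith

theorem hermu : S_HERMU := by
  intro p u S y hp hS hu
  have hp' : (0 : ℤ) < p := by omega
  set Y := y / S with hY
  have hterm : ∀ b ∈ range p, (y + b * S + u b) / (p * S) =
      (Y + b) / (p : ℤ) + (if S ≤ y % S + u b ∧ (p : ℤ) ∣ Y + b + 1 then 1 else 0) := by
    intro b hb
    obtain ⟨h1, h2⟩ := hu b (Finset.mem_range.1 hb)
    rw [show y + b * S + u b = (y + u b) + b * S by ring, div_block p S _ hS,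
      div_add_small S y (u b) hS h1 h2]
    by_cases h3 : S ≤ y % S + u b
    · rw [if_pos h3, show y / S + 1 + (b : ℤ) = (Y + b) + 1 by rw [hY]; ring, div_succ _ _ hp']
      simp [h3]
    · rw [if_neg h3, if_neg (fun h => h3 h.1)]
      simp [hY]
  rw [Finset.sum_congr rfl hterm, Finset.sum_add_distrib, herm0 p hp Y]
  congr 1
  set m := ((-1 - Y) % p).toNat with hm
  have hm0 : 0 ≤ (-1 - Y) % (p : ℤ) := Int.emod_nonneg _ hp'.ne'
  have hm1 : (-1 - Y) % (p : ℤ) < p := Int.emod_lt_of_pos _ hp'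
  have hmc : (m : ℤ) = (-1 - Y) % p := by rw [hm]; exact Int.toNat_of_nonneg hm0
  have hmd : (p : ℤ) ∣ Y + m + 1 := by
    have := Int.emod_add_mul_ediv (-1 - Y) (p : ℤ)
    exact ⟨-((-1 - Y) / p), by rw [hmc]; linarith⟩
  have hmr : m ∈ range p := by
    rw [Finset.mem_range]
    have : (m : ℤ) < p := by rw [hmc]; exact hm1
    exact_mod_cast this
  rw [Finset.sum_eq_single m]
  · by_cases h3 : S ≤ y % S + u m
    · rw [if_pos ⟨h3, hmd⟩, if_pos h3]
    · rw [if_neg (fun h => h3 h.1), if_neg h3]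
  · intro b hb hbm
    rw [if_neg]
    rintro ⟨-, hbd⟩
    apply hbm
    have h1 : (p : ℤ) ∣ (b : ℤ) - m := by
      have := dvd_sub hbd hmd
      rwa [show Y + (b : ℤ) + 1 - (Y + m + 1) = (b : ℤ) - m by ring] at this
    obtain ⟨c, hc⟩ := h1
    have hb' := Finset.mem_range.1 hb
    have hmr' := Finset.mem_range.1 hmr
    have hc0 : c = 0 := by
      by_contra hne
      rcases lt_or_gt_of_ne hne with h | h
      · have : (p : ℤ) * c ≤ p * (-1) := mul_le_mul_of_nonneg_left (by omega) hp'.le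
        omega
      · have : (p : ℤ) * 1 ≤ p * c := mul_le_mul_of_nonneg_left (by omega) hp'.le
        omega
    rw [hc0] at hc
    omega
  · intro h; exact absurd hmr h

theorem hermu2 (p : ℕ) (u : ℕ → ℤ) (S y : ℤ) (hp : 1 ≤ p) (hS : 0 < S)
    (hu : ∀ k, k < p → 0 ≤ u k ∧ u k < S) :
    ∑ b ∈ range p, (y - b * S - u b) / (p * S) =
      y / S - (p - 1) - (if y % S < u ((y / S) % p).toNat then 1 else 0) := by
  have hp' : (0 : ℤ) < p := by omega
  set Y := y / S with hY
  have hterm : ∀ b ∈ range p, (y - b * S - u b) / (p * S) =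
      (y - b * S) / (p * S) - (if y % S < u b ∧ (p : ℤ) ∣ Y - b then 1 else 0) := by
    intro b hb
    obtain ⟨h1, h2⟩ := hu b (Finset.mem_range.1 hb)
    rw [show y - b * S - u b = (y - u b) + (-(b : ℤ)) * S by ring, div_block p S _ hS,
      div_sub_small S y (u b) hS h1 h2,
      show y - b * S = y + (-(b : ℤ)) * S by ring, div_block p S _ hS]
    by_cases h3 : y % S < u b
    · rw [if_pos h3]
      have := div_succ p (Y - 1 + -(b : ℤ)) hp'
      rw [show Y - 1 + -(b : ℤ) + 1 = Y - b by ring] at this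
      rw [show y / S + -(b : ℤ) = Y - b by rw [hY]; ring, this]
      simp [h3, hY]
    · rw [if_neg h3, if_neg (fun h => h3 h.1)]
      simp
  rw [Finset.sum_congr rfl hterm, Finset.sum_sub_distrib, herm2 p S y hp hS]
  congr 1
  set m := (Y % p).toNat with hm
  have hm0 : 0 ≤ Y % (p : ℤ) := Int.emod_nonneg _ hp'.ne'
  have hm1 : Y % (p : ℤ) < p := Int.emod_lt_of_pos _ hp'
  have hmc : (m : ℤ) = Y % p := by rw [hm]; exact Int.toNat_of_nonneg hm0
  have hmd : (p : ℤ) ∣ Y - m := by
    have := Int.emod_add_mul_ediv Y (p : ℤ)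
    exact ⟨Y / p, by rw [hmc]; linarith⟩
  have hmr : m ∈ range p := by
    rw [Finset.mem_range]
    have : (m : ℤ) < p := by rw [hmc]; exact hm1
    exact_mod_cast this
  rw [Finset.sum_eq_single m]
  · by_cases h3 : y % S < u m
    · rw [if_pos ⟨h3, hmd⟩, if_pos h3]
    · rw [if_neg (fun h => h3 h.1), if_neg h3]
  · intro b hb hbm
    rw [if_neg]
    rintro ⟨-, hbd⟩
    apply hbm
    have h1 : (p : ℤ) ∣ (b : ℤ) - m := by
      have := dvd_sub hmd hbd
      rwa [show Y - (m : ℤ) - (Y - b) = (b : ℤ) - m by ring] at this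
    obtain ⟨c, hc⟩ := h1
    have hb' := Finset.mem_range.1 hb
    have hmr' := Finset.mem_range.1 hmr
    have hc0 : c = 0 := by
      by_contra hne
      rcases lt_or_gt_of_ne hne with h | h
      · have : (p : ℤ) * c ≤ p * (-1) := mul_le_mul_of_nonneg_left (by omega) hp'.le
        omega
      · have : (p : ℤ) * 1 ≤ p * c := mul_le_mul_of_nonneg_left (by omega) hp'.le
        omega
    rw [hc0] at hc
    omega
  · intro h; exact absurd hmr h

end Q32.RB
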