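import Mathlib
import Pool.Agent.Q32.RB.Herm
import Pool.Agent.Q32.RB.Ex1

/-!
# Bouncing robots: arithmetic of the example, ceiling version
-/

namespace Q32.RB

open Finset

variable {p e : ℕ} {u : ℕ → ℤ} {v c S : ℤ}

theorem Par.bnd (P : Par p u v c S) (k : ℕ) (hk : k < p) : 0 ≤ u k ∧ u k < S := by
  have h1 := P.pos k hk
  have h2 := P.big k hk
  have h3 := P.vc
  have h4 := P.room
  constructor <;> omega

/-- the sum over the left tokens and the full right tokens `U`, ceiling version, at a left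
crossing time -/
theorem W_cl (hp : 1 ≤ p) (P : Par p u v c S) (k : ℕ) (hk : k < p) (x j : ℤ) (hx : 0 < x)
    (hx2 : 2 * x < S) :
    ∑ b ∈ range p, cl (p * S) (b * S - (k * S + x)) (-(j * S - x)) +
      ∑ b ∈ range p, cl (p * S) (b * S + u b - (k * S + x)) (j * S - x) =
    (if 2 * x < u (((k : ℤ) - j) % p).toNat then 1 else 0) - (if x < u k then 1 else 0) := by
  have hS := P.S_pos hp
  have h1 : ∑ b ∈ range p, cl (p * S) (b * S - (k * S + x)) (-(j * S - x)) = -j := by
    have e1 : ∀ b ∈ range p, cl (p * S) (b * S - (k * S + x)) (-(j * S - x)) =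
        ((k * S + x) - b * S) / (p * S) - (((k : ℤ) + j) * S - b * S) / (p * S) := by
      intro b _
      unfold cl
      congr 2
      · ring
      · ring
    rw [Finset.sum_congr rfl e1, Finset.sum_sub_distrib, herm2 p S _ hp hS, herm2 p S _ hp hS]
    have e2 : ((k : ℤ) * S + x) / S = k := by
      rw [Int.ediv_eq_iff_of_pos hS]; constructor <;> omega
    have e3 : (((k : ℤ) + j) * S) / S = k + j := Int.mul_ediv_cancel _ hS.ne'
    rw [e2, e3]; ring
  have h2 : ∑ b ∈ range p, cl (p * S) (b * S + u b - (k * S + x)) (j * S - x) =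
      j - (if x < u k then 1 else 0) + (if 2 * x < u (((k : ℤ) - j) % p).toNat then 1 else 0) := by
    have e1 : ∀ b ∈ range p, cl (p * S) (b * S + u b - (k * S + x)) (j * S - x) =
        ((k * S + x) - b * S - u b) / (p * S) -
          (((k : ℤ) - j) * S + 2 * x - b * S - u b) / (p * S) := by
      intro b _
      unfold cl
      congr 2
      · ring
      · ring
    rw [Finset.sum_congr rfl e1, Finset.sum_sub_distrib, hermu2 p u S _ hp hS P.bnd,
      hermu2 p u S _ hp hS P.bnd]
    have e2 : ((k : ℤ) * S + x) / S = k := by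
      rw [Int.ediv_eq_iff_of_pos hS]; constructor <;> omega
    have e3 : ((k : ℤ) * S + x) % S = x := by
      have := Int.emod_add_mul_ediv ((k : ℤ) * S + x) S
      rw [e2] at this; linarith
    have e4 : (((k : ℤ) - j) * S + 2 * x) / S = k - j := by
      rw [Int.ediv_eq_iff_of_pos hS]; constructor <;> linarith
    have e5 : (((k : ℤ) - j) * S + 2 * x) % S = 2 * x := by
      have := Int.emod_add_mul_ediv (((k : ℤ) - j) * S + 2 * x) S
      rw [e4] at this; linarith
    have e6 : ((k : ℤ) % p).toNat = k := by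
      rw [Int.emod_eq_of_lt (by omega) (by omega)]; simp
    rw [e2, e3, e4, e5, e6]; ring
  rw [h1, h2]; ring

theorem cl_nonneg {C g y : ℤ} (hC : 0 < C) (hy : 0 ≤ y) : 0 ≤ cl C g y := by
  unfold cl
  have : (-(g + y)) / C ≤ (-g) / C := Int.ediv_le_ediv hC (by omega)
  omega

theorem cl_pos {C y : ℤ} (hC : 0 < C) (hy : 0 < y) : 1 ≤ cl C 0 y := by
  unfold cl
  simp only [zero_add, neg_zero, Int.zero_ediv]
  have : (-y) / C < 0 := Int.ediv_neg_of_neg_of_pos (by omega) hC
  omega

/-- residue `(k - j) mod p` if `j < k` or `k = 0`, `j < p` -/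
theorem idx_lt (hp : 1 ≤ p) (P : Par p u v c S) (k : ℕ) (hk : k < p) (j : ℤ) (hj : 1 ≤ j)
    (h : j < k ∨ (k = 0 ∧ j < p)) : 2 * u k < u (((k : ℤ) - j) % p).toNat := by
  rcases h with h | ⟨rfl, h⟩
  · have e1 : ((k : ℤ) - j) % p = k - j := Int.emod_eq_of_lt (by omega) (by omega)
    rw [e1]
    obtain ⟨m, hm⟩ : ∃ m : ℕ, (m : ℤ) = k - j := ⟨((k : ℤ) - j).toNat, by omega⟩
    rw [← hm, Int.toNat_natCast]
    exact P.dec m k (by omega) (by omega) hk
  · have e1 : (((0 : ℕ) : ℤ) - j) % p = p - j := by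
      have : (((0 : ℕ) : ℤ) - j) = (p - j) + (-1) * p := by push_cast; ring
      rw [this, Int.add_mul_emod_self_right]
      exact Int.emod_eq_of_lt (by omega) (by omega)
    rw [e1]
    obtain ⟨m, hm⟩ : ∃ m : ℕ, (m : ℤ) = p - j := ⟨((p : ℤ) - j).toNat, by omega⟩
    rw [← hm, Int.toNat_natCast]
    exact P.zero m (by omega) (by omega)

theorem C_pos' (hp : 1 ≤ p) (P : Par p u v c S) : 0 < (p : ℤ) * S ∧ S ≤ (p : ℤ) * S := by
  have hS := P.S_pos hp
  have : (1 : ℤ) ≤ p := by omega
  constructor <;> nlinarith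

theorem flux_same (f : ℤ → ℤ → ℤ → ℤ) (p e : ℕ) (u : ℕ → ℤ) (v c S h T : ℤ) :
    flux f p e u v c S h T T T = ∑ b ∈ range p, f (p * S) (b * S - h) (-T) +
      ∑ b ∈ range p, f (p * S) (b * S + u b - h) T + f (p * S) (v - h) T +
        e * f (p * S) (c - h) T := by
  unfold flux
  simp

theorem a1U : S_A1U := by
  intro p e u v c S hp he P k j hk hj
  have hS := P.S_pos hp
  obtain ⟨hC, hSC⟩ := C_pos' hp P
  have hu := P.pos k hk
  have hb := P.big k hk
  have hr := P.room
  have hvc := P.vc
  have hT : 0 < j * S - u k := by nlinarith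
  rw [flux_same, W_cl hp P k hk (u k) j hu (by omega), if_neg (lt_irrefl _)]
  have h1 : 0 ≤ cl (p * S) (v - (k * S + u k)) (j * S - u k) := cl_nonneg hC hT.le
  have h2 : 0 ≤ (e : ℤ) * cl (p * S) (c - (k * S + u k)) (j * S - u k) :=
    mul_nonneg (by positivity) (cl_nonneg hC hT.le)
  by_cases hcase : j < k ∨ (k = 0 ∧ j < p)
  · rw [if_pos (idx_lt hp P k hk j hj hcase)]
    omega
  · have h3 : 1 ≤ cl (p * S) (v - (k * S + u k)) (j * S - u k) := by
      unfold cl
      push Not at hcase
      obtain ⟨c1, c2⟩ := hcase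
      by_cases hk0 : k = 0
      · subst hk0
        have c3 := c2 rfl
        have e1 : (-1 : ℤ) ≤ (-(v - (((0 : ℕ) : ℤ) * S + u 0))) / (p * S) := by
          rw [Int.le_ediv_iff_mul_le hC]; push_cast; nlinarith
        have e2 : (-(v - (((0 : ℕ) : ℤ) * S + u 0) + (j * S - u 0))) / (p * S) < -1 := by
          rw [Int.ediv_lt_iff_lt_mul hC]; push_cast; nlinarith
        omega
      · have hk1 : (1 : ℤ) ≤ k := by omega
        have e1 : (0 : ℤ) ≤ (-(v - ((k : ℤ) * S + u k))) / (p * S) := by
          apply Int.ediv_nonneg _ hC.le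
          nlinarith
        have e2 : (-(v - ((k : ℤ) * S + u k) + (j * S - u k))) / (p * S) < 0 := by
          apply Int.ediv_neg_of_neg_of_pos _ hC
          nlinarith
        omega
    split_ifs <;> omega

theorem a1V : S_A1V := by
  intro p e u v c S hp he P k j hk hj
  have hS := P.S_pos hp
  obtain ⟨hC, hSC⟩ := C_pos' hp P
  have hb := P.big k hk
  have hu := P.pos k hk
  have hv := P.v_pos hp
  have hr := P.room
  have hvc := P.vc
  have hT : 0 < j * S - v := by nlinarith
  rw [flux_same, W_cl hp P k hk v j hv (by omega), if_neg (show ¬ v < u k by omega)]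
  have h1 : 0 ≤ cl (p * S) (v - (k * S + v)) (j * S - v) := cl_nonneg hC hT.le
  have h2 : 0 ≤ (e : ℤ) * cl (p * S) (c - (k * S + v)) (j * S - v) :=
    mul_nonneg (by positivity) (cl_nonneg hC hT.le)
  by_cases hk0 : k = 0
  · rw [if_pos hk0]
    have h3 : 1 ≤ cl (p * S) (v - (k * S + v)) (j * S - v) := by
      rw [hk0]
      rw [show v - (((0 : ℕ) : ℤ) * S + v) = 0 by push_cast; ring]
      exact cl_pos hC hT
    split_ifs <;> omega
  · rw [if_neg hk0]
    split_ifs <;> omega

theorem a1C : S_A1C := by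
  intro p e u v c S hp he P i j x hi hj hx
  have hS := P.S_pos hp
  obtain ⟨hC, hSC⟩ := C_pos' hp P
  have hb := P.big 0 (by omega)
  have hu := P.pos 0 (by omega)
  have hv := P.v_pos hp
  have hr := P.room
  have hvc := P.vc
  have hi1 : i = 0 ∨ i = 1 := by omega
  have hx1 : c ≤ x ∧ x ≤ c + v := by
    rcases hi1 with rfl | rfl
    · rw [hx]; push_cast; constructor <;> omega
    · rw [hx]; push_cast; constructor <;> omega
  have hT : 0 < j * S - x := by nlinarith
  have hW := W_cl hp P 0 (by omega) x j (by omega) (by omega)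
  rw [if_neg (show ¬ x < u 0 by omega)] at hW
  simp only [Nat.cast_zero, zero_mul, zero_add] at hW
  rw [flux_same, hW]
  have h1 : 0 ≤ cl (p * S) (v - x) (j * S - x) := cl_nonneg hC hT.le
  have h2 : 0 ≤ (e : ℤ) * cl (p * S) (c - x) (j * S - x) :=
    mul_nonneg (by positivity) (cl_nonneg hC hT.le)
  by_cases hie : i = e
  · rw [if_pos hie]
    split_ifs <;> omega
  · rw [if_neg hie]
    have he1 : e = 1 := by omega
    have hi0 : i = 0 := by omega
    have hxc : x = c := by rw [hx, hi0]; simp
    have h3 : 1 ≤ (e : ℤ) * cl (p * S) (c - x) (j * S - x) := by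
      rw [he1]
      simp only [Nat.cast_one, one_mul]
      have := cl_pos hC hT
      rw [show c - x = 0 by omega]
      exact this
    split_ifs <;> omega

theorem Qn_eq (hp : 1 ≤ p) (he : e ≤ 1) : (1 + (e : ℤ)) * Qn p e = 2 * p - 1 + e := by
  unfold Qn
  have : e = 0 ∨ e = 1 := by omega
  rcases this with rfl | rfl
  · simp
  · simp only [one_ne_zero, if_false]
    push_cast; ring

/-- the flux in phase 2, ceiling version -/
theorem flux2_cl (p e : ℕ) (u : ℕ → ℤ) (v c S h T T0 TV : ℤ) (hp : 1 ≤ p) :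
    flux cl p e u v c S h T T0 TV = ∑ b ∈ range p, cl (p * S) (b * S - h) (-T) +
      ∑ b ∈ range p, cl (p * S) (b * S + u b - h) T - cl (p * S) (u 0 - h) T +
      cl (p * S) (u 0 - h) T0 + cl (p * S) (v - h) TV + e * cl (p * S) (c - h) T := by
  unfold flux
  obtain ⟨n, rfl⟩ : ∃ n, p = n + 1 := ⟨p - 1, by omega⟩
  rw [Finset.sum_range_succ' (fun b : ℕ => cl (((n + 1 : ℕ) : ℤ) * S) (b * S + u b - h) T)]
  rw [Finset.sum_range_succ' (fun b : ℕ => cl (((n + 1 : ℕ) : ℤ) * S) (b * S + u b - h)
    (if b = 0 then T0 else T))]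
  simp
  ring

theorem d2_core (hp : 1 ≤ p) (he : e ≤ 1) (P : Par p u v c S) (h T W : ℤ)
    (hT : 0 ≤ T) :
    (W - cl (p * S) (u 0 - h) T + cl (p * S) (u 0 - h) (Tst p e u c S) +
      cl (p * S) (v - h) (if e = 0 then T else Tst p e u c S) + e * cl (p * S) (c - h) T =
    W + (1 + e) * Qn p e + (if e = 0 then
      ((h - u 0 - T) / (p * S) - (h - v - T) / (p * S)) + ((h - v) / (p * S) - (h - c) / (p * S))
      else ((h - u 0 - T) / (p * S) - (h - c - T) / (p * S)) +
        ((h - v) / (p * S) - (h - v - c + u 0) / (p * S)))) := by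
  obtain ⟨hC, hSC⟩ := C_pos' hp P
  have e1 : cl (p * S) (u 0 - h) (Tst p e u c S) =
      (h - u 0) / (p * S) - (h - c) / (p * S) + Qn p e := by
    unfold cl Tst
    have : -(u 0 - h + (Qn p e * (p * S) + c - u 0)) = (h - c) + (-Qn p e) * (p * S) := by ring
    rw [this, Int.add_mul_ediv_right _ _ hC.ne', show -(u 0 - h) = h - u 0 by ring]; ring
  have e2 : cl (p * S) (u 0 - h) T = (h - u 0) / (p * S) - (h - u 0 - T) / (p * S) := by
    unfold cl
    rw [show -(u 0 - h) = h - u 0 by ring, show -(u 0 - h + T) = h - u 0 - T by ring]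
  have e3 : cl (p * S) (v - h) T = (h - v) / (p * S) - (h - v - T) / (p * S) := by
    unfold cl
    rw [show -(v - h) = h - v by ring, show -(v - h + T) = h - v - T by ring]
  have e4 : cl (p * S) (c - h) T = (h - c) / (p * S) - (h - c - T) / (p * S) := by
    unfold cl
    rw [show -(c - h) = h - c by ring, show -(c - h + T) = h - c - T by ring]
  have e5 : cl (p * S) (v - h) (Tst p e u c S) =
      (h - v) / (p * S) - (h - v - c + u 0) / (p * S) + Qn p e := by
    unfold cl Tst
    have : -(v - h + (Qn p e * (p * S) + c - u 0)) = (h - v - c + u 0) + (-Qn p e) * (p * S) := by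
      ring
    rw [this, Int.add_mul_ediv_right _ _ hC.ne', show -(v - h) = h - v by ring]; ring
  have : e = 0 ∨ e = 1 := by omega
  rcases this with rfl | rfl
  · simp only [if_true]
    rw [e1, e2, e3]
    push_cast; ring
  · simp only [one_ne_zero, if_false]
    rw [e1, e2, e5, e4]
    push_cast; ring

theorem d2U : S_D2U := by
  intro p e u v c S hp he P k j hk hj
  have hS := P.S_pos hp
  obtain ⟨hC, hSC⟩ := C_pos' hp P
  have hu := P.pos k hk
  have hb := P.big k hk
  have hu0 := P.pos 0 (by omega)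
  have hb0 := P.big 0 (by omega)
  have hr := P.room
  have hvc := P.vc
  have hcv := P.cv
  have hQ := Qn_eq hp he
  have hQ1 : 1 ≤ Qn p e := by unfold Qn; split_ifs <;> omega
  have hTst : 0 < Tst p e u c S := by
    unfold Tst
    have : 0 < Qn p e * (p * S) := by positivity
    omega
  have hT : 0 < j * S - u k := by omega
  rw [flux2_cl _ _ _ _ _ _ _ _ _ _ hp, W_cl hp P k hk (u k) j hu (by omega),
    if_neg (lt_irrefl _), d2_core hp he P _ _ _ hT.le, hQ]
  have hmono : ∀ a b : ℤ, a ≤ b → a / ((p : ℤ) * S) ≤ b / (p * S) :=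
    fun a b hab => Int.ediv_le_ediv hC hab
  set h : ℤ := (k : ℤ) * S + u k with hh
  have m1 := hmono (h - v - (j * S - u k)) (h - u 0 - (j * S - u k)) (by omega)
  have m2 := hmono (h - c) (h - v) (by omega)
  have m3 := hmono (h - c - (j * S - u k)) (h - u 0 - (j * S - u k)) (by omega)
  have m4 := hmono (h - v - c + u 0) (h - v) (by omega)
  have hif : (0 : ℤ) ≤ (if 2 * u k < u (((k : ℤ) - j) % p).toNat then 1 else 0) := by
    split_ifs <;> norm_num
  by_cases hp1 : p = 1
  · -- p = 1
    subst hp1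
    have hk0 : k = 0 := by omega
    subst hk0
    have hC1 : (((1 : ℕ) : ℤ) * S) = S := by push_cast; ring
    rw [hC1] at m1 m2 m3 m4 ⊢
    have hh' : h = u 0 := by rw [hh]; push_cast; ring
    rw [hh'] at m1 m2 m3 m4 ⊢
    have g1 : (u 0 - u 0 - (j * S - u 0)) / S = -j := by
      rw [Int.ediv_eq_iff_of_pos hS]; constructor <;> linarith
    have g2 : (u 0 - v - (j * S - u 0)) / S < -j := by
      rw [Int.ediv_lt_iff_lt_mul hS]; linarith
    have g3 : (u 0 - c - (j * S - u 0)) / S < -j := by
      rw [Int.ediv_lt_iff_lt_mul hS]; linarith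
    have : e = 0 ∨ e = 1 := by omega
    rcases this with rfl | rfl
    · simp only [if_true]
      push_cast at *
      omega
    · simp only [one_ne_zero, if_false]
      push_cast at *
      omega
  · have hp2 : (2 : ℤ) ≤ p := by omega
    have : e = 0 ∨ e = 1 := by omega
    rcases this with rfl | rfl
    · simp only [if_true]
      push_cast
      omega
    · simp only [one_ne_zero, if_false]
      push_cast
      omega

theorem d2V : S_D2V := by
  intro p e u v c S hp he P k j hk hj
  have hS := P.S_pos hp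
  obtain ⟨hC, hSC⟩ := C_pos' hp P
  have hu := P.pos k hk
  have hb := P.big k hk
  have hu0 := P.pos 0 (by omega)
  have hb0 := P.big 0 (by omega)
  have hv := P.v_pos hp
  have hr := P.room
  have hvc := P.vc
  have hcv := P.cv
  have hQ := Qn_eq hp he
  have hQ1 : 1 ≤ Qn p e := by unfold Qn; split_ifs <;> omega
  have hTst : 0 < Tst p e u c S := by
    unfold Tst
    have : 0 < Qn p e * (p * S) := by positivity
    omega
  have hT : 0 < j * S - v := by omega
  rw [flux2_cl _ _ _ _ _ _ _ _ _ _ hp, W_cl hp P k hk v j hv (by omega),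
    if_neg (show ¬ v < u k by omega), d2_core hp he P _ _ _ hT.le, hQ]
  have hmono : ∀ a b : ℤ, a ≤ b → a / ((p : ℤ) * S) ≤ b / (p * S) :=
    fun a b hab => Int.ediv_le_ediv hC hab
  set h : ℤ := (k : ℤ) * S + v with hh
  have m1 := hmono (h - v - (j * S - v)) (h - u 0 - (j * S - v)) (by omega)
  have m2 := hmono (h - c) (h - v) (by omega)
  have m3 := hmono (h - c - (j * S - v)) (h - u 0 - (j * S - v)) (by omega)
  have m4 := hmono (h - v - c + u 0) (h - v) (by omega)
  have hif : (0 : ℤ) ≤ (if 2 * v < u (((k : ℤ) - j) % p).toNat then 1 else 0) := by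
    split_ifs <;> norm_num
  have hp1 : (1 : ℤ) ≤ p := by omega
  by_cases hk0 : k = 0
  · subst hk0
    rw [if_pos rfl]
    have hh' : h = v := by rw [hh]; push_cast; ring
    rw [hh'] at m1 m2 m3 m4 ⊢
    have g1 : (v - v) / ((p : ℤ) * S) = 0 := by simp
    have g2 : (v - c) / ((p : ℤ) * S) < 0 := Int.ediv_neg_of_neg_of_pos (by omega) hC
    have g3 : (v - v - c + u 0) / ((p : ℤ) * S) < 0 := Int.ediv_neg_of_neg_of_pos (by omega) hC
    have : e = 0 ∨ e = 1 := by omega
    rcases this with rfl | rfl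
    · simp only [if_true]
      push_cast at *
      omega
    · simp only [one_ne_zero, if_false]
      push_cast at *
      omega
  · rw [if_neg hk0]
    have : e = 0 ∨ e = 1 := by omega
    rcases this with rfl | rfl
    · simp only [if_true]
      push_cast at *
      omega
    · simp only [one_ne_zero, if_false]
      push_cast at *
      omega

end Q32.RB
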