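import Mathlib
import Pool.Agent.Q32.RB.ArC

/-!
# Bouncing robots: arithmetic of the example, floor version
-/

namespace Q32.RB

open Finset

variable {p e : ℕ} {u : ℕ → ℤ} {v c S : ℤ}

/-- the sum over the left tokens and the full right tokens `U`, floor version, `T = q S + r` -/
theorem W_fl (hp : 1 ≤ p) (P : Par p u v c S) (k : ℕ) (hk : k < p) (x q r : ℤ) (hx : 0 < x)
    (hx2 : 2 * x < S) (hr0 : 0 ≤ r) (hrS : r < S) :
    ∑ b ∈ range p, fl (p * S) (b * S - (k * S + x)) (-(q * S + r)) +
      ∑ b ∈ range p, fl (p * S) (b * S + u b - (k * S + x)) (q * S + r) =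
    (if x ≤ r then 1 - (if S < x + r then 1 else 0) +
        (if S + x - u (((k : ℤ) - q - 1) % p).toNat ≤ r then 1 else 0)
      else (if x - u (((k : ℤ) - q) % p).toNat ≤ r then 1 else 0)) - (if x ≤ u k then 1 else 0) := by
  have hS := P.S_pos hp
  have e2 : (-((k : ℤ) * S + x)) / S = -k - 1 := by
    rw [Int.ediv_eq_iff_of_pos hS]; constructor <;> linarith
  have h1 : ∑ b ∈ range p, fl (p * S) (b * S - (k * S + x)) (-(q * S + r)) =
      -q - (if S < x + r then 1 else 0) := by
    have e1 : ∀ b ∈ range p, fl (p * S) (b * S - (k * S + x)) (-(q * S + r)) =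
        ((-(k * S + x) - (q * S + r)) + b * S) / (p * S) - ((-(k * S + x)) + b * S) / (p * S) := by
      intro b _
      unfold fl
      congr 2
      · ring
      · ring
    rw [Finset.sum_congr rfl e1, Finset.sum_sub_distrib, herm p S _ hp hS, herm p S _ hp hS, e2]
    have e3 : (-((k : ℤ) * S + x) - (q * S + r)) / S = -k - q - 1 - (if S < x + r then 1 else 0) := by
      split_ifs with h
      · rw [Int.ediv_eq_iff_of_pos hS]; constructor <;> linarith
      · rw [Int.ediv_eq_iff_of_pos hS]; constructor <;> linarith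
    rw [e3]; ring
  have h2 : ∑ b ∈ range p, fl (p * S) (b * S + u b - (k * S + x)) (q * S + r) =
      q + (if x ≤ r then 1 + (if S + x - u (((k : ℤ) - q - 1) % p).toNat ≤ r then 1 else 0)
      else (if x - u (((k : ℤ) - q) % p).toNat ≤ r then 1 else 0)) - (if x ≤ u k then 1 else 0) := by
    have e1 : ∀ b ∈ range p, fl (p * S) (b * S + u b - (k * S + x)) (q * S + r) =
        ((-(k * S + x) + (q * S + r)) + b * S + u b) / (p * S) -
          ((-(k * S + x)) + b * S + u b) / (p * S) := by
      intro b _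
      unfold fl
      congr 2
      · ring
      · ring
    rw [Finset.sum_congr rfl e1, Finset.sum_sub_distrib, hermu p u S _ hp hS P.bnd,
      hermu p u S _ hp hS P.bnd, e2]
    have e3 : (-((k : ℤ) * S + x)) % S = S - x := by
      have := Int.emod_add_mul_ediv (-((k : ℤ) * S + x)) S
      rw [e2] at this; linarith
    have e4 : (-1 - (-(k : ℤ) - 1)) % p = k := by
      rw [show (-1 - (-(k : ℤ) - 1)) = k by ring]
      exact Int.emod_eq_of_lt (by omega) (by omega)
    rw [e3, e4, Int.toNat_natCast]
    have e5 : (S ≤ S - x + u k) ↔ (x ≤ u k) := by constructor <;> intro h <;> linarith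
    simp only [e5]
    by_cases hxr : x ≤ r
    · rw [if_pos hxr]
      have f1 : (-((k : ℤ) * S + x) + (q * S + r)) / S = q - k := by
        rw [Int.ediv_eq_iff_of_pos hS]; constructor <;> linarith
      have f2 : (-((k : ℤ) * S + x) + (q * S + r)) % S = r - x := by
        have := Int.emod_add_mul_ediv (-((k : ℤ) * S + x) + (q * S + r)) S
        rw [f1] at this; linarith
      rw [f1, f2, show (-1 - (q - (k : ℤ))) = k - q - 1 by ring]
      have f3 : (S ≤ r - x + u (((k : ℤ) - q - 1) % p).toNat) ↔
          (S + x - u (((k : ℤ) - q - 1) % p).toNat ≤ r) := by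
        constructor <;> intro h <;> linarith
      simp only [f3]
      ring
    · rw [if_neg hxr]
      have f1 : (-((k : ℤ) * S + x) + (q * S + r)) / S = q - k - 1 := by
        rw [Int.ediv_eq_iff_of_pos hS]; constructor <;> linarith
      have f2 : (-((k : ℤ) * S + x) + (q * S + r)) % S = S + r - x := by
        have := Int.emod_add_mul_ediv (-((k : ℤ) * S + x) + (q * S + r)) S
        rw [f1] at this; linarith
      rw [f1, f2, show (-1 - (q - (k : ℤ) - 1)) = k - q by ring]
      have f3 : (S ≤ S + r - x + u (((k : ℤ) - q) % p).toNat) ↔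
          (x - u (((k : ℤ) - q) % p).toNat ≤ r) := by
        constructor <;> intro h <;> linarith
      simp only [f3]
      ring
  rw [h1, h2]
  split_ifs <;> omega

/-- values of `u` at any residue -/
theorem u_idx (hp : 1 ≤ p) (P : Par p u v c S) (m : ℤ) :
    0 < u (m % p).toNat ∧ 2 * u (m % p).toNat < v := by
  have hp' : (0 : ℤ) < p := by omega
  have h0 : 0 ≤ m % (p : ℤ) := Int.emod_nonneg _ hp'.ne'
  have h1 : m % (p : ℤ) < p := Int.emod_lt_of_pos _ hp'
  exact ⟨P.pos _ (by omega), P.big _ (by omega)⟩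

/-- the sum `W` of the long-lived tokens is at most one (all homes) -/
theorem W_le_one (hp : 1 ≤ p) (P : Par p u v c S) (k : ℕ) (hk : k < p) (x T : ℤ) (hx : 0 < x)
    (hx2 : 2 * x < S) (hxu : x = u k ∨ v ≤ x) :
    ∑ b ∈ range p, fl (p * S) (b * S - (k * S + x)) (-T) +
      ∑ b ∈ range p, fl (p * S) (b * S + u b - (k * S + x)) T ≤ 1 := by
  have hS := P.S_pos hp
  have h0 := Int.emod_nonneg T hS.ne'
  have h1 := Int.emod_lt_of_pos T hS
  have h2 := Int.emod_add_mul_ediv T S
  have hW := W_fl hp P k hk x (T / S) (T % S) hx hx2 h0 h1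
  rw [show T / S * S + T % S = T by linarith] at hW
  rw [hW]
  have hi1 := u_idx hp P ((k : ℤ) - T / S - 1)
  have hi2 := u_idx hp P ((k : ℤ) - T / S)
  have hk1 := P.pos k hk
  have hk2 := P.big k hk
  rcases hxu with hxu | hxu
  · rw [if_pos (show x ≤ u k from hxu.le)]
    split_ifs <;> omega
  · rw [if_neg (show ¬ x ≤ u k by omega)]
    split_ifs <;> omega

theorem b1_aux (hp : 1 ≤ p) (he : e ≤ 1) (P : Par p u v c S) (k : ℕ) (hk : k < p) (x : ℤ)
    (hx : x = u k ∨ x = v) (T : ℤ) (hT : 0 < T) (hTs : T ≤ Tst p e u c S) :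
    flux fl p e u v c S (k * S + x) T T T ≤ 2 * p + e := by
  have hS := P.S_pos hp
  obtain ⟨hC, hSC⟩ := C_pos' hp P
  have hu := P.pos k hk
  have hb := P.big k hk
  have hu0 := P.pos 0 (by omega)
  have hb0 := P.big 0 (by omega)
  have hv := P.v_pos hp
  have hr := P.room
  have hvc := P.vc
  have hcv := P.cv
  have hQ := Qn_eq hp he
  have hx0 : 0 < x ∧ x ≤ v := by rcases hx with h | h <;> omega
  have hW := W_le_one hp P k hk x T hx0.1 (by omega) (by rcases hx with h | h <;> omega)
  have hkS : (k : ℤ) * S ≤ (p : ℤ) * S - S := by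
    have : (k : ℤ) + 1 ≤ p := by omega
    nlinarith
  have hkS0 : 0 ≤ (k : ℤ) * S := by positivity
  rw [flux_same]
  unfold Tst at hTs
  -- a token at offset `y` in block 0, `x ≤ y ≤ c` if k = 0
  have key : ∀ y : ℤ, v ≤ y → y ≤ c → fl (p * S) (y - (k * S + x)) T ≤ Qn p e := by
    intro y hy1 hy2
    unfold fl
    by_cases hk0 : k = 0
    · subst hk0
      push_cast
      have g1 : 0 ≤ (y - (0 * S + x)) / ((p : ℤ) * S) := Int.ediv_nonneg (by omega) hC.le
      have g2 : (y - (0 * S + x) + T) / ((p : ℤ) * S) < Qn p e + 1 := by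
        rw [Int.ediv_lt_iff_lt_mul hC]; linarith
      omega
    · have hk1 : S ≤ (k : ℤ) * S := by
        have : (1 : ℤ) ≤ k := by omega
        nlinarith
      have g1 : -1 ≤ (y - (k * S + x)) / ((p : ℤ) * S) := by
        rw [Int.le_ediv_iff_mul_le hC]; linarith
      have g2 : (y - (k * S + x) + T) / ((p : ℤ) * S) < Qn p e := by
        rw [Int.ediv_lt_iff_lt_mul hC]; linarith
      omega
  have h1 := key v le_rfl hvc.le
  have h2 := key c hvc.le le_rfl
  have : e = 0 ∨ e = 1 := by omega
  rcases this with rfl | rfl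
  · push_cast at *
    omega
  · push_cast at *
    omega

theorem b1U : S_B1U := by
  intro p e u v c S hp he P k T hk hT hTs
  exact b1_aux hp he P k hk (u k) (Or.inl rfl) T hT hTs

theorem b1V : S_B1V := by
  intro p e u v c S hp he P k T hk hT hTs
  exact b1_aux hp he P k hk v (Or.inr rfl) T hT hTs

theorem b1C : S_B1C := by
  intro p e u v c S hp he P i T hi hT hTs
  have hS := P.S_pos hp
  obtain ⟨hC, hSC⟩ := C_pos' hp P
  have hu0 := P.pos 0 (by omega)
  have hb0 := P.big 0 (by omega)
  have hv := P.v_pos hp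
  have hr := P.room
  have hvc := P.vc
  have hcv := P.cv
  have hQ := Qn_eq hp he
  have hi1 : i = 0 ∨ i = 1 := by omega
  obtain ⟨x, hx⟩ : ∃ x, x = c + (i : ℤ) * (v - u 0) := ⟨_, rfl⟩
  rw [← hx]
  have hx1 : c ≤ x ∧ x ≤ c + v - u 0 := by
    rcases hi1 with rfl | rfl
    · rw [hx]; push_cast; constructor <;> omega
    · rw [hx]; push_cast; constructor <;> omega
  have hW := W_le_one hp P 0 (by omega) x T (by omega) (by omega) (Or.inr (by omega))
  simp only [Nat.cast_zero, zero_mul, zero_add] at hW
  rw [flux_same]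
  unfold Tst at hTs
  have hneg : -1 ≤ (v - x) / ((p : ℤ) * S) := by
    rw [Int.le_ediv_iff_mul_le hC]; linarith
  have hT' : T < Qn p e * (p * S) ∨ Qn p e * (p * S) ≤ T := lt_or_ge _ _
  rcases hT' with hlt | hge
  · -- before the last turn
    have h1 : fl (p * S) (v - x) T ≤ Qn p e := by
      unfold fl
      have g2 : (v - x + T) / ((p : ℤ) * S) < Qn p e := by
        rw [Int.ediv_lt_iff_lt_mul hC]; linarith
      omega
    have h2 : fl (p * S) (c - x) T ≤ Qn p e := by
      unfold fl
      have g1 : -1 ≤ (c - x) / ((p : ℤ) * S) := by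
        rw [Int.le_ediv_iff_mul_le hC]; linarith
      have g2 : (c - x + T) / ((p : ℤ) * S) < Qn p e := by
        rw [Int.ediv_lt_iff_lt_mul hC]; linarith
      omega
    have : e = 0 ∨ e = 1 := by omega
    rcases this with rfl | rfl
    · push_cast at *
      omega
    · push_cast at *
      omega
  · -- in the last turn
    obtain ⟨r, hr'⟩ : ∃ r, r = T - Qn p e * (p * S) := ⟨_, rfl⟩
    have hr0 : 0 ≤ r := by omega
    have hr1 : r < c - u 0 := by omega
    have hTr : T = (Qn p e * p) * S + r := by rw [hr']; ring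
    have hW' := W_fl hp P 0 (by omega) x (Qn p e * p) r (by omega) (by omega) hr0 (by omega)
    rw [← hTr, if_neg (show ¬ x ≤ r by omega), if_neg (show ¬ x ≤ u 0 by omega)] at hW'
    have hidx : ((((0 : ℕ) : ℤ) - Qn p e * p) % p).toNat = 0 := by
      have : (((0 : ℕ) : ℤ) - Qn p e * p) = 0 + (-Qn p e) * p := by push_cast; ring
      rw [this, Int.add_mul_emod_self_right]; simp
    rw [hidx, if_neg (show ¬ x - u 0 ≤ r by omega)] at hW'
    simp only [Nat.cast_zero, zero_mul, zero_add] at hW'
    rw [hW']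
    rcases hi1 with rfl | rfl
    · -- home C 0
      have hxc : x = c := by rw [hx]; simp
      have h1 : fl (p * S) (v - x) T ≤ Qn p e + 1 := by
        unfold fl
        have g2 : (v - x + T) / ((p : ℤ) * S) < Qn p e + 1 := by
          rw [Int.ediv_lt_iff_lt_mul hC]; linarith
        omega
      have h2 : fl (p * S) (c - x) T ≤ Qn p e := by
        unfold fl
        rw [hxc, sub_self]
        have g2 : (0 + T) / ((p : ℤ) * S) < Qn p e + 1 := by
          rw [Int.ediv_lt_iff_lt_mul hC]; linarith
        simp only [Int.zero_ediv]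
        omega
      have : e = 0 ∨ e = 1 := by omega
      rcases this with rfl | rfl
      · push_cast at *
        omega
      · push_cast at *
        omega
    · -- home C 1
      have he1 : e = 1 := by omega
      subst he1
      have hxc : x = c + v - u 0 := by rw [hx]; push_cast; ring
      have h1 : fl (p * S) (v - x) T ≤ Qn p 1 := by
        unfold fl
        have g2 : (v - x + T) / ((p : ℤ) * S) < Qn p 1 := by
          rw [Int.ediv_lt_iff_lt_mul hC]; linarith
        omega
      have h2 : fl (p * S) (c - x) T ≤ Qn p 1 + 1 := by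
        unfold fl
        have g1 : -1 ≤ (c - x) / ((p : ℤ) * S) := by
          rw [Int.le_ediv_iff_mul_le hC]; linarith
        have g2 : (c - x + T) / ((p : ℤ) * S) < Qn p 1 + 1 := by
          rw [Int.ediv_lt_iff_lt_mul hC]; linarith
        omega
      push_cast at *
      omega

theorem gam : S_GAM := by
  intro p e u v c S hp he P i hi
  have hS := P.S_pos hp
  obtain ⟨hC, hSC⟩ := C_pos' hp P
  have hu0 := P.pos 0 (by omega)
  have hb0 := P.big 0 (by omega)
  have hv := P.v_pos hp
  have hr := P.room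
  have hvc := P.vc
  have hcv := P.cv
  have hQ := Qn_eq hp he
  have hi1 : i = 0 ∨ i = 1 := by omega
  obtain ⟨x, hx⟩ : ∃ x, x = c + (i : ℤ) * (v - u 0) := ⟨_, rfl⟩
  rw [← hx]
  obtain ⟨T, hT⟩ : ∃ T, T = Tst p e u c S := ⟨_, rfl⟩
  rw [← hT]
  have hx1 : c ≤ x ∧ x ≤ c + v - u 0 := by
    rcases hi1 with rfl | rfl
    · rw [hx]; push_cast; constructor <;> omega
    · rw [hx]; push_cast; constructor <;> omega
  rw [flux_same]
  have hT1 : T = Qn p e * (p * S) + (c - u 0) := by rw [hT]; unfold Tst; ring
  have hTr : T = (Qn p e * p) * S + (c - u 0) := by rw [hT1]; ring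
  have hW' := W_fl hp P 0 (by omega) x (Qn p e * p) (c - u 0) (by omega) (by omega) (by omega)
    (by omega)
  rw [← hTr, if_neg (show ¬ x ≤ c - u 0 by omega), if_neg (show ¬ x ≤ u 0 by omega)] at hW'
  have hidx : ((((0 : ℕ) : ℤ) - Qn p e * p) % p).toNat = 0 := by
    have : (((0 : ℕ) : ℤ) - Qn p e * p) = 0 + (-Qn p e) * p := by push_cast; ring
    rw [this, Int.add_mul_emod_self_right]; simp
  rw [hidx] at hW'
  simp only [Nat.cast_zero, zero_mul, zero_add, sub_zero] at hW'
  rw [hW']
  have hneg : (v - x) / ((p : ℤ) * S) = -1 := by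
    rw [Int.ediv_eq_iff_of_pos hC]; constructor <;> linarith
  rcases hi1 with rfl | rfl
  · have hxc : x = c := by rw [hx]; simp
    rw [if_pos (show x - u 0 ≤ c - u 0 by omega)]
    have h1 : fl (p * S) (v - x) T = Qn p e + 1 := by
      unfold fl
      rw [hneg]
      have g2 : (v - x + T) / ((p : ℤ) * S) = Qn p e := by
        rw [Int.ediv_eq_iff_of_pos hC]; constructor <;> linarith
      omega
    have h2 : fl (p * S) (c - x) T = Qn p e := by
      unfold fl
      rw [hxc, sub_self]
      have g2 : (0 + T) / ((p : ℤ) * S) = Qn p e := by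
        rw [Int.ediv_eq_iff_of_pos hC]; constructor <;> linarith
      simp only [Int.zero_ediv]
      omega
    rw [h1, h2]
    have : e = 0 ∨ e = 1 := by omega
    rcases this with rfl | rfl
    · push_cast at *
      omega
    · push_cast at *
      omega
  · have he1 : e = 1 := by omega
    subst he1
    have hxc : x = c + v - u 0 := by rw [hx]; push_cast; ring
    have h1 : fl (p * S) (v - x) T = Qn p 1 + 1 := by
      unfold fl
      rw [hneg]
      have g2 : (v - x + T) / ((p : ℤ) * S) = Qn p 1 := by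
        rw [Int.ediv_eq_iff_of_pos hC]; constructor <;> linarith
      omega
    have h2 : fl (p * S) (c - x) T = Qn p 1 + 1 := by
      unfold fl
      have g1 : (c - x) / ((p : ℤ) * S) = -1 := by
        rw [Int.ediv_eq_iff_of_pos hC]; constructor <;> linarith
      have g2 : (c - x + T) / ((p : ℤ) * S) = Qn p 1 := by
        rw [Int.ediv_eq_iff_of_pos hC]; constructor <;> linarith
      omega
    rw [h1, h2]
    push_cast at *
    split_ifs <;> omega

end Q32.RB
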