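import Mathlib
import Pool.Agent.Q32.RB.ArF

/-!
# Bouncing robots: arithmetic of the example, phase 2, floor version
-/

namespace Q32.RB

open Finset

variable {p e : ℕ} {u : ℕ → ℤ} {v c S : ℤ}

/-- the flux in phase 2, floor version -/
theorem flux2_fl (p e : ℕ) (u : ℕ → ℤ) (v c S h T T0 TV : ℤ) (hp : 1 ≤ p) :
    flux fl p e u v c S h T T0 TV = ∑ b ∈ range p, fl (p * S) (b * S - h) (-T) +
      ∑ b ∈ range p, fl (p * S) (b * S + u b - h) T - fl (p * S) (u 0 - h) T +
      fl (p * S) (u 0 - h) T0 + fl (p * S) (v - h) TV + e * fl (p * S) (c - h) T := by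
  unfold flux
  obtain ⟨n, rfl⟩ : ∃ n, p = n + 1 := ⟨p - 1, by omega⟩
  rw [Finset.sum_range_succ' (fun b : ℕ => fl (((n + 1 : ℕ) : ℤ) * S) (b * S + u b - h) T)]
  rw [Finset.sum_range_succ' (fun b : ℕ => fl (((n + 1 : ℕ) : ℤ) * S) (b * S + u b - h)
    (if b = 0 then T0 else T))]
  simp
  ring

/-- if `floor((y - h + T)/C) - floor((u 0 - h + T)/C)` is positive then `T` lies in the window -/
theorem window (hp : 1 ≤ p) (P : Par p u v c S) (y : ℤ) (hy : u 0 ≤ y) (hyc : y ≤ c) (g : ℤ) :
    (y + g) / ((p : ℤ) * S) - (u 0 + g) / (p * S) = 0 ∨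
    ((y + g) / ((p : ℤ) * S) - (u 0 + g) / (p * S) = 1 ∧
      ∃ m : ℤ, m * (p * S) - y ≤ g ∧ g < m * (p * S) - u 0) := by
  obtain ⟨hC, hSC⟩ := C_pos' hp P
  have hu0 := P.pos 0 (by omega)
  have hr := P.room
  have hv := P.v_pos hp
  obtain ⟨m, hm⟩ : ∃ m, m = (y + g) / ((p : ℤ) * S) := ⟨_, rfl⟩
  have h1 : m * (p * S) ≤ y + g := by rw [hm]; exact Int.ediv_mul_le _ hC.ne'
  have h2 : y + g < (m + 1) * (p * S) := by
    rw [hm]; exact Int.lt_ediv_add_one_mul_self _ hC
  rw [← hm]
  by_cases h3 : m * (p * S) ≤ u 0 + g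
  · left
    have : (u 0 + g) / ((p : ℤ) * S) = m := by
      rw [Int.ediv_eq_iff_of_pos hC]
      constructor
      · exact h3
      · linarith
    omega
  · right
    have : (u 0 + g) / ((p : ℤ) * S) = m - 1 := by
      rw [Int.ediv_eq_iff_of_pos hC]
      constructor
      · linarith
      · linarith
    exact ⟨by omega, m, by omega, by omega⟩

/-- in the window the sum `W` is nonpositive -/
theorem W_window (hp : 1 ≤ p) (P : Par p u v c S) (k : ℕ) (hk : k < p) (x y T : ℤ)
    (hx : x = u k ∨ x = v) (hy : v ≤ y) (hyc : y ≤ c) (m : ℤ)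
    (h1 : m * (p * S) - y ≤ T - (k * S + x)) (h2 : T - (k * S + x) < m * (p * S) - u 0) :
    ∑ b ∈ range p, fl (p * S) (b * S - (k * S + x)) (-T) +
      ∑ b ∈ range p, fl (p * S) (b * S + u b - (k * S + x)) T ≤ 0 := by
  have hS := P.S_pos hp
  have hu := P.pos k hk
  have hb := P.big k hk
  have hu0 := P.pos 0 (by omega)
  have hb0 := P.big 0 (by omega)
  have hv := P.v_pos hp
  have hr := P.room
  have hvc := P.vc
  have hcv := P.cv
  have huk : u 0 ≤ u k := by
    by_cases hk0 : k = 0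
    · rw [hk0]
    · have := P.zero k (by omega) hk; omega
  have hx0 : u k ≤ x ∧ 0 < x ∧ x ≤ v := by rcases hx with h | h <;> omega
  -- T = (k + m p) S + w with w in [x - y, x - u 0)
  obtain ⟨w, hw⟩ : ∃ w, w = T - (k + m * p) * S := ⟨_, rfl⟩
  have hw1 : x - y ≤ w := by rw [hw]; linarith
  have hw2 : w < x - u 0 := by rw [hw]; linarith
  by_cases hw0 : 0 ≤ w
  · have hTw : T = (k + m * p) * S + w := by rw [hw]; ring
    have hW := W_fl hp P k hk x (k + m * p) w (by omega) (by omega) hw0 (by omega)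
    rw [← hTw, if_neg (show ¬ x ≤ w by omega)] at hW
    have hidx : (((k : ℤ) - (k + m * p)) % p).toNat = 0 := by
      rw [show ((k : ℤ) - (k + m * p)) = 0 + (-m) * p by ring, Int.add_mul_emod_self_right]; simp
    rw [hidx, if_neg (show ¬ x - u 0 ≤ w by omega)] at hW
    rw [hW]
    split_ifs <;> omega
  · have hTw : T = (k + m * p - 1) * S + (S + w) := by rw [hw]; ring
    have hW := W_fl hp P k hk x (k + m * p - 1) (S + w) (by omega) (by omega) (by omega) (by omega)
    rw [← hTw, if_pos (show x ≤ S + w by omega)] at hW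
    have hidx : (((k : ℤ) - (k + m * p - 1) - 1) % p).toNat = 0 := by
      rw [show ((k : ℤ) - (k + m * p - 1) - 1) = 0 + (-m) * p by ring,
        Int.add_mul_emod_self_right]; simp
    rw [hidx] at hW
    rw [hW]
    rcases hx with rfl | rfl
    · rw [if_pos (le_refl (u k))]
      split_ifs <;> omega
    · rw [if_neg (show ¬ x ≤ u k by omega)]
      split_ifs <;> omega

theorem e2_aux (hp : 1 ≤ p) (he : e ≤ 1) (P : Par p u v c S) (k : ℕ) (hk : k < p) (x : ℤ)
    (hx : x = u k ∨ x = v) (T : ℤ) :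
    flux fl p e u v c S (k * S + x) T (Tst p e u c S) (if e = 0 then T else Tst p e u c S) ≤
      2 * p + e := by
  have hS := P.S_pos hp
  obtain ⟨hC, hSC⟩ := C_pos' hp P
  have hu := P.pos k hk
  have hb := P.big k hk
  have hu0 := P.pos 0 (by omega)
  have hb0 := P.big 0 (by omega)
  have hv := P.v_pos hp
  have hr := P.room
  have hvc := P.vc
  have hcv := P.cv
  have hQ := Qn_eq hp he
  have hx0 : 0 < x ∧ x ≤ v := by rcases hx with h | h <;> omega
  have hkS : (k : ℤ) * S ≤ (p : ℤ) * S - S := by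
    have : (k : ℤ) + 1 ≤ p := by omega
    nlinarith
  rw [flux2_fl _ _ _ _ _ _ _ _ _ _ hp]
  obtain ⟨h, hh⟩ : ∃ h, h = (k : ℤ) * S + x := ⟨_, rfl⟩
  have hW1 := W_le_one hp P k hk x T hx0.1 (by omega) (by rcases hx with h | h <;> omega)
  have hW2 := fun y hy hyc m h1 h2 => W_window hp P k hk x y T hx hy hyc m h1 h2
  rw [← hh] at hW1 hW2 ⊢
  obtain ⟨W, hWd⟩ : ∃ W, W = ∑ b ∈ range p, fl (p * S) (b * S - h) (-T) +
      ∑ b ∈ range p, fl (p * S) (b * S + u b - h) T := ⟨_, rfl⟩
  rw [← hWd] at hW1 hW2 ⊢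
  have e1 : fl (p * S) (u 0 - h) (Tst p e u c S) = (c - h) / (p * S) + Qn p e - (u 0 - h) / (p * S) := by
    unfold fl Tst
    have : u 0 - h + (Qn p e * (p * S) + c - u 0) = (c - h) + Qn p e * (p * S) := by ring
    rw [this, Int.add_mul_ediv_right _ _ hC.ne']
  have e2 : fl (p * S) (u 0 - h) T = (u 0 + (T - h)) / (p * S) - (u 0 - h) / (p * S) := by
    unfold fl
    rw [show u 0 - h + T = u 0 + (T - h) by ring]
  have e3 : fl (p * S) (v - h) T = (v + (T - h)) / (p * S) - (v - h) / (p * S) := by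
    unfold fl
    rw [show v - h + T = v + (T - h) by ring]
  have e4 : fl (p * S) (c - h) T = (c + (T - h)) / (p * S) - (c - h) / (p * S) := by
    unfold fl
    rw [show c - h + T = c + (T - h) by ring]
  have e5 : fl (p * S) (v - h) (Tst p e u c S) =
      (v + c - u 0 - h) / (p * S) + Qn p e - (v - h) / (p * S) := by
    unfold fl Tst
    have : v - h + (Qn p e * (p * S) + c - u 0) = (v + c - u 0 - h) + Qn p e * (p * S) := by ring
    rw [this, Int.add_mul_ediv_right _ _ hC.ne']
  -- the quotients of `v - h`, `c - h`, `v + c - u 0 - h`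
  have key : ∀ y : ℤ, v ≤ y → y < S → (y - h) / ((p : ℤ) * S) = if k = 0 then 0 else -1 := by
    intro y hy1 hy2
    split_ifs with hk0
    · subst hk0
      rw [Int.ediv_eq_iff_of_pos hC]
      push_cast at hh
      constructor <;> linarith
    · have hk1 : S ≤ (k : ℤ) * S := by
        have : (1 : ℤ) ≤ k := by omega
        nlinarith
      rw [Int.ediv_eq_iff_of_pos hC]
      constructor <;> linarith
  have k1 := key v le_rfl (by omega)
  have k2 := key c hvc.le (by omega)
  have k3 := key (v + c - u 0) (by omega) (by omega)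
  have hee : e = 0 ∨ e = 1 := by omega
  rcases hee with rfl | rfl
  · simp only [if_true]
    rw [e1, e2, e3, k1, k2]
    rcases window hp P v (by omega) hvc.le (T - h) with hw | ⟨hw, m, m1, m2⟩
    · push_cast at *
      omega
    · have := hW2 v le_rfl hvc.le m m1 m2
      push_cast at *
      omega
  · simp only [one_ne_zero, if_false]
    rw [e1, e2, e4, e5, k1, k2, k3]
    rcases window hp P c (by omega) le_rfl (T - h) with hw | ⟨hw, m, m1, m2⟩
    · push_cast at *
      omega
    · have := hW2 c hvc.le le_rfl m m1 m2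
      push_cast at *
      omega

theorem e2U : S_E2U := by
  intro p e u v c S hp he P k T hk _
  exact e2_aux hp he P k hk (u k) (Or.inl rfl) T

theorem e2V : S_E2V := by
  intro p e u v c S hp he P k T hk _
  exact e2_aux hp he P k hk v (Or.inr rfl) T

end Q32.RB
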