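import Mathlib
import Pool.Agent.Q32.RB.Stm

/-!
# Bouncing robots: real induction and local structure
-/

namespace Q32.RB

open Finset

theorem real : S_REAL := by
  intro P h0 hr hl
  by_contra hcon
  push Not at hcon
  obtain ⟨t1, ht1, hP1⟩ := hcon
  let F : Set ℝ := {t | 0 ≤ t ∧ ¬ P t}
  have hF : F.Nonempty := ⟨t1, ht1, hP1⟩
  have hB : BddBelow F := ⟨0, fun t ht => ht.1⟩
  set t0 := sInf F with ht0
  have h1 : 0 ≤ t0 := le_csInf hF (fun t ht => ht.1)
  have h2 : ∀ s, 0 ≤ s → s < t0 → P s := by
    intro s hs hst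
    by_contra hn
    have : t0 ≤ s := csInf_le hB ⟨hs, hn⟩
    linarith
  have h3 : P t0 := by
    rcases h1.lt_or_eq with h | h
    · exact hl t0 h h2
    · rw [← h]; exact h0
  obtain ⟨ε, hε, h4⟩ := hr t0 h1 h3
  obtain ⟨t, ht, htl⟩ := exists_lt_of_csInf_lt hF (show sInf F < t0 + ε by linarith)
  rcases lt_trichotomy t t0 with h | h | h
  · exact ht.2 (h2 t ht.1 h)
  · rw [h] at ht; exact ht.2 h3
  · exact ht.2 (h4 t h htl)

/-- common lower bound of finitely many positive numbers -/
theorem exists_eps {ι : Type} [Fintype ι] (P : ι → ℝ → Prop)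
    (h : ∀ i, ∃ ε > 0, P i ε) (hm : ∀ i ε ε', P i ε → 0 < ε' → ε' ≤ ε → P i ε') :
    ∃ ε > 0, ∀ i, P i ε := by
  classical
  choose f hf hP using h
  rcases isEmpty_or_nonempty ι with hι | hι
  · exact ⟨1, one_pos, fun i => (hι.false i).elim⟩
  · obtain ⟨i0, -, hi0⟩ := Finset.exists_min_image (univ : Finset ι) f univ_nonempty
    exact ⟨f i0, hf i0, fun i => hm i _ _ (hP i) (hf i0) (hi0 i (mem_univ i))⟩

/-- two affine functions which agree on an interval have the same slope -/
theorem slope_eq {f : ℝ → ℝ} {A B α β s1 s2 c1 c2 : ℝ} (hs : s1 < s2)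
    (h1 : ∀ s, s1 ≤ s → s ≤ s2 → f s = A + α * (s - c1))
    (h2 : ∀ s, s1 ≤ s → s ≤ s2 → f s = B + β * (s - c2)) : α = β := by
  have e1 := h1 s1 le_rfl hs.le
  have e2 := h1 s2 hs.le le_rfl
  have e3 := h2 s1 le_rfl hs.le
  have e4 := h2 s2 hs.le le_rfl
  have : (α - β) * (s2 - s1) = 0 := by
    have : f s2 - f s1 = α * (s2 - s1) := by rw [e1, e2]; ring
    have : f s2 - f s1 = β * (s2 - s1) := by rw [e3, e4]; ring
    linarith
  rcases mul_eq_zero.mp this with h | h
  · linarith
  · linarith

theorem alive_mono {ι : Type} {L : ℝ} {M : Motion ι L} {i : ι} {s t : ℝ} (h : M.Alive i t)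
    (hst : s ≤ t) : M.Alive i s := fun r hr hrs => h r hr (hrs.trans hst)

/-- a real number not in the lattice has a neighbourhood without lattice points -/
theorem lattice_nbhd {L y : ℝ} (hL : 0 < L) (hy : ∀ z : ℤ, y ≠ z * L) :
    ∃ δ > 0, ∀ y', |y' - y| < δ → ∀ z : ℤ, y' ≠ z * L := by
  set q := y / L with hq
  have hqz : (⌊q⌋ : ℝ) < q := by
    rcases (Int.floor_le q).lt_or_eq with h | h
    · exact h
    · exfalso
      apply hy ⌊q⌋
      rw [h, hq]; field_simp
  have hq1 : q < ⌊q⌋ + 1 := Int.lt_floor_add_one q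
  have hyq : y = q * L := by rw [hq]; field_simp
  refine ⟨min (y - ⌊q⌋ * L) ((⌊q⌋ + 1) * L - y), lt_min (by rw [hyq]; nlinarith)
    (by rw [hyq]; nlinarith), fun y' hy' z hz => ?_⟩
  have h1 := lt_of_lt_of_le hy' (min_le_left _ _)
  have h2 := lt_of_lt_of_le hy' (min_le_right _ _)
  rw [abs_lt] at h1 h2
  have h3 : (⌊q⌋ : ℝ) * L < z * L := by linarith
  have h4 : (z : ℝ) * L < (⌊q⌋ + 1) * L := by linarith
  have h5 : (⌊q⌋ : ℝ) < z := lt_of_mul_lt_mul_right h3 hL.le
  have h6 : (z : ℝ) < ⌊q⌋ + 1 := lt_of_mul_lt_mul_right h4 hL.le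
  have h7 : ⌊q⌋ < z := by exact_mod_cast h5
  have h8 : z < ⌊q⌋ + 1 := by exact_mod_cast h6
  omega

theorem right : S_RIGHT := by
  intro ι _ L M hL t ht
  -- position and velocity
  have key : ∀ i, ∃ ε > 0, ∀ s, t < s → s < t + ε →
      M.x i s = M.x i t + M.v i t * (s - t) ∧ M.v i s = M.v i t ∧ M.w i s = M.v i t := by
    intro i
    obtain ⟨ε, hε, h⟩ := M.right i t ht
    refine ⟨ε, hε, fun s h1 h2 => ⟨h s h1.le h2.le, ?_, ?_⟩⟩
    · obtain ⟨ε', hε', h'⟩ := M.right i s (by linarith)
      set r := min (s + ε') (t + ε) with hr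
      have hrs : s < r := lt_min (by linarith) h2
      exact slope_eq (f := M.x i) hrs (fun r' h3 h4 => h' r' h3 (h4.trans (min_le_left _ _)))
        (fun r' h3 h4 => h r' (by linarith) (h4.trans (min_le_right _ _)))
    · obtain ⟨ε', hε', h'⟩ := M.left i s (by linarith)
      set r := max (s - ε') t with hr
      have hrs : r < s := max_lt (by linarith) h1
      exact slope_eq (f := M.x i) hrs (fun r' h3 h4 => h' r' ((le_max_left _ _).trans h3) h4)
        (fun r' h3 h4 => h r' ((le_max_right _ _).trans h3) (by linarith))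
  -- no return
  have key2 : ∀ i, ∃ ε > 0, ∀ s, t < s → s < t + ε → (M.Alive i s ↔ M.Alive i t) := by
    intro i
    by_cases hA : M.Alive i t
    · obtain ⟨ε, hε, h⟩ := key i
      rcases ht.lt_or_eq with ht0 | ht0
      · have h1 : ∀ z : ℤ, M.x i t - M.h i ≠ z * L := by
          intro z hz
          exact hA t ht0 le_rfl ⟨z, by linarith⟩
        obtain ⟨δ, hδ, h2⟩ := lattice_nbhd hL h1
        refine ⟨min ε (δ / (|M.v i t| + 1)), lt_min hε (by positivity), fun s h3 h4 => ?_⟩
        refine ⟨fun h => alive_mono h h3.le, fun _ r hr hrs => ?_⟩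
        rcases le_or_gt r t with hrt | hrt
        · exact hA r hr hrt
        · rintro ⟨z, hz⟩
          have h5 : r < t + ε := by
            have := min_le_left ε (δ / (|M.v i t| + 1)); linarith
          have h6 : r - t < δ / (|M.v i t| + 1) := by
            have := min_le_right ε (δ / (|M.v i t| + 1)); linarith
          have h7 := (h r hrt h5).1
          apply h2 (M.x i r - M.h i) _ z (by linarith)
          rw [h7]
          have : M.x i t + M.v i t * (r - t) - M.h i - (M.x i t - M.h i) =
            M.v i t * (r - t) := by ring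
          rw [this, abs_mul, abs_of_pos (show 0 < r - t by linarith)]
          have hv : 0 < |M.v i t| + 1 := by positivity
          rw [lt_div_iff₀ hv] at h6
          nlinarith [abs_nonneg (M.v i t)]
      · refine ⟨min ε L, lt_min hε hL, fun s h3 h4 => ?_⟩
        refine ⟨fun h => alive_mono h h3.le, fun _ r hr hrs => ?_⟩
        rintro ⟨z, hz⟩
        have h5 : r < t + ε := by
          have := min_le_left ε L; linarith
        have h6 : r < L := by
          have := min_le_right ε L; linarith
        have h7 := (h r (by linarith) h5).1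
        rw [← ht0, M.start, M.init] at h7
        rw [h7] at hz
        have h8 : M.d i * r = z * L := by linarith
        have hz1 : ∀ y : ℤ, (r : ℝ) ≠ y * L := by
          intro y hy
          have e1 : (0 : ℝ) < y * L := by rw [← hy]; exact hr
          have e2 : (y : ℝ) * L < 1 * L := by rw [← hy, one_mul]; exact h6
          have e3 : (0 : ℝ) < y := by
            by_contra hn
            push Not at hn
            nlinarith
          have e4 : (y : ℝ) < 1 := lt_of_mul_lt_mul_right e2 hL.le
          have e5 : 0 < y := by exact_mod_cast e3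
          have e6 : y < 1 := by exact_mod_cast e4
          omega
        rcases M.dir i with hd | hd
        · rw [hd, one_mul] at h8
          exact hz1 z h8
        · rw [hd] at h8
          apply hz1 (-z)
          push_cast; linarith
    · refine ⟨1, one_pos, fun s h3 _ => ?_⟩
      exact ⟨fun h => absurd (alive_mono h h3.le) hA, fun h => absurd h hA⟩
  obtain ⟨ε, hε, h⟩ := exists_eps (fun i ε => ∀ s, t < s → s < t + ε →
      M.x i s = M.x i t + M.v i t * (s - t) ∧ M.v i s = M.v i t ∧ M.w i s = M.v i t ∧
      (M.Alive i s ↔ M.Alive i t))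
    (by
      intro i
      obtain ⟨ε1, h1, k1⟩ := key i
      obtain ⟨ε2, h2, k2⟩ := key2 i
      refine ⟨min ε1 ε2, lt_min h1 h2, fun s h3 h4 => ?_⟩
      have e1 : s < t + ε1 := by have := min_le_left ε1 ε2; linarith
      have e2 : s < t + ε2 := by have := min_le_right ε1 ε2; linarith
      obtain ⟨a1, a2, a3⟩ := k1 s h3 e1
      exact ⟨a1, a2, a3, k2 s h3 e2⟩)
    (fun i ε ε' h _ hle s h1 h2 => h s h1 (by linarith))
  exact ⟨ε, hε, fun s h1 h2 i => h i s h1 h2⟩

theorem left : S_LEFT := by
  intro ι _ L M hL t ht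
  obtain ⟨ε, hε, h⟩ := exists_eps (fun i ε => ∀ s, t - ε < s → s < t → 0 ≤ s →
      M.x i s = M.x i t + M.w i t * (s - t) ∧ M.v i s = M.w i t ∧ M.w i s = M.w i t ∧
      (M.Alive i s ↔ M.AliveB i t))
    (by
      intro i
      obtain ⟨ε, hε, h⟩ := M.left i t ht
      have key : ∀ s, t - ε < s → s < t → 0 ≤ s →
          M.x i s = M.x i t + M.w i t * (s - t) ∧ M.v i s = M.w i t ∧
          (0 < s → M.w i s = M.w i t) := by
        intro s h1 h2 h0
        refine ⟨h s h1.le h2.le, ?_, fun h0' => ?_⟩
        · obtain ⟨ε', hε', h'⟩ := M.right i s h0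
          set r := min (s + ε') t with hr
          have hrs : s < r := lt_min (by linarith) h2
          exact slope_eq (f := M.x i) hrs (fun r' h3 h4 => h' r' h3 (h4.trans (min_le_left _ _)))
            (fun r' h3 h4 => h r' (by linarith) (h4.trans (min_le_right _ _)))
        · obtain ⟨ε', hε', h'⟩ := M.left i s h0'
          set r := max (s - ε') (t - ε) with hr
          have hrs : r < s := max_lt (by linarith) h1
          exact slope_eq (f := M.x i) hrs (fun r' h3 h4 => h' r' ((le_max_left _ _).trans h3) h4)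
            (fun r' h3 h4 => h r' ((le_max_right _ _).trans h3) (by linarith))
      by_cases hB : M.AliveB i t
      · refine ⟨min ε t, lt_min hε ht, fun s h1 h2 h0 => ?_⟩
        have e1 : t - ε < s := by have := min_le_left ε t; linarith
        have e2 : 0 < s := by have := min_le_right ε t; linarith
        obtain ⟨a1, a2, a3⟩ := key s e1 h2 h0
        exact ⟨a1, a2, a3 e2, ⟨fun _ => hB, fun _ r hr hrs => hB r hr (by linarith)⟩⟩
      · unfold Motion.AliveB at hB
        push Not at hB
        obtain ⟨s0, hs0, hs0t, hh⟩ := hB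
        refine ⟨min ε (t - s0), lt_min hε (by linarith), fun s h1 h2 h0 => ?_⟩
        have e1 : t - ε < s := by have := min_le_left ε (t - s0); linarith
        have e2 : s0 < s := by have := min_le_right ε (t - s0); linarith
        obtain ⟨a1, a2, a3⟩ := key s e1 h2 h0
        refine ⟨a1, a2, a3 (by linarith), ⟨fun hA => absurd hh (hA s0 hs0 e2.le), fun hA => ?_⟩⟩
        exact absurd hh (hA s0 hs0 hs0t))
    (fun i ε ε' h _ hle s h1 h2 h0 => h s (by linarith) h2 h0)
  refine ⟨min ε t, lt_min hε ht, min_le_right _ _, fun s h1 h2 i => ?_⟩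
  have e1 : t - ε < s := by have := min_le_left ε t; linarith
  have e2 : 0 < s := by have := min_le_right ε t; linarith
  exact h i s e1 h2 e2.le

theorem death : S_DEATH := by
  intro ι _ L M hL
  constructor
  · intro i t ht
    have := real (fun t => ¬ M.Alive i t → ∃ T, T ≤ t ∧ M.DeathAt i T)
      (fun h => absurd (fun s hs hst => absurd hs (not_lt.mpr hst)) h)
      (by
        intro t ht hP
        obtain ⟨ε, hε, h⟩ := right ι L M hL t ht
        refine ⟨ε, hε, fun s h1 h2 hA => ?_⟩
        rw [(h s h1 h2 i).2.2.2] at hA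
        obtain ⟨T, hT, hd⟩ := hP hA
        exact ⟨T, by linarith, hd⟩)
      (by
        intro t ht hP hA
        by_cases hB : M.AliveB i t
        · refine ⟨t, le_rfl, ht, ?_, hB⟩
          by_contra hn
          apply hA
          intro s hs hst
          rcases hst.lt_or_eq with h | h
          · exact hB s hs h
          · rw [h]; exact hn
        · unfold Motion.AliveB at hB
          push Not at hB
          obtain ⟨s, hs, hst, hh⟩ := hB
          obtain ⟨T, hT, hd⟩ := hP s hs.le hst (fun h => h s hs le_rfl hh)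
          exact ⟨T, by linarith, hd⟩)
    exact this t ht
  · intro i T hd s hs
    have hna : ∀ s, T ≤ s → ¬ M.Alive i s := fun s hs hA => hA T hd.1 hs hd.2.1
    refine ⟨?_, hna s hs⟩
    have h1 := real (fun r => M.x i (T + r) = M.x i T) (by simp)
      (by
        intro r hr hP
        obtain ⟨ε, hε, h⟩ := right ι L M hL (T + r) (by have := hd.1; linarith)
        refine ⟨ε, hε, fun s h1 h2 => ?_⟩
        rw [(h (T + s) (by linarith) (by linarith) i).1,
          M.rest i (T + r) (by have := hd.1; linarith) (hna _ (by linarith)), hP]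
        ring)
      (by
        intro r hr hP
        obtain ⟨ε, hε, hεt, h⟩ := left ι L M hL (T + r) (by have := hd.1; linarith)
        set q := max (r - ε / 2) (r / 2) with hq
        have hq1 : q < r := max_lt (by linarith) (by linarith)
        have hq0 : 0 < q := lt_of_lt_of_le (by linarith) (le_max_right _ _)
        have hq2 : r - ε < q := lt_of_lt_of_le (by linarith) (le_max_left _ _)
        obtain ⟨a1, a2, -, -⟩ := h (T + q) (by linarith) (by linarith) i
        rw [M.rest i (T + q) (by have := hd.1; linarith) (hna _ (by linarith))] at a2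
        rw [← a2, hP q hq0.le hq1] at a1
        linarith)
    have h2 := h1 (s - T) (by linarith)
    rwa [add_sub_cancel] at h2

end Q32.RB
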