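import Mathlib
import Pool.Agent.Q32.RB.Ex1

/-!
# Bouncing robots: the example, part 2 (deaths of the left-starters, ages of the tokens)
-/

namespace Q32.RB

open Finset

variable {p e : ℕ} {u : ℕ → ℤ} {v c S : ℤ}

/-- data of the example -/
structure ExData (p e : ℕ) (u : ℕ → ℤ) (v c S : ℤ) (M : Motion (Idx p e) (((p : ℤ) * S : ℤ) : ℝ)) :
    Prop where
  hp : 1 ≤ p
  he : e ≤ 1
  P : Par p u v c S
  hh : ∀ i, M.h i = (Hm u v c S i : ℝ)
  hd : ∀ i, M.d i = (Dm i : ℝ)

variable {M : Motion (Idx p e) (((p : ℤ) * S : ℤ) : ℝ)}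

theorem ExData.C_pos (X : ExData p e u v c S M) : 0 < (p : ℤ) * S := by
  have h1 := X.P.S_pos X.hp
  have h2 := X.hp
  have : (0 : ℤ) < p := by omega
  positivity

theorem ExData.L_pos (X : ExData p e u v c S M) : (0 : ℝ) < (((p : ℤ) * S : ℤ) : ℝ) := by
  exact_mod_cast X.C_pos

theorem ExData.S_le (X : ExData p e u v c S M) : S ≤ (p : ℤ) * S := by
  have h1 := X.P.S_pos X.hp
  have h2 := X.hp
  have : (1 : ℤ) ≤ p := by omega
  nlinarith

theorem ExData.d_one (X : ExData p e u v c S M) (i : Idx p e) : M.d i = 1 ↔ Dm i = 1 := by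
  rw [X.hd]; norm_cast

theorem ExData.d_neg (X : ExData p e u v c S M) (i : Idx p e) : M.d i = -1 ↔ Dm i = -1 := by
  rw [X.hd]
  constructor
  · intro h; exact_mod_cast h
  · intro h; rw [h]; norm_num

theorem Dm_neg_iff (i : Idx p e) : Dm i = -1 ↔ ∃ b : Fin p, i = Sum.inl (b, 0) := by
  constructor
  · intro h
    cases i with
    | inl q =>
      obtain ⟨b, j⟩ := q
      refine ⟨b, ?_⟩
      simp only [Dm] at h
      split_ifs at h with hj
      · rw [hj]
    | inr j => simp [Dm] at h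
  · rintro ⟨b, rfl⟩; simp [Dm]

theorem Dm_one_or (i : Idx p e) : Dm i = 1 ∨ Dm i = -1 := by
  cases i with
  | inl q =>
    obtain ⟨b, j⟩ := q
    simp only [Dm]
    split_ifs <;> simp
  | inr j => simp [Dm]

/-- the left-starters die early -/
theorem ndie (hND : S_NDIE) (X : ExData p e u v c S M) (k : Fin p) :
    M.DeathAt (Sum.inl (k, 0)) ((sd e u v c S k : ℤ) : ℝ) ∧
      M.x (Sum.inl (k, 0)) ((sd e u v c S k : ℤ) : ℝ) = M.h (Sum.inl (k, 0)) ∧
      ∀ t, ((sd e u v c S k : ℤ) : ℝ) ≤ t → ∀ σ z a, M.Tok t σ z a →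
        σ (Sum.inl (k, 0)) = tau e k ∧ a (Sum.inl (k, 0)) = ((sd e u v c S k : ℤ) : ℝ) := by
  have hS := X.P.S_pos X.hp
  have hsp := sd_pos X.P X.hp X.he k
  have hsl := sd_lt X.P X.hp X.he k
  have hT : Hm u v c S (tau e k) + sd e u v c S k =
      Hm u v c S (Sum.inl (k, (0 : Fin 3)) : Idx p e) + wd k * (p * S) := by
    have h1 := pr_wd k
    have h3 : Hm u v c S (Sum.inl (k, (0 : Fin 3)) : Idx p e) = (k : ℕ) * S := by
      simp [Hm]
    rw [h3, Hm_eq, blk_tau]
    unfold sd
    have : (((pr k : ℕ) : ℤ) + 1) * S = ((k : ℕ) + wd k * p) * S := by rw [h1]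
    linear_combination this
  apply hND (Idx p e) _ M X.L_pos (Sum.inl (k, 0)) (tau e k) ((sd e u v c S k : ℤ) : ℝ) (wd k)
  · rw [X.d_neg]; simp [Dm]
  · rw [X.d_one]; exact Dm_tau k
  · exact_mod_cast hsp
  · have := X.S_le
    have h : sd e u v c S k < (p : ℤ) * S := by omega
    exact_mod_cast h
  · rw [X.hh, X.hh]
    exact_mod_cast hT
  · rintro l y ⟨h1, h2⟩
    rw [X.hh, X.hh] at h1 h2
    have h1' : Hm u v c S (tau e k) < Hm u v c S l + y * (p * S) := by exact_mod_cast h1
    have h2' : Hm u v c S l + y * (p * S) < Hm u v c S (tau e k) + sd e u v c S k := by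
      exact_mod_cast h2
    have hl0 := off_nonneg X.P X.hp X.he l
    have hl1 := off_lt X.P X.hp X.he l
    have ht0 := off_nonneg X.P X.hp X.he (tau e k)
    have ht1 := off_lt X.P X.hp X.he (tau e k)
    rw [Hm_eq, Hm_eq, blk_tau] at h1' h2'
    unfold sd at h2'
    have hb : ((pr k : ℕ) : ℤ) = blk l + y * p := by
      apply block_of_mem (S := S) (x := off u v c l) hl0 (by omega)
      · nlinarith
      · nlinarith
    have hm := mod_unique (p := (p : ℤ)) (blk_nonneg l) (by positivity) (blk_lt X.hp l)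
      (by have := (pr k).2; exact_mod_cast this) hb.symm
    obtain ⟨hy, hbl⟩ := hm
    subst hy
    have h5 := off_le_last X.P X.hp X.he l
    have h6 := off_short (u := u) (v := v) (c := c) (tau e k) (tau_short k)
    rw [blk_tau] at h6
    rw [hbl] at h5 h1'
    omega
  · rintro l y hl ⟨h1, h2⟩
    rw [X.d_neg, Dm_neg_iff] at hl
    obtain ⟨b, rfl⟩ := hl
    rw [X.hh, X.hh] at h1 h2
    have h1' : Hm u v c S (Sum.inl (k, (0 : Fin 3)) : Idx p e) <
      Hm u v c S (Sum.inl (b, (0 : Fin 3)) : Idx p e) + y * (p * S) := by exact_mod_cast h1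
    have h2' : Hm u v c S (Sum.inl (b, (0 : Fin 3)) : Idx p e) + y * (p * S) ≤
      Hm u v c S (Sum.inl (k, (0 : Fin 3)) : Idx p e) + sd e u v c S k := by exact_mod_cast h2
    simp only [Hm, if_true, add_zero] at h1' h2'
    have h3 : ((k : ℕ) : ℤ) < (b : ℕ) + y * p := by
      by_contra hcon
      have : (((b : ℕ) : ℤ) + y * p) * S ≤ ((k : ℕ) : ℤ) * S :=
        mul_le_mul_of_nonneg_right (by omega) hS.le
      nlinarith
    have : (((k : ℕ) : ℤ) + 1) * S ≤ (((b : ℕ) : ℤ) + y * p) * S :=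
        mul_le_mul_of_nonneg_right (by omega) hS.le
    nlinarith

/-- the end of a token sum: short-lived tokens, floor version -/
theorem fl_short (X : ExData p e u v c S M) (k i : Idx p e) (hk : Short k) (hi : Dm i = 1)
    (A : ℤ) (hA : 0 < A) (hA' : A ≤ S - off u v c k) :
    fl (p * S) (Hm u v c S k - Hm u v c S i) A = 0 := by
  have hS := X.P.S_pos X.hp
  apply fl_zero X.C_pos hA.le
  rintro z ⟨h1, h2⟩
  have hi0 := off_pos X.P X.hp X.he i hi
  have hi1 := off_lt X.P X.hp X.he i
  have hk0 := off_nonneg X.P X.hp X.he k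
  rw [Hm_eq, Hm_eq] at h1 h2
  have hne : (blk i + z * p) * S + off u v c i ≠ (blk k + 1) * S + 0 := by
    intro h
    have := (block_unique hi0.le le_rfl (by omega) hS h).2
    omega
  have hle : (blk i + z * p) * S + off u v c i ≤ (blk k + 1) * S := by nlinarith
  have hlt : (blk i + z * p) * S + off u v c i < (blk k + 1) * S := by
    rw [add_zero] at hne
    exact lt_of_le_of_ne hle hne
  have hb : blk k = blk i + z * p := by
    apply block_of_mem (S := S) (x := off u v c i) hi0.le (by omega)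
    · nlinarith
    · exact hlt
  obtain ⟨hz, hbl⟩ := mod_unique (p := (p : ℤ)) (blk_nonneg i) (blk_nonneg k) (blk_lt X.hp i)
    (blk_lt X.hp k) hb.symm
  subst hz
  have h5 := off_le_last X.P X.hp X.he i
  have h6 := off_short (u := u) (v := v) (c := c) k hk
  rw [hbl] at h5 h1
  omega

/-- short-lived tokens, ceiling version -/
theorem cl_short (X : ExData p e u v c S M) (k i : Idx p e) (hk : Short k) (hi : Dm i = 1)
    (A : ℤ) (hA : 0 < A) (hA' : A ≤ S - off u v c k) :
    cl (p * S) (Hm u v c S k - Hm u v c S i) A = if k = i then 1 else 0 := by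
  have hS := X.P.S_pos X.hp
  have hi0 := off_pos X.P X.hp X.he i hi
  have hi1 := off_lt X.P X.hp X.he i
  have hk0 := off_nonneg X.P X.hp X.he k
  split_ifs with hki
  · subst hki
    rw [sub_self]
    apply cl_own X.C_pos hA
    have := X.S_le
    omega
  · apply cl_zero X.C_pos hA.le
    rintro z ⟨h1, h2⟩
    have hne : Hm u v c S k ≠ Hm u v c S i + z * (p * S) := by
      intro h
      apply M.homes k i hki z
      rw [X.hh, X.hh]
      exact_mod_cast h
    rw [Hm_eq, Hm_eq] at h1 h2 hne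
    have hb : blk k = blk i + z * p := by
      apply block_of_mem (S := S) (x := off u v c i) hi0.le (by omega)
      · nlinarith
      · nlinarith
    obtain ⟨hz, hbl⟩ := mod_unique (p := (p : ℤ)) (blk_nonneg i) (blk_nonneg k) (blk_lt X.hp i)
      (blk_lt X.hp k) hb.symm
    subst hz
    have h5 := off_le_last X.P X.hp X.he i
    have h6 := off_short (u := u) (v := v) (c := c) k hk
    rw [hbl] at h5 h1 hne
    apply hne
    omega

end Q32.RB
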