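import Mathlib
import Pool.Agent.Q32.RB.Ex2

/-!
# Bouncing robots: the example, part 3 (the two phases)
-/

namespace Q32.RB

open Finset

variable {p e : ℕ} {u : ℕ → ℤ} {v c S : ℤ} {M : Motion (Idx p e) (((p : ℤ) * S : ℤ) : ℝ)}

theorem sums_eq (X : ExData p e u v c S M) {σ : Equiv.Perm (Idx p e)} {a : Idx p e → ℝ}
    (A : Idx p e → ℤ) (hA : ∀ k, a (σ.symm k) = (A k : ℝ)) (T T0 TV : ℤ)
    (hN : ∀ b : Fin p, A (Sum.inl (b, 0)) = T)
    (hU : ∀ b : Fin p, A (Sum.inl (b, 1)) = if (b : ℕ) = 0 then T0 else T)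
    (hV : ∀ b : Fin p, (b : ℕ) = 0 → A (Sum.inl (b, 2)) = TV)
    (hC : ∀ j : Fin (e + 1), (j : ℕ) ≠ e → A (Sum.inr j) = T)
    (hs : ∀ k, Short k → 0 < A k ∧ A k ≤ S - off u v c k) (i : Idx p e) (hi : Dm i = 1) :
    ∑ k, (⌊(M.h k + M.d k * a (σ.symm k) - M.h i) / (((p : ℤ) * S : ℤ) : ℝ)⌋ -
        ⌊(M.h k - M.h i) / (((p : ℤ) * S : ℤ) : ℝ)⌋) =
      flux fl p e u v c S (Hm u v c S i) T T0 TV ∧
    ∑ k, (⌈(M.h k + M.d k * a (σ.symm k) - M.h i) / (((p : ℤ) * S : ℤ) : ℝ)⌉ -
        ⌈(M.h k - M.h i) / (((p : ℤ) * S : ℤ) : ℝ)⌉) =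
      flux cl p e u v c S (Hm u v c S i) T T0 TV + if Short i then 1 else 0 := by
  have hC0 := X.C_pos
  have e1 : ∀ k, M.h k + M.d k * a (σ.symm k) - M.h i =
      ((Hm u v c S k - Hm u v c S i : ℤ) : ℝ) + ((Dm k * A k : ℤ) : ℝ) := by
    intro k
    rw [hA, X.hh, X.hh, X.hd]; push_cast; ring
  have e2 : ∀ k, M.h k - M.h i = ((Hm u v c S k - Hm u v c S i : ℤ) : ℝ) := by
    intro k
    rw [X.hh, X.hh]; push_cast; ring
  constructor
  · have h1 : ∀ k, (⌊(M.h k + M.d k * a (σ.symm k) - M.h i) / (((p : ℤ) * S : ℤ) : ℝ)⌋ -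
        ⌊(M.h k - M.h i) / (((p : ℤ) * S : ℤ) : ℝ)⌋) =
        fl (p * S) (Hm u v c S k - Hm u v c S i) (Dm k * A k) := by
      intro k
      rw [e1, e2, fl_cast _ _ _ hC0]
    rw [Finset.sum_congr rfl (fun k _ => h1 k)]
    rw [eval_sum X.hp X.he u v c S (Hm u v c S i) T T0 TV fl _ (fun _ => 0)]
    · simp
    · intro b
      simp [Hm, Dm, hN b]
    · intro b
      simp only [Hm, Dm, hU b]
      simp
    · intro b hb
      simp only [Hm, Dm, hV b hb]
      simp [hb]
    · intro j hj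
      have hj0 : (j : ℕ) = 0 := by have := j.2; have := X.he; omega
      simp only [Hm, Dm, hC j hj]
      simp [hj0]
    · intro k hk
      rw [Dm_short k hk, one_mul]
      exact fl_short X k i hk hi (A k) (hs k hk).1 (hs k hk).2
  · have h1 : ∀ k, (⌈(M.h k + M.d k * a (σ.symm k) - M.h i) / (((p : ℤ) * S : ℤ) : ℝ)⌉ -
        ⌈(M.h k - M.h i) / (((p : ℤ) * S : ℤ) : ℝ)⌉) =
        cl (p * S) (Hm u v c S k - Hm u v c S i) (Dm k * A k) := by
      intro k
      rw [e1, e2, cl_cast _ _ _ hC0]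
    rw [Finset.sum_congr rfl (fun k _ => h1 k)]
    rw [eval_sum X.hp X.he u v c S (Hm u v c S i) T T0 TV cl _ (fun k => if k = i then 1 else 0)]
    · congr 1
      rw [Finset.sum_ite_eq']
      simp
    · intro b
      simp [Hm, Dm, hN b]
    · intro b
      simp only [Hm, Dm, hU b]
      simp
    · intro b hb
      simp only [Hm, Dm, hV b hb]
      simp [hb]
    · intro j hj
      have hj0 : (j : ℕ) = 0 := by have := j.2; have := X.he; omega
      simp only [Hm, Dm, hC j hj]
      simp [hj0]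
    · intro k hk
      rw [Dm_short k hk, one_mul]
      exact cl_short X k i hk hi (A k) (hs k hk).1 (hs k hk).2

theorem card_right (hp : 1 ≤ p) : (univ.filter (fun l : Idx p e => Dm l = 1)).card = 2 * p + e + 1 := by
  have h : ((univ.filter (fun l : Idx p e => Dm l = 1)).card : ℤ) = 2 * p + e + 1 := by
    rw [Finset.card_filter]
    push_cast
    rw [sum_idx]
    simp [Dm]
    ring
  exact_mod_cast h

theorem aliveB_or_death (hD : S_DEATH) {ι : Type} [Fintype ι] {L : ℝ} (M : Motion ι L)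
    (hL : 0 < L) (l : ι) (t : ℝ) : M.AliveB l t ∨ ∃ T, T < t ∧ M.DeathAt l T := by
  by_cases h : M.AliveB l t
  · exact Or.inl h
  · right
    unfold Motion.AliveB at h
    push Not at h
    obtain ⟨s, hs, hst, hh⟩ := h
    obtain ⟨T, hT, hTd⟩ := (hD ι L M hL).1 l s hs.le (fun h => h s hs le_rfl hh)
    exact ⟨T, by linarith, hTd⟩

/-- the first death in a set of robots before the time `T1` -/
theorem first_death (hD : S_DEATH) {ι : Type} [Fintype ι] {L : ℝ} (M : Motion ι L)
    (hL : 0 < L) (B : Set ι) (P : ℝ → Prop)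
    (h : ∃ i ∈ B, ∃ T, M.DeathAt i T ∧ P T) (hP : ∀ T T', P T → T' < T → P T') :
    ∃ i ∈ B, ∃ T, M.DeathAt i T ∧ P T ∧ ∀ l ∈ B, M.AliveB l T := by
  classical
  obtain ⟨i0, hi0, T0, hT0, hP0⟩ := h
  let F : Finset ι := univ.filter (fun i => i ∈ B ∧ ∃ T, M.DeathAt i T)
  have hF : F.Nonempty := ⟨i0, by simp only [F, mem_filter, mem_univ, true_and]; exact ⟨hi0, T0, hT0⟩⟩
  let g : ι → ℝ := fun i => if h : ∃ T, M.DeathAt i T then h.choose else 0
  obtain ⟨i, hi, hmin⟩ := Finset.exists_min_image F g hF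
  have hi' : i ∈ B ∧ ∃ T, M.DeathAt i T := by simpa [F] using hi
  have hg : ∀ j T, M.DeathAt j T → g j = T := by
    intro j T hT
    have : ∃ T, M.DeathAt j T := ⟨T, hT⟩
    simp only [g, dif_pos this]
    exact deathAt_unique this.choose_spec hT
  obtain ⟨hiB, T, hT⟩ := hi'
  refine ⟨i, hiB, T, hT, ?_, ?_⟩
  · have h1 := hmin i0 (by simp only [F, mem_filter, mem_univ, true_and]; exact ⟨hi0, T0, hT0⟩)
    rw [hg i T hT, hg i0 T0 hT0] at h1
    rcases h1.lt_or_eq with h2 | h2
    · exact hP _ _ hP0 h2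
    · rw [h2]; exact hP0
  · intro l hl
    rcases aliveB_or_death hD M hL l T with h | ⟨T', hT', hd⟩
    · exact h
    · have h1 := hmin l (by simp only [F, mem_filter, mem_univ, true_and]; exact ⟨hl, T', hd⟩)
      rw [hg i T hT, hg l T' hd] at h1
      linarith

/-- ages in phase 1 -/
theorem ages1 (hD : S_DEATH) (hND : S_NDIE) (X : ExData p e u v c S M) {T : ℤ} (hT : 0 < T)
    {σ : Equiv.Perm (Idx p e)} {z : Idx p e → ℤ} {a : Idx p e → ℝ} (hTok : M.Tok (T : ℝ) σ z a)
    (H : ∀ l, Dm l = 1 → M.AliveB l (T : ℝ)) (k : Idx p e) :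
    a (σ.symm k) = ((if Short k then min T (S - off u v c k) else T : ℤ) : ℝ) := by
  have hT' : (0 : ℝ) < T := by exact_mod_cast hT
  rcases aliveB_or_death hD M X.L_pos (σ.symm k) T with h | ⟨T', hT1, hd⟩
  · rw [age_of_aliveB hT' hTok h]
    split_ifs with hs
    · obtain ⟨j, rfl⟩ := short_eq_tau X.hp k hs
      have hle : T ≤ S - off u v c (tau e j) := by
        by_contra hcon
        have hlt : sd e u v c S j < T := by unfold sd; omega
        have hlt' : ((sd e u v c S j : ℤ) : ℝ) < T := by exact_mod_cast hlt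
        obtain ⟨h1, h2, h3⟩ := ndie hND X j
        have h4 := (h3 T hlt'.le σ z a hTok).1
        have h5 : σ.symm (tau e j) = Sum.inl (j, 0) := by rw [← h4, Equiv.symm_apply_apply]
        rw [h5] at h
        exact h _ h1.1 hlt' h1.2.1
      rw [min_eq_left hle]
    · rfl
  · have hneg : Dm (σ.symm k) = -1 := by
      rcases Dm_one_or (σ.symm k) with h1 | h1
      · exact absurd hd.2.1 (H _ h1 T' hd.1 hT1)
      · exact h1
    obtain ⟨j, hj⟩ := (Dm_neg_iff _).1 hneg
    obtain ⟨h1, h2, h3⟩ := ndie hND X j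
    rw [hj] at hd
    have hTs := deathAt_unique hd h1
    have h4 := h3 T (by rw [← hTs]; exact hT1.le) σ z a hTok
    have h5 : k = tau e j := by rw [← h4.1, ← hj, Equiv.apply_symm_apply]
    rw [hj, h4.2, h5, if_pos (tau_short j)]
    have hlt' : ((sd e u v c S j : ℤ) : ℝ) < T := by rw [← hTs]; exact hT1
    have hlt : sd e u v c S j < T := by exact_mod_cast hlt'
    rw [min_eq_right]
    · rfl
    · unfold sd at hlt; omega

/-- phase 1 -/
theorem phase1 (hD : S_DEATH) (hTk : S_TOK) (hFl : S_FLUX) (hND : S_NDIE)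
    (X : ExData p e u v c S M) {T : ℤ} (hT : 0 < T)
    (H : ∀ l, Dm l = 1 → M.AliveB l (T : ℝ)) (i : Idx p e) (hi : Dm i = 1) :
    (M.Alive i T → S ≤ T → flux fl p e u v c S (Hm u v c S i) T T T ≤ 2 * p + e) ∧
    (M.x i T = M.h i + (((p : ℤ) * S : ℤ) : ℝ) →
      2 * p + 1 + e ≤ flux fl p e u v c S (Hm u v c S i) T T T) ∧
    (M.x i T = M.h i → flux cl p e u v c S (Hm u v c S i) T T T +
      (if Short i then 1 else 0) ≤ 0) := by
  classical
  have hT' : (0 : ℝ) < T := by exact_mod_cast hT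
  obtain ⟨σ, z, a, hTok⟩ := hTk _ _ M X.L_pos (T : ℝ) hT'.le
  have hS := X.P.S_pos X.hp
  have hages := ages1 hD hND X hT hTok H
  obtain ⟨hs1, hs2⟩ := sums_eq X (σ := σ) (a := a)
    (fun k => if Short k then min T (S - off u v c k) else T) hages T T T
    (by intro b; simp [Short])
    (by intro b; simp [Short])
    (by intro b hb; simp [Short, hb])
    (by intro j hj; simp [Short, hj])
    (by
      intro k hk
      simp only [if_pos hk]
      have h1 := off_lt X.P X.hp X.he k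
      have h2 := off_nonneg X.P X.hp X.he k
      constructor
      · apply lt_min hT; omega
      · exact min_le_right _ _) i hi
  set A : Finset (Idx p e) := univ.filter (fun l => M.AliveB l T) with hAdef
  have hAmem : ∀ l, l ∈ A ↔ M.AliveB l T := by intro l; simp [A]
  have hdead : ∀ l, l ∉ A → ∃ j : Fin p, l = Sum.inl (j, 0) ∧
      ((sd e u v c S j : ℤ) : ℝ) < T ∧ M.x l T = M.h l := by
    intro l hl
    rw [hAmem] at hl
    rcases aliveB_or_death hD M X.L_pos l T with h | ⟨T', hT1, hd⟩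
    · exact absurd h hl
    · have hneg : Dm l = -1 := by
        rcases Dm_one_or l with h1 | h1
        · exact absurd (H _ h1) hl
        · exact h1
      obtain ⟨j, hj⟩ := (Dm_neg_iff _).1 hneg
      obtain ⟨h1, h2, h3⟩ := ndie hND X j
      rw [hj] at hd
      have hTs := deathAt_unique hd h1
      refine ⟨j, hj, by rw [← hTs]; exact hT1, ?_⟩
      rw [hj, ← h2]
      exact ((hD _ _ M X.L_pos).2 _ _ h1 T (by rw [← hTs]; exact hT1.le)).1
  have hfl := hFl _ _ M X.L_pos (T : ℝ) σ z a hT' hTok A (fun _ => 0) i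
    ((X.d_one i).2 hi) ((hAmem i).2 (H i hi)) (fun l hl => (hAmem l).1 hl)
    (fun l hl => by
      obtain ⟨j, -, -, h⟩ := hdead l hl
      rw [h]; simp)
  simp only [Finset.sum_const_zero, add_zero] at hfl
  rw [hs1, hs2] at hfl
  have hsub : univ.filter (fun l : Idx p e => Dm l = 1) ⊆ A := by
    intro l hl
    rw [hAmem]
    exact H l (by simpa using hl)
  have hcard : 2 * p + e + 1 ≤ A.card := by
    rw [← card_right (e := e) X.hp]
    exact Finset.card_le_card hsub
  refine ⟨fun h hST => ?_, fun h => ?_, fun h => ?_⟩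
  · have heq : A = univ.filter (fun l : Idx p e => Dm l = 1) := by
      apply Finset.Subset.antisymm _ hsub
      intro l hl
      rw [hAmem] at hl
      simp only [mem_filter, mem_univ, true_and]
      rcases Dm_one_or l with h1 | h1
      · exact h1
      · obtain ⟨j, rfl⟩ := (Dm_neg_iff _).1 h1
        obtain ⟨h1, h2, h3⟩ := ndie hND X j
        have h5 := sd_lt X.P X.hp X.he j
        have h6 : ((sd e u v c S j : ℤ) : ℝ) < T := by
          have : sd e u v c S j < T := by omega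
          exact_mod_cast this
        exact absurd h1.2.1 (hl _ h1.1 h6)
    have h1 := hfl.1 h
    have h2 : (A.card : ℤ) = 2 * p + e + 1 := by
      rw [heq, card_right X.hp]; push_cast; ring
    omega
  · have h1 := hfl.2.1 h
    have h2 : (2 * p + e + 1 : ℤ) ≤ A.card := by exact_mod_cast hcard
    omega
  · exact hfl.2.2 h

end Q32.RB
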