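import Mathlib
import Pool.Agent.Q32.RB.Ex3

/-!
# Bouncing robots: the example, part 4 (the late deaths, phase 2, conclusion)
-/

namespace Q32.RB

open Finset

variable {p e : ℕ} {u : ℕ → ℤ} {v c S : ℤ} {M : Motion (Idx p e) (((p : ℤ) * S : ℤ) : ℝ)}

/-- at a death by a left-moving token the time is a left crossing time -/
theorem left_time (hTk : S_TOK) (X : ExData p e u v c S M) {i : Idx p e} {T : ℝ}
    (hd : M.DeathAt i T) (hx : M.x i T = M.h i) (hw : M.w i T = -1) :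
    ∃ j : ℤ, T = ((j * S - off u v c i : ℤ) : ℝ) := by
  obtain ⟨σ, z, a, hTok⟩ := hTk _ _ M X.L_pos T hd.1.le
  have h1 := hTok.pos i
  have h2 := hTok.dead i T le_rfl hd
  rw [h2.1, hx] at h1
  rw [hw] at h2
  have h3 : Dm (σ i) = -1 := (X.d_neg _).1 h2.2.symm
  obtain ⟨b, hb⟩ := (Dm_neg_iff _).1 h3
  rw [← h2.2, X.hh, X.hh, hb] at h1
  refine ⟨(b : ℕ) + z i * p - blk i, ?_⟩
  rw [Hm_eq] at h1
  simp only [Hm, if_true, add_zero] at h1
  push_cast at h1 ⊢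
  linarith

/-- the time of a death is an integer -/
theorem int_time (hTk : S_TOK) (X : ExData p e u v c S M) {i : Idx p e} {T : ℝ}
    (hd : M.DeathAt i T) : ∃ n : ℤ, T = (n : ℝ) := by
  obtain ⟨σ, z, a, hTok⟩ := hTk _ _ M X.L_pos T hd.1.le
  have h1 := hTok.pos i
  have h2 := hTok.dead i T le_rfl hd
  obtain ⟨y, hy⟩ := hd.2.1
  rw [h2.1, hy, X.hh, X.hh, X.hd] at h1
  rcases Dm_one_or (σ i) with h3 | h3
  · refine ⟨Hm u v c S i + y * (p * S) - Hm u v c S (σ i) - z i * (p * S), ?_⟩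
    rw [h3] at h1
    push_cast at h1 ⊢
    linarith
  · refine ⟨-(Hm u v c S i + y * (p * S) - Hm u v c S (σ i) - z i * (p * S)), ?_⟩
    rw [h3] at h1
    push_cast at h1 ⊢
    linarith

/-- types of the right-starters -/
theorem right_cases (i : Idx p e) (hi : Dm i = 1) :
    (∃ k : Fin p, i = Sum.inl (k, 1)) ∨ (∃ k : Fin p, i = Sum.inl (k, 2)) ∨
      ∃ j : Fin (e + 1), i = Sum.inr j := by
  cases i with
  | inl q =>
    obtain ⟨k, j⟩ := q
    have hj : j ≠ 0 := by rintro rfl; simp [Dm] at hi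
    have : j = 1 ∨ j = 2 := by omega
    rcases this with rfl | rfl
    · exact Or.inl ⟨k, rfl⟩
    · exact Or.inr (Or.inl ⟨k, rfl⟩)
  | inr j => exact Or.inr (Or.inr ⟨j, rfl⟩)

theorem Tst_ge (X : ExData p e u v c S M) : S ≤ Tst p e u c S := by
  have hS := X.P.S_pos X.hp
  have h1 := X.S_le
  have h2 := X.P.pos 0 (by have := X.hp; omega)
  have h3 := X.P.big 0 (by have := X.hp; omega)
  have h4 := X.P.vc
  have hp := X.hp
  have hQ : 1 ≤ Qn p e := by unfold Qn; split_ifs <;> omega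
  have : 1 * ((p : ℤ) * S) ≤ Qn p e * (p * S) := mul_le_mul_of_nonneg_right hQ X.C_pos.le
  unfold Tst
  omega

/-- no return to the home base in phase 1 -/
theorem noreturn1 (hD : S_DEATH) (hTk : S_TOK) (hFl : S_FLUX) (hND : S_NDIE) (hDV : S_DVEL)
    (hAU : S_A1U) (hAV : S_A1V) (hAC : S_A1C)
    (X : ExData p e u v c S M) {T : ℤ} (hT : 0 < T)
    (H : ∀ l, Dm l = 1 → M.AliveB l (T : ℝ)) (i : Idx p e) (hi : Dm i = 1)
    (hd : M.DeathAt i (T : ℝ)) : M.x i T = M.h i + (((p : ℤ) * S : ℤ) : ℝ) ∧ M.w i T = 1 := by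
  rcases (hDV _ _ M X.L_pos i T hd).1 ((X.d_one i).2 hi) with ⟨hx, hw⟩ | ⟨hx, hw⟩
  swap
  · exact ⟨hx, hw⟩
  exfalso
  have h1 := (phase1 hD hTk hFl hND X hT H i hi).2.2 hx
  obtain ⟨j, hj⟩ := left_time hTk X hd hx hw
  have hj' : T = j * S - off u v c i := by exact_mod_cast hj
  have hS := X.P.S_pos X.hp
  have hop := off_pos X.P X.hp X.he i hi
  have hj1 : 1 ≤ j := by
    by_contra hcon
    have : j * S ≤ 0 := mul_nonpos_of_nonpos_of_nonneg (by omega) hS.le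
    omega
  rcases right_cases i hi with ⟨k, rfl⟩ | ⟨k, rfl⟩ | ⟨k, rfl⟩
  · have h2 := hAU p e u v c S X.hp X.he X.P k j k.2 hj1
    simp only [off, Hm, Short] at hj' h1
    simp at hj' h1
    rw [hj'] at h1
    omega
  · have h2 := hAV p e u v c S X.hp X.he X.P k j k.2 hj1
    simp only [off, Hm, Short] at hj' h1
    simp at hj' h1
    rw [hj'] at h1
    split_ifs at h1 h2 <;> omega
  · have h2 := hAC p e u v c S X.hp X.he X.P k j _ (by have := k.2; omega) hj1 rfl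
    simp only [off, Hm, Short] at hj' h1
    rw [hj'] at h1
    split_ifs at h1 h2 <;> omega

/-- phase 1: no right-starter dies before `Tst` -/
theorem alive_before (hD : S_DEATH) (hTk : S_TOK) (hFl : S_FLUX) (hND : S_NDIE) (hDV : S_DVEL)
    (hAU : S_A1U) (hAV : S_A1V) (hAC : S_A1C) (hBU : S_B1U) (hBV : S_B1V) (hBC : S_B1C)
    (X : ExData p e u v c S M) :
    ∀ l, Dm l = 1 → M.AliveB l ((Tst p e u c S : ℤ) : ℝ) := by
  by_contra hcon
  push Not at hcon
  obtain ⟨l, hl, hlB⟩ := hcon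
  have h0 : ∃ i ∈ {i : Idx p e | Dm i = 1}, ∃ T, M.DeathAt i T ∧
      T < ((Tst p e u c S : ℤ) : ℝ) := by
    rcases aliveB_or_death hD M X.L_pos l ((Tst p e u c S : ℤ) : ℝ) with h | ⟨T, h1, h2⟩
    · exact absurd h hlB
    · exact ⟨l, hl, T, h2, h1⟩
  obtain ⟨i, hi, T, hd, hT, H⟩ := first_death hD M X.L_pos {i : Idx p e | Dm i = 1}
    (fun T => T < ((Tst p e u c S : ℤ) : ℝ)) h0 (fun T T' h h' => h'.trans h)
  obtain ⟨n, rfl⟩ := int_time hTk X hd
  have hn : 0 < n := by exact_mod_cast hd.1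
  have hnT : n < Tst p e u c S := by exact_mod_cast hT
  have hi' : Dm i = 1 := hi
  have H' : ∀ l, Dm l = 1 → M.AliveB l (n : ℝ) := fun l hl => H l hl
  obtain ⟨hx, hw⟩ := noreturn1 hD hTk hFl hND hDV hAU hAV hAC X hn H' i hi' hd
  have h1 := (phase1 hD hTk hFl hND X hn H' i hi').2.1 hx
  rcases right_cases i hi' with ⟨k, rfl⟩ | ⟨k, rfl⟩ | ⟨k, rfl⟩
  · have h2 := hBU p e u v c S X.hp X.he X.P k n k.2 hn hnT.le
    simp only [Hm] at h1
    simp at h1
    omega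
  · have h2 := hBV p e u v c S X.hp X.he X.P k n k.2 hn hnT.le
    simp only [Hm] at h1
    simp at h1
    omega
  · have h2 := hBC p e u v c S X.hp X.he X.P k n (by have := k.2; omega) hn hnT
    simp only [Hm] at h1
    omega

/-- the target token of `C j` -/
def tgt (hp : 1 ≤ p) (j : ℕ) : Idx p e := if j = 0 then Sum.inl (⟨0, hp⟩, 1) else Sum.inl (⟨0, hp⟩, 2)

/-- the late deaths -/
theorem late (hD : S_DEATH) (hTk : S_TOK) (hFl : S_FLUX) (hND : S_NDIE) (hDV : S_DVEL)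
    (hAU : S_A1U) (hAV : S_A1V) (hAC : S_A1C) (hBU : S_B1U) (hBV : S_B1V) (hBC : S_B1C)
    (hG : S_GAM) (X : ExData p e u v c S M) (j : Fin (e + 1)) :
    M.DeathAt (Sum.inr j) ((Tst p e u c S : ℤ) : ℝ) ∧
      M.x (Sum.inr j) ((Tst p e u c S : ℤ) : ℝ) = M.h (Sum.inr j) + (((p : ℤ) * S : ℤ) : ℝ) ∧
      M.w (Sum.inr j) ((Tst p e u c S : ℤ) : ℝ) = 1 := by
  have H := alive_before hD hTk hFl hND hDV hAU hAV hAC hBU hBV hBC X
  have hS := X.P.S_pos X.hp
  have hTS := Tst_ge X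
  have hT0 : 0 < Tst p e u c S := by omega
  have hT0' : (0 : ℝ) < ((Tst p e u c S : ℤ) : ℝ) := by exact_mod_cast hT0
  have hi : Dm (Sum.inr j : Idx p e) = 1 := rfl
  have hnot : ¬ M.Alive (Sum.inr j) ((Tst p e u c S : ℤ) : ℝ) := by
    intro hA
    have h1 := (phase1 hD hTk hFl hND X hT0 H _ hi).1 hA hTS
    have h2 := hG p e u v c S X.hp X.he X.P j (by have := j.2; omega)
    simp only [Hm] at h1
    omega
  have hd := deathAt_of hT0' (H _ hi) hnot
  exact ⟨hd, noreturn1 hD hTk hFl hND hDV hAU hAV hAC X hT0 H _ hi hd⟩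

/-- the robots `U` and `V` are alive at `Tst` -/
theorem alive_at (hD : S_DEATH) (hTk : S_TOK) (hFl : S_FLUX) (hND : S_NDIE) (hDV : S_DVEL)
    (hAU : S_A1U) (hAV : S_A1V) (hAC : S_A1C) (hBU : S_B1U) (hBV : S_B1V) (hBC : S_B1C)
    (X : ExData p e u v c S M) (k : Fin p) (j : Fin 3) (hj : j ≠ 0) :
    M.Alive (Sum.inl (k, j)) ((Tst p e u c S : ℤ) : ℝ) := by
  have H := alive_before hD hTk hFl hND hDV hAU hAV hAC hBU hBV hBC X
  have hS := X.P.S_pos X.hp
  have hTS := Tst_ge X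
  have hT0 : 0 < Tst p e u c S := by omega
  have hT0' : (0 : ℝ) < ((Tst p e u c S : ℤ) : ℝ) := by exact_mod_cast hT0
  have hi : Dm (Sum.inl (k, j) : Idx p e) = 1 := by simp [Dm, hj]
  by_contra hnot
  have hd := deathAt_of hT0' (H _ hi) hnot
  obtain ⟨hx, hw⟩ := noreturn1 hD hTk hFl hND hDV hAU hAV hAC X hT0 H _ hi hd
  have h1 := (phase1 hD hTk hFl hND X hT0 H _ hi).2.1 hx
  have hj' : j = 1 ∨ j = 2 := by omega
  rcases hj' with rfl | rfl
  · have h2 := hBU p e u v c S X.hp X.he X.P k _ k.2 hT0 le_rfl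
    simp only [Hm] at h1
    simp at h1
    omega
  · have h2 := hBV p e u v c S X.hp X.he X.P k _ k.2 hT0 le_rfl
    simp only [Hm] at h1
    simp at h1
    omega

end Q32.RB
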