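import Mathlib
import Pool.Agent.Q32.RB.Ex4

/-!
# Bouncing robots: the example, part 5 (phase 2, conclusion)
-/

namespace Q32.RB

open Finset

variable {p e : ℕ} {u : ℕ → ℤ} {v c S : ℤ} {M : Motion (Idx p e) (((p : ℤ) * S : ℤ) : ℝ)}

/-- hypotheses on the late deaths -/
def Late (p e : ℕ) (u : ℕ → ℤ) (v c S : ℤ) (M : Motion (Idx p e) (((p : ℤ) * S : ℤ) : ℝ)) :
    Prop := ∀ j : Fin (e + 1), M.DeathAt (Sum.inr j) ((Tst p e u c S : ℤ) : ℝ) ∧
      M.x (Sum.inr j) ((Tst p e u c S : ℤ) : ℝ) = M.h (Sum.inr j) + (((p : ℤ) * S : ℤ) : ℝ) ∧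
      M.w (Sum.inr j) ((Tst p e u c S : ℤ) : ℝ) = 1

theorem late_tok (hD : S_DEATH) (X : ExData p e u v c S M) (hLt : Late p e u v c S M) {t : ℝ}
    (ht : ((Tst p e u c S : ℤ) : ℝ) ≤ t) {σ : Equiv.Perm (Idx p e)} {z : Idx p e → ℤ}
    {a : Idx p e → ℝ} (hTok : M.Tok t σ z a) (j : Fin (e + 1)) :
    σ (Sum.inr j) = tgt X.hp (j : ℕ) ∧ a (Sum.inr j) = ((Tst p e u c S : ℤ) : ℝ) := by
  obtain ⟨hd, hx, hw⟩ := hLt j
  have h1 := hTok.dead _ _ ht hd
  refine ⟨?_, h1.1⟩
  by_contra hne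
  have h2 := hTok.pos (Sum.inr j)
  rw [h1.1, ← h1.2, hw, ((hD _ _ M X.L_pos).2 _ _ hd t ht).1, hx] at h2
  apply M.homes _ _ hne (1 - Qn p e - z (Sum.inr j))
  have h3 : M.h (tgt X.hp (j : ℕ) : Idx p e) = ((u 0 + (j : ℕ) * (v - u 0) : ℤ) : ℝ) := by
    rw [X.hh]
    have hj := j.2
    have he := X.he
    have hj' : (j : ℕ) = 0 ∨ (j : ℕ) = 1 := by omega
    rcases hj' with h | h
    · rw [h]; simp [tgt, Hm]
    · rw [h]; simp [tgt, Hm]
  rw [h3]
  rw [X.hh] at h2
  simp only [Hm, Tst] at h2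
  push_cast at h2 ⊢
  linarith

/-- ages in phase 2 -/
def A2 (p e : ℕ) (u : ℕ → ℤ) (v c S T : ℤ) (k : Idx p e) : ℤ :=
  if Short k then S - off u v c k else
    match k with
    | Sum.inl (b, j) =>
      if (b : ℕ) = 0 ∧ (j = 1 ∨ (j = 2 ∧ e = 1)) then Tst p e u c S else T
    | Sum.inr _ => T

theorem ages2 (hD : S_DEATH) (hND : S_NDIE) (X : ExData p e u v c S M)
    (hLt : Late p e u v c S M) {T : ℤ} (hT : Tst p e u c S < T)
    {σ : Equiv.Perm (Idx p e)} {z : Idx p e → ℤ} {a : Idx p e → ℝ} (hTok : M.Tok (T : ℝ) σ z a)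
    (H : ∀ (k : Fin p) (j : Fin 3), j ≠ 0 → M.AliveB (Sum.inl (k, j)) (T : ℝ)) (k : Idx p e) :
    a (σ.symm k) = (A2 p e u v c S T k : ℝ) := by
  have hS := X.P.S_pos X.hp
  have hTS := Tst_ge X
  have hT0 : 0 < T := by omega
  have hT' : (0 : ℝ) < T := by exact_mod_cast hT0
  have hTr : ((Tst p e u c S : ℤ) : ℝ) < T := by exact_mod_cast hT
  have hsdT : ∀ j : Fin p, ((sd e u v c S j : ℤ) : ℝ) < T := by
    intro j
    have := sd_lt X.P X.hp X.he j
    have h : sd e u v c S j < T := by omega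
    exact_mod_cast h
  rcases aliveB_or_death hD M X.L_pos (σ.symm k) T with h | ⟨T', hT1, hd⟩
  · rw [age_of_aliveB hT' hTok h]
    have hns : ¬ Short k := by
      intro hs
      obtain ⟨j, rfl⟩ := short_eq_tau X.hp k hs
      obtain ⟨h1, h2, h3⟩ := ndie hND X j
      have h4 := (h3 T (hsdT j).le σ z a hTok).1
      have h5 : σ.symm (tau e j) = Sum.inl (j, 0) := by rw [← h4, Equiv.symm_apply_apply]
      rw [h5] at h
      exact h _ h1.1 (hsdT j) h1.2.1
    have hnt : ∀ j : Fin (e + 1), k ≠ tgt X.hp (j : ℕ) := by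
      intro j hk
      have h4 := (late_tok hD X hLt hTr.le hTok j).1
      have h5 : σ.symm k = Sum.inr j := by rw [hk, ← h4, Equiv.symm_apply_apply]
      rw [h5] at h
      obtain ⟨h1, -, -⟩ := hLt j
      exact h _ h1.1 hTr h1.2.1
    unfold A2
    rw [if_neg hns]
    cases k with
    | inl q =>
      obtain ⟨b, j⟩ := q
      have hcond : ¬ ((b : ℕ) = 0 ∧ (j = 1 ∨ (j = 2 ∧ e = 1))) := by
        rintro ⟨hb, hj⟩
        have hb' : b = ⟨0, X.hp⟩ := Fin.ext hb
        rcases hj with rfl | ⟨rfl, he1⟩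
        · apply hnt 0
          simp [tgt, hb']
        · subst he1
          apply hnt 1
          simp [tgt, hb']
      simp only [if_neg hcond]
    | inr j => rfl
  · have hcase : (∃ j : Fin p, σ.symm k = Sum.inl (j, 0)) ∨
        ∃ j : Fin (e + 1), σ.symm k = Sum.inr j := by
      cases hq : σ.symm k with
      | inl q =>
        obtain ⟨b, j⟩ := q
        by_cases hj : j = 0
        · left; exact ⟨b, by rw [hj]⟩
        · exfalso
          rw [hq] at hd
          exact H b j hj T' hd.1 hT1 hd.2.1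
      | inr j => right; exact ⟨j, rfl⟩
    rcases hcase with ⟨j, hj⟩ | ⟨j, hj⟩
    · obtain ⟨h1, h2, h3⟩ := ndie hND X j
      have h4 := h3 T (hsdT j).le σ z a hTok
      have h5 : k = tau e j := by rw [← h4.1, ← hj, Equiv.apply_symm_apply]
      rw [hj, h4.2, h5]
      unfold A2
      rw [if_pos (tau_short j)]
      rfl
    · have h4 := late_tok hD X hLt hTr.le hTok j
      have h5 : k = tgt X.hp (j : ℕ) := by rw [← h4.1, ← hj, Equiv.apply_symm_apply]
      rw [hj, h4.2, h5]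
      have hj2 := j.2
      have he := X.he
      have hj' : (j : ℕ) = 0 ∨ ((j : ℕ) = 1 ∧ e = 1) := by omega
      rcases hj' with h | ⟨h, h'⟩
      · rw [h]; simp [tgt, A2, Short]
      · rw [h]; simp [tgt, A2, Short, h']

/-- phase 2 -/
theorem phase2 (hD : S_DEATH) (hTk : S_TOK) (hFl : S_FLUX) (hND : S_NDIE)
    (X : ExData p e u v c S M) (hLt : Late p e u v c S M) {T : ℤ} (hT : Tst p e u c S < T)
    (H : ∀ (k : Fin p) (j : Fin 3), j ≠ 0 → M.AliveB (Sum.inl (k, j)) (T : ℝ))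
    (k : Fin p) (j : Fin 3) (hj : j ≠ 0) :
    (M.x (Sum.inl (k, j)) T = M.h (Sum.inl (k, j)) + (((p : ℤ) * S : ℤ) : ℝ) →
      2 * p + 1 + e ≤ flux fl p e u v c S (Hm u v c S (Sum.inl (k, j) : Idx p e)) T
        (Tst p e u c S) (if e = 0 then T else Tst p e u c S)) ∧
    (M.x (Sum.inl (k, j)) T = M.h (Sum.inl (k, j)) →
      flux cl p e u v c S (Hm u v c S (Sum.inl (k, j) : Idx p e)) T
        (Tst p e u c S) (if e = 0 then T else Tst p e u c S) +
      (if Short (Sum.inl (k, j) : Idx p e) then 1 else 0) ≤ e + 1) := by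
  classical
  have hS := X.P.S_pos X.hp
  have hTS := Tst_ge X
  have hT0 : 0 < T := by omega
  have hT' : (0 : ℝ) < T := by exact_mod_cast hT0
  have hTr : ((Tst p e u c S : ℤ) : ℝ) < T := by exact_mod_cast hT
  obtain ⟨σ, z, a, hTok⟩ := hTk _ _ M X.L_pos (T : ℝ) hT'.le
  have hages := ages2 hD hND X hLt hT hTok H
  have hDm : Dm (Sum.inl (k, j) : Idx p e) = 1 := by simp [Dm, hj]
  obtain ⟨hs1, hs2⟩ := sums_eq X (σ := σ) (a := a) (A2 p e u v c S T) hages T
    (Tst p e u c S) (if e = 0 then T else Tst p e u c S)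
    (by intro b; simp [A2, Short])
    (by
      intro b
      by_cases hb : (b : ℕ) = 0
      · simp [A2, Short, hb]
      · simp [A2, Short, hb])
    (by
      intro b hb
      have he := X.he
      by_cases he0 : e = 0
      · simp [A2, Short, hb, he0]
      · have he1 : e = 1 := by omega
        simp [A2, Short, hb, he1])
    (by intro b hb; simp [A2, Short, hb])
    (by
      intro k hk
      unfold A2
      rw [if_pos hk]
      have h1 := off_lt X.P X.hp X.he k
      have h2 := off_nonneg X.P X.hp X.he k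
      constructor
      · omega
      · exact le_rfl) (Sum.inl (k, j)) hDm
  set A : Finset (Idx p e) := univ.filter (fun l => M.AliveB l T) with hAdef
  have hAmem : ∀ l, l ∈ A ↔ M.AliveB l T := by intro l; simp [A]
  let D : Idx p e → ℤ := fun l => match l with
    | Sum.inl _ => 0
    | Sum.inr _ => 1
  have hinr : ∀ i : Fin (e + 1), (Sum.inr i : Idx p e) ∉ A := by
    intro i hi
    rw [hAmem] at hi
    obtain ⟨h1, -, -⟩ := hLt i
    exact hi _ h1.1 hTr h1.2.1
  have hdead : ∀ l, l ∉ A → M.x l T = M.h l + D l * (((p : ℤ) * S : ℤ) : ℝ) := by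
    intro l hl
    cases l with
    | inl q =>
      obtain ⟨b, i⟩ := q
      by_cases hi : i = 0
      · subst hi
        obtain ⟨h1, h2, h3⟩ := ndie hND X b
        have h5 := sd_lt X.P X.hp X.he b
        have h6 : ((sd e u v c S b : ℤ) : ℝ) ≤ T := by
          have : sd e u v c S b ≤ T := by omega
          exact_mod_cast this
        rw [((hD _ _ M X.L_pos).2 _ _ h1 T h6).1, h2]
        simp [D]
      · exact absurd ((hAmem _).2 (H b i hi)) hl
    | inr i =>
      obtain ⟨h1, h2, -⟩ := hLt i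
      rw [((hD _ _ M X.L_pos).2 _ _ h1 T hTr.le).1, h2]
      simp [D]
  have hfl := hFl _ _ M X.L_pos (T : ℝ) σ z a hT' hTok A D (Sum.inl (k, j))
    ((X.d_one _).2 hDm) ((hAmem _).2 (H k j hj)) (fun l hl => (hAmem l).1 hl) hdead
  have hsumD : ∑ l ∈ Aᶜ, D l = e + 1 := by
    have h1 : ∑ l ∈ Aᶜ, D l = ∑ l, D l := by
      apply Finset.sum_subset (Finset.subset_univ _)
      intro l _ hl
      cases l with
      | inl q => rfl
      | inr i => exact absurd (by simpa using hinr i) hl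
    rw [h1, sum_idx]
    simp [D]
  rw [hs1, hs2, hsumD] at hfl
  have hcard : 2 * p ≤ A.card := by
    let B : Finset (Idx p e) := univ.filter (fun l => ∃ b i, l = Sum.inl (b, i) ∧ i ≠ 0)
    have hB : B ⊆ A := by
      intro l hl
      simp only [B, mem_filter, mem_univ, true_and] at hl
      obtain ⟨b, i, rfl, hi⟩ := hl
      exact (hAmem _).2 (H b i hi)
    have hBc : (B.card : ℤ) = 2 * p := by
      simp only [B]
      rw [Finset.card_filter]
      push_cast
      rw [sum_idx]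
      have e1 : ∀ b : Fin p, (∃ b' i, (Sum.inl (b, (1 : Fin 3)) : Idx p e) = Sum.inl (b', i) ∧ i ≠ 0) :=
        fun b => ⟨b, 1, rfl, by decide⟩
      have e2 : ∀ b : Fin p, (∃ b' i, (Sum.inl (b, (2 : Fin 3)) : Idx p e) = Sum.inl (b', i) ∧ i ≠ 0) :=
        fun b => ⟨b, 2, rfl, by decide⟩
      have e0 : ∀ b : Fin p, ¬ (∃ b' i, (Sum.inl (b, (0 : Fin 3)) : Idx p e) = Sum.inl (b', i) ∧ i ≠ 0) := by
        rintro b ⟨b', i, h, hi⟩
        simp only [Sum.inl.injEq, Prod.mk.injEq] at h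
        exact hi h.2.symm
      simp only [e1, e2, e0, if_true, if_false]
      simp
      ring
    have := Finset.card_le_card hB
    have h2 : (B.card : ℤ) ≤ A.card := by exact_mod_cast this
    have : (2 * p : ℤ) ≤ A.card := by rw [← hBc]; exact h2
    exact_mod_cast this
  have hcard' : (2 * p : ℤ) ≤ A.card := by exact_mod_cast hcard
  refine ⟨fun h => ?_, fun h => ?_⟩
  · have h1 := hfl.2.1 h
    omega
  · exact hfl.2.2 h

/-- the example -/
theorem ex (hD : S_DEATH) (hTk : S_TOK) (hFl : S_FLUX) (hND : S_NDIE) (hDV : S_DVEL)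
    (hAU : S_A1U) (hAV : S_A1V) (hAC : S_A1C) (hBU : S_B1U) (hBV : S_B1V) (hBC : S_B1C)
    (hG : S_GAM) (hDU : S_D2U) (hDV2 : S_D2V) (hEU : S_E2U) (hEV : S_E2V) : S_EX := by
  intro p e u v c S hp he P M hh hd
  have X : ExData p e u v c S M := ⟨hp, he, P, hh, hd⟩
  have hLt : Late p e u v c S M :=
    fun j => late hD hTk hFl hND hDV hAU hAV hAC hBU hBV hBC hG X j
  have hal := alive_at hD hTk hFl hND hDV hAU hAV hAC hBU hBV hBC X
  have hS := X.P.S_pos X.hp
  have hTS := Tst_ge X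
  by_contra hcon
  push Not at hcon
  obtain ⟨k0, j0, hj0, hns⟩ := hcon
  have h0 : ∃ i ∈ {i : Idx p e | ∃ k j, j ≠ 0 ∧ i = Sum.inl (k, j)}, ∃ T, M.DeathAt i T ∧
      True := by
    have : ∃ t, ¬ M.Alive (Sum.inl (k0, j0)) t := by
      by_contra h; push Not at h; exact hns h
    obtain ⟨t, ht⟩ := this
    have ht0 : 0 ≤ t := by
      by_contra hneg
      apply ht
      intro s hs hst
      exfalso; linarith
    obtain ⟨T, -, hT⟩ := (hD _ _ M X.L_pos).1 _ t ht0 ht
    exact ⟨_, ⟨k0, j0, hj0, rfl⟩, T, hT, trivial⟩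
  obtain ⟨i, ⟨k, j, hj, rfl⟩, T, hdT, -, H⟩ := first_death hD M X.L_pos _
    (fun _ => True) h0 (fun _ _ _ _ => trivial)
  have H' : ∀ (k : Fin p) (j : Fin 3), j ≠ 0 → M.AliveB (Sum.inl (k, j)) T :=
    fun k j hj => H _ ⟨k, j, hj, rfl⟩
  obtain ⟨n, rfl⟩ := int_time hTk X hdT
  have hTn' : ((Tst p e u c S : ℤ) : ℝ) < n := by
    by_contra hle
    push Not at hle
    exact hal k j hj (n : ℝ) hdT.1 hle hdT.2.1
  have hTn : Tst p e u c S < n := by exact_mod_cast hTn'
  have hDm : Dm (Sum.inl (k, j) : Idx p e) = 1 := by simp [Dm, hj]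
  have hph := phase2 hD hTk hFl hND X hLt hTn H' k j hj
  have hj' : j = 1 ∨ j = 2 := by omega
  rcases (hDV _ _ M X.L_pos _ _ hdT).1 ((X.d_one _).2 hDm) with ⟨hx, hw⟩ | ⟨hx, hw⟩
  · have h1 := hph.2 hx
    obtain ⟨m, hm⟩ := left_time hTk X hdT hx hw
    have hm' : n = m * S - off u v c (Sum.inl (k, j) : Idx p e) := by exact_mod_cast hm
    rcases hj' with rfl | rfl
    · simp only [off, Hm, Short] at hm' h1
      simp at hm' h1
      have h2 := hDU p e u v c S X.hp X.he X.P k m k.2 (by rw [← hm']; exact hTn)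
      rw [← hm'] at h2
      omega
    · simp only [off, Hm, Short] at hm' h1
      simp at hm' h1
      have h2 := hDV2 p e u v c S X.hp X.he X.P k m k.2 (by rw [← hm']; exact hTn)
      rw [← hm'] at h2
      split_ifs at h1 h2 <;> omega
  · have h1 := hph.1 hx
    rcases hj' with rfl | rfl
    · have h2 := hEU p e u v c S X.hp X.he X.P k n k.2 hTn
      simp only [Hm] at h1
      simp at h1 h2
      omega
    · have h2 := hEV p e u v c S X.hp X.he X.P k n k.2 hTn
      simp only [Hm] at h1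
      simp at h1 h2
      omega

end Q32.RB
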