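import Mathlib
import Pool.Agent.Q32.RB.Stm

/-!
# Bouncing robots: existence of motions on an even integer grid
-/

namespace Q32.RB

open Finset

/-- case distinction by a proposition -/
noncomputable def cs (P : Prop) (a b : ℤ) : ℤ := @ite ℤ P (Classical.propDecidable P) a b

theorem cs_pos {P : Prop} (h : P) (a b : ℤ) : cs P a b = a := by
  unfold cs; exact @if_pos P (Classical.propDecidable P) h ℤ a b

theorem cs_neg {P : Prop} (h : ¬ P) (a b : ℤ) : cs P a b = b := by
  unfold cs; exact @if_neg P (Classical.propDecidable P) h ℤ a b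

/-- one step of the discrete motion: positions, velocities, living robots -/
noncomputable def gstep {ι : Type} (H : ι → ℤ) (C : ℤ) (s : (ι → ℤ) × (ι → ℤ) × (ι → Prop)) :
    (ι → ℤ) × (ι → ℤ) × (ι → Prop) :=
  let P' : ι → ℤ := fun i => s.1 i + s.2.1 i
  let A' : ι → Prop := fun i => s.2.2 i ∧ ¬ C ∣ P' i - H i
  (P', fun i => cs (A' i) (cs (∃ k, k ≠ i ∧ A' k ∧ C ∣ P' k - P' i) (- s.2.1 i) (s.2.1 i)) 0, A')

/-- the discrete motion -/
noncomputable def gst {ι : Type} (H D : ι → ℤ) (C : ℤ) : ℕ → (ι → ℤ) × (ι → ℤ) × (ι → Prop)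
  | 0 => (H, D, fun _ => True)
  | n + 1 => gstep H C (gst H D C n)

section

variable {ι : Type} (H D : ι → ℤ) (C : ℤ)

noncomputable def gP (n : ℕ) (i : ι) : ℤ := (gst H D C n).1 i
noncomputable def gV (n : ℕ) (i : ι) : ℤ := (gst H D C n).2.1 i
def gA (n : ℕ) (i : ι) : Prop := (gst H D C n).2.2 i

theorem gP_succ (n : ℕ) (i : ι) : gP H D C (n + 1) i = gP H D C n i + gV H D C n i := rfl

theorem gA_succ (n : ℕ) (i : ι) :
    gA H D C (n + 1) i ↔ gA H D C n i ∧ ¬ C ∣ gP H D C (n + 1) i - H i := Iff.rfl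

theorem gV_succ (n : ℕ) (i : ι) : gV H D C (n + 1) i = cs (gA H D C (n + 1) i)
    (cs (∃ k, k ≠ i ∧ gA H D C (n + 1) k ∧ C ∣ gP H D C (n + 1) k - gP H D C (n + 1) i)
      (- gV H D C n i) (gV H D C n i)) 0 := rfl

theorem gV_dead (n : ℕ) (i : ι) (h : ¬ gA H D C n i) : gV H D C n i = 0 := by
  cases n with
  | zero => exact absurd trivial h
  | succ n => rw [gV_succ, cs_neg h]

theorem gV_free (n : ℕ) (i : ι) (h : gA H D C (n + 1) i)
    (h' : ¬ ∃ k, k ≠ i ∧ gA H D C (n + 1) k ∧ C ∣ gP H D C (n + 1) k - gP H D C (n + 1) i) :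
    gV H D C (n + 1) i = gV H D C n i := by
  rw [gV_succ, cs_pos h, cs_neg h']

theorem gV_bounce (n : ℕ) (i : ι) (h : gA H D C (n + 1) i)
    (h' : ∃ k, k ≠ i ∧ gA H D C (n + 1) k ∧ C ∣ gP H D C (n + 1) k - gP H D C (n + 1) i) :
    gV H D C (n + 1) i = - gV H D C n i := by
  rw [gV_succ, cs_pos h, cs_pos h']

theorem gA_mono {m n : ℕ} (hmn : m ≤ n) (i : ι) (h : gA H D C n i) : gA H D C m i := by
  induction n with
  | zero =>
    have : m = 0 := by omega
    rw [this]; exact h
  | succ n ih =>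
    rcases Nat.lt_or_ge m (n + 1) with h1 | h1
    · exact ih (by omega) ((gA_succ H D C n i).1 h).1
    · have : m = n + 1 := by omega
      rw [this]; exact h

theorem gV_pm (hD : ∀ i, D i = 1 ∨ D i = -1) (n : ℕ) (i : ι) (h : gA H D C n i) :
    gV H D C n i = 1 ∨ gV H D C n i = -1 := by
  induction n with
  | zero => exact hD i
  | succ n ih =>
    have h1 := ih ((gA_succ H D C n i).1 h).1
    by_cases h' : ∃ k, k ≠ i ∧ gA H D C (n + 1) k ∧ C ∣ gP H D C (n + 1) k - gP H D C (n + 1) i
    · rw [gV_bounce H D C n i h h']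
      omega
    · rw [gV_free H D C n i h h']
      exact h1

theorem gP_par (hH : ∀ i, Even (H i)) (hD : ∀ i, D i = 1 ∨ D i = -1) (n : ℕ) (i : ι)
    (h : gA H D C n i) : Even (gP H D C n i - n) := by
  induction n with
  | zero =>
    have : gP H D C 0 i = H i := rfl
    rw [this]; simpa using hH i
  | succ n ih =>
    have h0 := ((gA_succ H D C n i).1 h).1
    have h1 := ih h0
    rw [gP_succ]
    push_cast
    rcases gV_pm H D C hD n i h0 with h2 | h2
    · rw [h2]
      rw [show gP H D C n i + 1 - ((n : ℤ) + 1) = gP H D C n i - n by ring]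
      exact h1
    · rw [h2]
      rw [show gP H D C n i + -1 - ((n : ℤ) + 1) = (gP H D C n i - n) + (-2) by ring]
      exact h1.add (by decide)

theorem g_inj (hD : ∀ i, D i = 1 ∨ D i = -1)
    (hdist : ∀ i k, i ≠ k → ∀ z : ℤ, H i ≠ H k + z * C) (n : ℕ) (i k : ι)
    (hik : i ≠ k) (hi : gA H D C n i) (hk : gA H D C n k)
    (hm : C ∣ gP H D C n i - gP H D C n k) : gV H D C n i ≠ gV H D C n k := by
  induction n generalizing i k with
  | zero =>
    intro _
    obtain ⟨z, hz⟩ := hm
    have h1 : gP H D C 0 i = H i := rfl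
    have h2 : gP H D C 0 k = H k := rfl
    rw [h1, h2] at hz
    exact hdist i k hik z (by linarith)
  | succ n ih =>
    intro hV
    have hm' : C ∣ gP H D C (n + 1) k - gP H D C (n + 1) i := by
      have := (dvd_neg (a := C)).2 hm
      rwa [neg_sub] at this
    rw [gV_bounce H D C n i hi ⟨k, hik.symm, hk, hm'⟩,
      gV_bounce H D C n k hk ⟨i, hik, hi, hm⟩] at hV
    have hV' : gV H D C n i = gV H D C n k := by omega
    apply ih i k hik ((gA_succ H D C n i).1 hi).1 ((gA_succ H D C n k).1 hk).1 _ hV'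
    rw [gP_succ, gP_succ, hV'] at hm
    rwa [show gP H D C n i + gV H D C n k - (gP H D C n k + gV H D C n k) =
      gP H D C n i - gP H D C n k by ring] at hm

/-- the velocities before a collision are opposite -/
theorem g_opp (hD : ∀ i, D i = 1 ∨ D i = -1)
    (hdist : ∀ i k, i ≠ k → ∀ z : ℤ, H i ≠ H k + z * C) (n : ℕ) (i k : ι)
    (hik : i ≠ k) (hi : gA H D C (n + 1) i) (hk : gA H D C (n + 1) k)
    (hm : C ∣ gP H D C (n + 1) i - gP H D C (n + 1) k) :
    gV H D C (n + 1) i = gV H D C n k := by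
  have hi' := ((gA_succ H D C n i).1 hi).1
  have hk' := ((gA_succ H D C n k).1 hk).1
  have hm' : C ∣ gP H D C (n + 1) k - gP H D C (n + 1) i := by
    have := (dvd_neg (a := C)).2 hm
    rwa [neg_sub] at this
  rw [gV_bounce H D C n i hi ⟨k, hik.symm, hk, hm'⟩]
  have hne : gV H D C n i ≠ gV H D C n k := by
    intro hV
    apply g_inj H D C hD hdist n i k hik hi' hk' _ hV
    rw [gP_succ, gP_succ, hV] at hm
    rwa [show gP H D C n i + gV H D C n k - (gP H D C n k + gV H D C n k) =
      gP H D C n i - gP H D C n k by ring] at hm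
  rcases gV_pm H D C hD n i hi' with h1 | h1 <;> rcases gV_pm H D C hD n k hk' with h2 | h2 <;>
    omega

/-- continuous position -/
noncomputable def gx (i : ι) (t : ℝ) : ℝ :=
  gP H D C ⌊t⌋₊ i + gV H D C ⌊t⌋₊ i * (t - ⌊t⌋₊)

theorem gx_eq (i : ι) (n : ℕ) (t : ℝ) (h1 : (n : ℝ) ≤ t) (h2 : t ≤ n + 1) :
    gx H D C i t = gP H D C n i + gV H D C n i * (t - n) := by
  have h0 : 0 ≤ t := le_trans (by positivity) h1
  unfold gx
  rcases h2.lt_or_eq with h | h
  · have : ⌊t⌋₊ = n := (Nat.floor_eq_iff h0).2 ⟨h1, h⟩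
    rw [this]
  · have : ⌊t⌋₊ = n + 1 := by
      rw [h]
      have := Nat.floor_natCast (R := ℝ) (n + 1)
      push_cast at this
      exact this
    rw [this, gP_succ, h]
    push_cast
    ring

theorem cases_time (t : ℝ) (ht : 0 < t) :
    (∃ n : ℕ, t = n + 1 ∧ ⌊t⌋₊ = n + 1 ∧ ⌈t⌉₊ - 1 = n) ∨
    (∃ n : ℕ, (n : ℝ) < t ∧ t < n + 1 ∧ ⌊t⌋₊ = n ∧ ⌈t⌉₊ - 1 = n) := by
  by_cases h : ∃ n : ℕ, t = n + 1
  · left
    obtain ⟨n, hn⟩ := h
    refine ⟨n, hn, ?_, ?_⟩
    · rw [hn]
      have := Nat.floor_natCast (R := ℝ) (n + 1)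
      push_cast at this
      exact this
    · rw [hn]
      have := Nat.ceil_natCast (R := ℝ) (n + 1)
      push_cast at this
      rw [this]; omega
  · right
    push Not at h
    have h1 := Nat.floor_le ht.le
    have h2 := Nat.lt_floor_add_one t
    have h3 : (⌊t⌋₊ : ℝ) < t := by
      rcases h1.lt_or_eq with h4 | h4
      · exact h4
      · exfalso
        cases hf : ⌊t⌋₊ with
        | zero => rw [hf] at h4; push_cast at h4; linarith
        | succ n => rw [hf] at h4; push_cast at h4; exact h n h4.symm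
    refine ⟨⌊t⌋₊, h3, h2, rfl, ?_⟩
    have : ⌈t⌉₊ = ⌊t⌋₊ + 1 := by
      rw [Nat.ceil_eq_iff (by omega)]
      push_cast
      exact ⟨by simpa using h3, h2.le⟩
    omega

variable {H D C}

theorem g_alive (hC : 0 < C) (hD : ∀ i, D i = 1 ∨ D i = -1) (i : ι) (t : ℝ) (ht : 0 ≤ t) :
    Alive (C : ℝ) (fun i => (H i : ℝ)) (gx H D C) i t ↔ gA H D C ⌊t⌋₊ i := by
  constructor
  · intro hA
    by_contra hn
    have key : ∀ n : ℕ, ¬ gA H D C n i → ∃ m, 1 ≤ m ∧ m ≤ n ∧ C ∣ gP H D C m i - H i := by
      intro n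
      induction n with
      | zero => intro h; exact absurd trivial h
      | succ n ih =>
        intro h
        rw [gA_succ] at h
        by_cases h1 : gA H D C n i
        · refine ⟨n + 1, by omega, le_rfl, ?_⟩
          by_contra h2
          exact h ⟨h1, h2⟩
        · obtain ⟨m, a1, a2, a3⟩ := ih h1
          exact ⟨m, a1, by omega, a3⟩
    obtain ⟨m, a1, a2, z, hz⟩ := key _ hn
    have hmt : (m : ℝ) ≤ t := le_trans (by exact_mod_cast a2) (Nat.floor_le ht)
    apply hA m (by exact_mod_cast a1) hmt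
    refine ⟨z, ?_⟩
    rw [gx_eq H D C i m m le_rfl (by linarith)]
    have : (gP H D C m i : ℝ) = H i + C * z := by
      have : gP H D C m i = H i + C * z := by linarith
      rw [this]; push_cast; ring
    rw [this]; ring
  · intro hA s hs hst
    rintro ⟨z, hz⟩
    rcases cases_time s hs with ⟨n, hn, hf, -⟩ | ⟨n, h1, h2, hf, -⟩
    · have hle : n + 1 ≤ ⌊t⌋₊ := by rw [← hf]; exact Nat.floor_mono hst
      have hA' := gA_mono H D C hle i hA
      apply ((gA_succ H D C n i).1 hA').2
      refine ⟨z, ?_⟩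
      rw [gx_eq H D C i (n + 1) s (by rw [hn]; push_cast; linarith)
        (by rw [hn]; push_cast; linarith), hn] at hz
      push_cast at hz
      have : (gP H D C (n + 1) i : ℝ) = H i + z * C := by linarith
      have : gP H D C (n + 1) i = H i + z * C := by exact_mod_cast this
      rw [this]; ring
    · have hle : n ≤ ⌊t⌋₊ := by rw [← hf]; exact Nat.floor_mono hst
      have hA' := gA_mono H D C hle i hA
      rw [gx_eq H D C i n s h1.le h2.le] at hz
      have hv := gV_pm H D C hD n i hA'
      have hint : ∃ m : ℤ, s - n = m := by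
        rcases hv with h | h
        · refine ⟨H i + z * C - gP H D C n i, ?_⟩
          rw [h] at hz; push_cast at hz ⊢; linarith
        · refine ⟨-(H i + z * C - gP H D C n i), ?_⟩
          rw [h] at hz; push_cast at hz ⊢; linarith
      obtain ⟨m, hm⟩ := hint
      have b1 : (0 : ℝ) < m := by rw [← hm]; linarith
      have b2 : (m : ℝ) < 1 := by rw [← hm]; linarith
      have b3 : 0 < m := by exact_mod_cast b1
      have b4 : m < 1 := by exact_mod_cast b2
      omega

end

theorem grid : S_GRID := by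
  intro ι _ _ H D C hC hCe hH hD hdist
  have hal := fun i t ht => g_alive (H := H) (D := D) hC hD i t ht
  refine ⟨{ h := fun i => (H i : ℝ), d := fun i => (D i : ℝ), x := gx H D C,
            v := fun i t => (gV H D C ⌊t⌋₊ i : ℝ), w := fun i t => (gV H D C (⌈t⌉₊ - 1) i : ℝ),
            homes := ?_, dir := ?_, start := ?_, init := ?_, right := ?_, left := ?_,
            rest := ?_, free := ?_, bounce := ?_ }, fun i => rfl, fun i => rfl⟩
  · intro i k hik z hz
    apply hdist i k hik z
    exact_mod_cast hz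
  · intro i
    rcases hD i with h | h
    · left; rw [h]; norm_num
    · right; rw [h]; norm_num
  · intro i
    rw [gx_eq H D C i 0 0 (by norm_num) (by norm_num)]
    have : gP H D C 0 i = H i := rfl
    rw [this]; simp
  · intro i
    have : gV H D C 0 i = D i := rfl
    simp [this]
  · intro i t ht
    have h1 := Nat.floor_le ht
    have h2 := Nat.lt_floor_add_one t
    refine ⟨⌊t⌋₊ + 1 - t, by linarith, fun s h3 h4 => ?_⟩
    rw [gx_eq H D C i ⌊t⌋₊ s (by linarith) (by linarith),
      gx_eq H D C i ⌊t⌋₊ t h1 h2.le]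
    ring
  · intro i t ht
    have h1 : ((⌈t⌉₊ - 1 : ℕ) : ℝ) < t ∧ t ≤ ((⌈t⌉₊ - 1 : ℕ) : ℝ) + 1 := by
      rcases cases_time t ht with ⟨n, hn, -, hc⟩ | ⟨n, h1, h2, -, hc⟩
      · rw [hc, hn]; constructor <;> linarith
      · rw [hc]; exact ⟨h1, h2.le⟩
    refine ⟨t - ((⌈t⌉₊ - 1 : ℕ) : ℝ), by linarith [h1.1], fun s h3 h4 => ?_⟩
    rw [gx_eq H D C i (⌈t⌉₊ - 1) s (by linarith) (by linarith [h1.2]),
      gx_eq H D C i (⌈t⌉₊ - 1) t h1.1.le h1.2]
    ring
  · intro i t ht hA
    rw [hal i t ht] at hA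
    rw [gV_dead H D C _ i hA]; simp
  · intro i t ht hA hk
    rw [hal i t ht.le] at hA
    rcases cases_time t ht with ⟨n, hn, hf, hc⟩ | ⟨n, h1, h2, hf, hc⟩
    · rw [hf] at hA
      rw [hf, hc, gV_free H D C n i hA]
      rintro ⟨k, hki, hkA, z, hz⟩
      apply hk k hki
      · rw [hal k t ht.le, hf]; exact hkA
      · refine ⟨-z, ?_⟩
        rw [gx_eq H D C i (n + 1) t (by rw [hn]; push_cast; linarith)
          (by rw [hn]; push_cast; linarith), gx_eq H D C k (n + 1) t
          (by rw [hn]; push_cast; linarith) (by rw [hn]; push_cast; linarith), hn]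
        have hz' : gP H D C (n + 1) k = gP H D C (n + 1) i + C * z := by linarith
        rw [hz']
        push_cast
        ring
    · rw [hf, hc]
  · intro i k t ht hki hAi hAk hm
    rw [hal i t ht.le] at hAi
    rw [hal k t ht.le] at hAk
    obtain ⟨z, hz⟩ := hm
    rcases cases_time t ht with ⟨n, hn, hf, hc⟩ | ⟨n, h1, h2, hf, hc⟩
    · rw [hf] at hAi hAk
      rw [gx_eq H D C i (n + 1) t (by rw [hn]; push_cast; linarith)
          (by rw [hn]; push_cast; linarith), gx_eq H D C k (n + 1) t
          (by rw [hn]; push_cast; linarith) (by rw [hn]; push_cast; linarith), hn] at hz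
      push_cast at hz
      rw [hf, hc, g_opp H D C hD hdist n i k (Ne.symm hki) hAi hAk]
      refine ⟨z, ?_⟩
      have : (gP H D C (n + 1) i : ℝ) - gP H D C (n + 1) k = C * z := by linarith
      exact_mod_cast this
    · exfalso
      rw [hf] at hAi hAk
      rw [gx_eq H D C i n t h1.le h2.le, gx_eq H D C k n t h1.le h2.le] at hz
      have hvi := gV_pm H D C hD n i hAi
      have hvk := gV_pm H D C hD n k hAk
      have hinj := g_inj H D C hD hdist n i k (Ne.symm hki) hAi hAk
      have hpi := gP_par H D C hH hD n i hAi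
      have hpk := gP_par H D C hH hD n k hAk
      -- the case of equal velocities
      have heq : gV H D C n i = gV H D C n k → False := by
        intro hV
        apply hinj _ hV
        rw [hV] at hz
        refine ⟨z, ?_⟩
        have : (gP H D C n i : ℝ) - gP H D C n k = C * z := by linarith
        exact_mod_cast this
      -- opposite velocities
      have hodd : ∀ m : ℤ, (2 : ℝ) * (t - n) = m → m = 1 := by
        intro m hm
        have b1 : (0 : ℝ) < m := by rw [← hm]; linarith
        have b2 : (m : ℝ) < 2 := by rw [← hm]; linarith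
        have b3 : 0 < m := by exact_mod_cast b1
        have b4 : m < 2 := by exact_mod_cast b2
        omega
      obtain ⟨a1, ha1⟩ := hpi
      obtain ⟨a2, ha2⟩ := hpk
      obtain ⟨a3, ha3⟩ := hCe
      rcases hvi with h | h <;> rcases hvk with h' | h'
      · exact heq (by rw [h, h'])
      · rw [h, h'] at hz
        have := hodd (gP H D C n k - gP H D C n i + z * C) (by push_cast at hz ⊢; linarith)
        have e1 : gP H D C n i = a1 + a1 + n := by linarith
        have e2 : gP H D C n k = a2 + a2 + n := by linarith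
        have e3 : z * C = 2 * (z * a3) := by rw [ha3]; ring
        omega
      · rw [h, h'] at hz
        have := hodd (-(gP H D C n k - gP H D C n i + z * C)) (by push_cast at hz ⊢; linarith)
        have e1 : gP H D C n i = a1 + a1 + n := by linarith
        have e2 : gP H D C n k = a2 + a2 + n := by linarith
        have e3 : z * C = 2 * (z * a3) := by rw [ha3]; ring
        omega
      · exact heq (by rw [h, h'])

end Q32.RB
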