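import Mathlib
import Pool.Agent.Q32.RB.Base

/-!
# Bouncing robots: the possible event times
-/

namespace Q32.RB

open Finset

theorem coset_sep {L : ℝ} (hL : 0 < L) (C : ℝ) :
    ∃ δ > 0, ∀ z : ℤ, C + z * L ≠ 0 → δ ≤ |C + z * L| := by
  by_cases h : ∃ z0 : ℤ, C = z0 * L
  · obtain ⟨z0, rfl⟩ := h
    refine ⟨L, hL, fun z hz => ?_⟩
    rw [← add_mul, abs_mul, abs_of_pos hL]
    have h0 : (z0 : ℝ) + z ≠ 0 := by
      intro h
      apply hz
      rw [← add_mul, h, zero_mul]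
    have h1 : z0 + z ≠ 0 := by exact_mod_cast h0
    have h2 : 1 ≤ |z0 + z| := Int.one_le_abs h1
    have h3 : (1 : ℝ) ≤ |(z0 : ℝ) + z| := by exact_mod_cast h2
    nlinarith
  · push Not at h
    obtain ⟨δ, hδ, hδ'⟩ := lattice_nbhd hL h
    refine ⟨δ, hδ, fun z _ => ?_⟩
    by_contra hn
    push Not at hn
    apply hδ' (((-z : ℤ) : ℝ) * L) _ (-z) rfl
    have : ((-z : ℤ) : ℝ) * L - C = -(C + z * L) := by push_cast; ring
    rw [this, abs_neg]
    exact hn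

/-- possible event times -/
def Ev {ι : Type} (L : ℝ) (h : ι → ℝ) (t : ℝ) : Prop :=
  ∃ a b : ι, ∃ z : ℤ, t = h b - h a + z * L ∨ 2 * t = h b - h a + z * L

theorem ev_sep {ι : Type} [Fintype ι] {L : ℝ} (hL : 0 < L) (h : ι → ℝ) :
    ∃ δ > 0, ∀ s t, Ev L h s → Ev L h t → s ≠ t → δ ≤ |s - t| := by
  let c : ι × ι × Bool → ℝ := fun q => (if q.2.2 then 2 else 1) * (h q.2.1 - h q.1)
  obtain ⟨δ, hδ, hs⟩ := exists_eps
    (fun (q : (ι × ι × Bool) × (ι × ι × Bool)) ε => ∀ z : ℤ, c q.1 - c q.2 + z * L ≠ 0 →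
      ε ≤ |c q.1 - c q.2 + z * L|) (fun q => coset_sep hL _)
    (fun q ε ε' h1 _ h2 z hz => h2.trans (h1 z hz))
  have hc : ∀ s, Ev L h s → ∃ q : ι × ι × Bool, ∃ z : ℤ, 2 * s = c q + z * L := by
    rintro s ⟨a, b, z, hz | hz⟩
    · exact ⟨(a, b, true), 2 * z, by simp only [c, if_true]; push_cast; rw [hz]; ring⟩
    · exact ⟨(a, b, false), z, by simp only [c]; rw [hz]; simp⟩
  refine ⟨δ / 2, by positivity, fun s t hs' ht' hne => ?_⟩
  obtain ⟨q, z, hz⟩ := hc s hs'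
  obtain ⟨q', z', hz'⟩ := hc t ht'
  have e1 : c q - c q' + ((z - z' : ℤ) : ℝ) * L = 2 * (s - t) := by push_cast; linarith
  have h1 := hs (q, q') (z - z') (by
    dsimp only
    rw [e1]
    intro h0
    apply hne
    linarith)
  dsimp only at h1
  rw [e1, abs_mul, abs_of_pos (show (0 : ℝ) < 2 by norm_num)] at h1
  linarith

/-- a sequence of times containing all events -/
structure Tm (E : ℝ → Prop) (τ : ℕ → ℝ) (N N' : ℝ → ℕ) : Prop where
  zero : τ 0 = 0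
  mono : StrictMono τ
  noev : ∀ n s, τ n < s → s < τ (n + 1) → ¬ E s
  N1 : ∀ t, 0 ≤ t → τ (N t) ≤ t ∧ t < τ (N t + 1)
  N2 : ∀ t, 0 < t → τ (N' t) < t ∧ t ≤ τ (N' t + 1)

theorem exists_tm {E : ℝ → Prop} {δ : ℝ} (hδ : 0 < δ)
    (hE : ∀ s t, E s → E t → s ≠ t → δ ≤ |s - t|) : ∃ τ N N', Tm E τ N N' := by
  have h1 : ∀ n : ℕ, ∃ e : ℝ, n * δ < e ∧ e ≤ (n + 1) * δ ∧
      ∀ s, E s → n * δ < s → s ≤ (n + 1) * δ → s = e := by
    intro n
    by_cases h : ∃ s, E s ∧ n * δ < s ∧ s ≤ (n + 1) * δ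
    · obtain ⟨e, h1, h2, h3⟩ := h
      refine ⟨e, h2, h3, fun s h4 h5 h6 => ?_⟩
      by_contra hne
      have := hE s e h4 h1 hne
      have h7 : |s - e| < δ := by rw [abs_lt]; constructor <;> linarith
      linarith
    · push Not at h
      refine ⟨(n + 1) * δ, by linarith, le_rfl, fun s h4 h5 h6 => ?_⟩
      exact absurd h6 (not_le.2 (h s h4 h5))
  choose e he1 he2 he3 using h1
  let τ : ℕ → ℝ := fun n => Nat.casesOn n 0 e
  have t0 : τ 0 = 0 := rfl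
  have ts : ∀ n, τ (n + 1) = e n := fun n => rfl
  have hlow : ∀ n : ℕ, n * δ < τ (n + 1) := fun n => by rw [ts]; exact he1 n
  have hup : ∀ n : ℕ, τ n ≤ n * δ := by
    intro n
    cases n with
    | zero => rw [t0]; simp
    | succ n => rw [ts]; push_cast; exact he2 n
  have hmono : StrictMono τ := strictMono_nat_of_lt_succ (fun n => (hup n).trans_lt (hlow n))
  have hun : ∀ t : ℝ, ∃ n, t < τ (n + 1) := by
    intro t
    obtain ⟨n, hn⟩ := exists_nat_gt (t / δ)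
    refine ⟨n, ?_⟩
    rw [div_lt_iff₀ hδ] at hn
    exact hn.trans (hlow n)
  have hN : ∀ t : ℝ, ∃ n, 0 ≤ t → τ n ≤ t ∧ t < τ (n + 1) := by
    intro t
    classical
    have hf := Nat.find_spec (hun t)
    refine ⟨Nat.find (hun t), fun ht => ⟨?_, hf⟩⟩
    cases hc : Nat.find (hun t) with
    | zero => rw [t0]; exact ht
    | succ m =>
      by_contra hn
      push Not at hn
      exact Nat.find_min (hun t) (m := m) (by omega) hn
  have hun' : ∀ t : ℝ, ∃ n, t ≤ τ (n + 1) := fun t => (hun t).imp (fun n hn => hn.le)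
  have hN' : ∀ t : ℝ, ∃ n, 0 < t → τ n < t ∧ t ≤ τ (n + 1) := by
    intro t
    classical
    have hf := Nat.find_spec (hun' t)
    refine ⟨Nat.find (hun' t), fun ht => ⟨?_, hf⟩⟩
    cases hc : Nat.find (hun' t) with
    | zero => rw [t0]; exact ht
    | succ m =>
      by_contra hn
      push Not at hn
      exact Nat.find_min (hun' t) (m := m) (by omega) hn
  choose N hN using hN
  choose N' hN' using hN'
  refine ⟨τ, N, N', t0, hmono, ?_, hN, hN'⟩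
  intro n s h1 h2 hs
  rcases le_or_gt s (n * δ) with h3 | h3
  · cases n with
    | zero => rw [t0] at h1; simp at h3; linarith
    | succ n =>
      rw [ts] at h1
      push_cast at h3
      have h4 := he3 n s hs (by linarith [he1 n]) h3
      linarith
  · have h4 := he3 n s hs h3 (by rw [ts] at h2; linarith [he2 n])
    rw [ts] at h2
    linarith

theorem Tm.cases {E : ℝ → Prop} {τ : ℕ → ℝ} {N N' : ℝ → ℕ} (X : Tm E τ N N') (t : ℝ)
    (ht : 0 < t) : (∃ n : ℕ, t = τ (n + 1) ∧ N t = n + 1 ∧ N' t = n) ∨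
      (∃ n : ℕ, τ n < t ∧ t < τ (n + 1) ∧ N t = n ∧ N' t = n) := by
  obtain ⟨h1, h2⟩ := X.N1 t ht.le
  obtain ⟨h3, h4⟩ := X.N2 t ht
  have h5 : N' t < N t + 1 := X.mono.lt_iff_lt.1 (h3.trans h2)
  have h6 : N t ≤ N' t + 1 := X.mono.le_iff_le.1 (h1.trans h4)
  have h7 : N t = N' t ∨ N t = N' t + 1 := by omega
  rcases h7 with h | h
  · right
    exact ⟨N t, by rw [h]; exact h3, h2, rfl, h.symm⟩
  · left
    refine ⟨N' t, ?_, h, rfl⟩
    rw [h] at h1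
    exact le_antisymm h4 h1

theorem Tm.nonneg {E : ℝ → Prop} {τ : ℕ → ℝ} {N N' : ℝ → ℕ} (X : Tm E τ N N') (n : ℕ) :
    0 ≤ τ n := by
  rw [← X.zero]
  exact X.mono.monotone (Nat.zero_le n)

theorem Tm.N_mono {E : ℝ → Prop} {τ : ℕ → ℝ} {N N' : ℝ → ℕ} (X : Tm E τ N N') {s t : ℝ}
    (hs : 0 ≤ s) (hst : s ≤ t) : N s ≤ N t := by
  obtain ⟨h1, -⟩ := X.N1 s hs
  obtain ⟨-, h2⟩ := X.N1 t (hs.trans hst)
  have : N s < N t + 1 := X.mono.lt_iff_lt.1 (by linarith)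
  omega

theorem Tm.N_eq {E : ℝ → Prop} {τ : ℕ → ℝ} {N N' : ℝ → ℕ} (X : Tm E τ N N') {n : ℕ} {t : ℝ}
    (h1 : τ n ≤ t) (h2 : t < τ (n + 1)) : N t = n := by
  have h0 := (X.nonneg n).trans h1
  obtain ⟨h3, h4⟩ := X.N1 t h0
  have h5 : N t < n + 1 := X.mono.lt_iff_lt.1 (by linarith)
  have h6 : n < N t + 1 := X.mono.lt_iff_lt.1 (by linarith)
  omega

end Q32.RB
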