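import Mathlib
import Pool.Agent.Q32.RB.Time
import Pool.Agent.Q32.RB.Grid

/-!
# Bouncing robots: every configuration has a motion
-/

namespace Q32.RB

open Finset

/-- one step of the motion: positions, velocities, living robots -/
noncomputable def rstep {ι : Type} (L : ℝ) (h : ι → ℝ) (Δ : ℝ)
    (s : (ι → ℝ) × (ι → ℝ) × (ι → Prop)) : (ι → ℝ) × (ι → ℝ) × (ι → Prop) :=
  let P' : ι → ℝ := fun i => s.1 i + s.2.1 i * Δ
  let A' : ι → Prop := fun i => s.2.2 i ∧ ¬ ∃ z : ℤ, P' i = h i + z * L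
  (P', fun i => @ite ℝ (A' i) (Classical.propDecidable _)
    (@ite ℝ (∃ k, k ≠ i ∧ A' k ∧ ∃ z : ℤ, P' i = P' k + z * L) (Classical.propDecidable _)
      (- s.2.1 i) (s.2.1 i)) 0, A')

/-- the motion at the event times -/
noncomputable def rst {ι : Type} (L : ℝ) (h d : ι → ℝ) (τ : ℕ → ℝ) :
    ℕ → (ι → ℝ) × (ι → ℝ) × (ι → Prop)
  | 0 => (h, d, fun _ => True)
  | n + 1 => rstep L h (τ (n + 1) - τ n) (rst L h d τ n)

section

variable {ι : Type} (L : ℝ) (h d : ι → ℝ) (τ : ℕ → ℝ)

noncomputable def rP (n : ℕ) (i : ι) : ℝ := (rst L h d τ n).1 i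
noncomputable def rV (n : ℕ) (i : ι) : ℝ := (rst L h d τ n).2.1 i
def rA (n : ℕ) (i : ι) : Prop := (rst L h d τ n).2.2 i

theorem rP_succ (n : ℕ) (i : ι) :
    rP L h d τ (n + 1) i = rP L h d τ n i + rV L h d τ n i * (τ (n + 1) - τ n) := rfl

theorem rA_succ (n : ℕ) (i : ι) :
    rA L h d τ (n + 1) i ↔ rA L h d τ n i ∧ ¬ ∃ z : ℤ, rP L h d τ (n + 1) i = h i + z * L :=
  Iff.rfl

theorem rV_dead (n : ℕ) (i : ι) (hA : ¬ rA L h d τ n i) : rV L h d τ n i = 0 := by
  cases n with
  | zero => exact absurd trivial hA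
  | succ n => exact @if_neg _ (Classical.propDecidable _) hA _ _ _

theorem rV_free (n : ℕ) (i : ι) (hA : rA L h d τ (n + 1) i)
    (h' : ¬ ∃ k, k ≠ i ∧ rA L h d τ (n + 1) k ∧
      ∃ z : ℤ, rP L h d τ (n + 1) i = rP L h d τ (n + 1) k + z * L) :
    rV L h d τ (n + 1) i = rV L h d τ n i :=
  (@if_pos _ (Classical.propDecidable _) hA _ _ _).trans
    (@if_neg _ (Classical.propDecidable _) h' _ _ _)

theorem rV_bounce (n : ℕ) (i : ι) (hA : rA L h d τ (n + 1) i)
    (h' : ∃ k, k ≠ i ∧ rA L h d τ (n + 1) k ∧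
      ∃ z : ℤ, rP L h d τ (n + 1) i = rP L h d τ (n + 1) k + z * L) :
    rV L h d τ (n + 1) i = - rV L h d τ n i :=
  (@if_pos _ (Classical.propDecidable _) hA _ _ _).trans
    (@if_pos _ (Classical.propDecidable _) h' _ _ _)

theorem rA_mono {m n : ℕ} (hmn : m ≤ n) (i : ι) (hA : rA L h d τ n i) : rA L h d τ m i := by
  induction n with
  | zero =>
    have : m = 0 := by omega
    rw [this]; exact hA
  | succ n ih =>
    rcases Nat.lt_or_ge m (n + 1) with h1 | h1
    · exact ih (by omega) ((rA_succ L h d τ n i).1 hA).1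
    · have : m = n + 1 := by omega
      rw [this]; exact hA

theorem rV_pm (hd : ∀ i, d i = 1 ∨ d i = -1) (n : ℕ) (i : ι) (hA : rA L h d τ n i) :
    rV L h d τ n i = 1 ∨ rV L h d τ n i = -1 := by
  induction n with
  | zero => exact hd i
  | succ n ih =>
    have h1 := ih ((rA_succ L h d τ n i).1 hA).1
    by_cases h' : ∃ k, k ≠ i ∧ rA L h d τ (n + 1) k ∧
      ∃ z : ℤ, rP L h d τ (n + 1) i = rP L h d τ (n + 1) k + z * L
    · rw [rV_bounce L h d τ n i hA h']
      rcases h1 with h1 | h1 <;> rw [h1]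
      · right; rfl
      · left; norm_num
    · rw [rV_free L h d τ n i hA h']
      exact h1

theorem meet_symm {x y : ℝ} {L : ℝ} (hm : ∃ z : ℤ, x = y + z * L) : ∃ z : ℤ, y = x + z * L := by
  obtain ⟨z, hz⟩ := hm
  exact ⟨-z, by push_cast; linarith⟩

theorem r_inj (hdist : ∀ i k, i ≠ k → ∀ z : ℤ, h i ≠ h k + z * L) (n : ℕ) (i k : ι)
    (hik : i ≠ k) (hi : rA L h d τ n i) (hk : rA L h d τ n k)
    (hm : ∃ z : ℤ, rP L h d τ n i = rP L h d τ n k + z * L) :
    rV L h d τ n i ≠ rV L h d τ n k := by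
  induction n generalizing i k with
  | zero =>
    intro _
    obtain ⟨z, hz⟩ := hm
    exact hdist i k hik z hz
  | succ n ih =>
    intro hV
    rw [rV_bounce L h d τ n i hi ⟨k, hik.symm, hk, hm⟩,
      rV_bounce L h d τ n k hk ⟨i, hik, hi, meet_symm hm⟩] at hV
    have hV' : rV L h d τ n i = rV L h d τ n k := by linarith
    apply ih i k hik ((rA_succ L h d τ n i).1 hi).1 ((rA_succ L h d τ n k).1 hk).1 _ hV'
    obtain ⟨z, hz⟩ := hm
    refine ⟨z, ?_⟩
    rw [rP_succ, rP_succ, hV'] at hz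
    linarith

/-- the velocities before a collision are opposite -/
theorem r_opp (hd : ∀ i, d i = 1 ∨ d i = -1)
    (hdist : ∀ i k, i ≠ k → ∀ z : ℤ, h i ≠ h k + z * L) (n : ℕ) (i k : ι)
    (hik : i ≠ k) (hi : rA L h d τ (n + 1) i) (hk : rA L h d τ (n + 1) k)
    (hm : ∃ z : ℤ, rP L h d τ (n + 1) i = rP L h d τ (n + 1) k + z * L) :
    rV L h d τ (n + 1) i = rV L h d τ n k := by
  have hi' := ((rA_succ L h d τ n i).1 hi).1
  have hk' := ((rA_succ L h d τ n k).1 hk).1
  rw [rV_bounce L h d τ n i hi ⟨k, hik.symm, hk, hm⟩]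
  have hne : rV L h d τ n i ≠ rV L h d τ n k := by
    intro hV
    apply r_inj L h d τ hdist n i k hik hi' hk' _ hV
    obtain ⟨z, hz⟩ := hm
    refine ⟨z, ?_⟩
    rw [rP_succ, rP_succ, hV] at hz
    linarith
  rcases rV_pm L h d τ hd n i hi' with h1 | h1 <;> rcases rV_pm L h d τ hd n k hk' with h2 | h2
  · exact absurd (h1.trans h2.symm) hne
  · rw [h1, h2]
  · rw [h1, h2]; norm_num
  · exact absurd (h1.trans h2.symm) hne

/-- every living robot carries a token -/
theorem r_tok (hd : ∀ i, d i = 1 ∨ d i = -1)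
    (hdist : ∀ i k, i ≠ k → ∀ z : ℤ, h i ≠ h k + z * L) (h0 : τ 0 = 0) (n : ℕ) (i : ι)
    (hi : rA L h d τ n i) :
    ∃ k, rV L h d τ n i = d k ∧ ∃ z : ℤ, rP L h d τ n i = h k + d k * τ n + z * L := by
  induction n generalizing i with
  | zero =>
    refine ⟨i, rfl, 0, ?_⟩
    show h i = h i + d i * τ 0 + ((0 : ℤ) : ℝ) * L
    rw [h0]; simp
  | succ n ih =>
    have step : ∀ j, rA L h d τ n j → ∃ k, rV L h d τ n j = d k ∧
        ∃ z : ℤ, rP L h d τ (n + 1) j = h k + d k * τ (n + 1) + z * L := by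
      intro j hj
      obtain ⟨k, h1, z, hz⟩ := ih j hj
      refine ⟨k, h1, z, ?_⟩
      rw [rP_succ, hz, h1]
      ring
    by_cases h' : ∃ k, k ≠ i ∧ rA L h d τ (n + 1) k ∧
      ∃ z : ℤ, rP L h d τ (n + 1) i = rP L h d τ (n + 1) k + z * L
    · obtain ⟨j, hji, hj, hm⟩ := h'
      rw [r_opp L h d τ hd hdist n i j hji.symm hi hj hm]
      obtain ⟨k, h1, z, hz⟩ := step j ((rA_succ L h d τ n j).1 hj).1
      obtain ⟨y, hy⟩ := hm
      refine ⟨k, h1, z + y, ?_⟩
      rw [hy, hz]
      push_cast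
      ring
    · rw [rV_free L h d τ n i hi h']
      exact step i ((rA_succ L h d τ n i).1 hi).1

/-- position -/
noncomputable def rx (N : ℝ → ℕ) (i : ι) (t : ℝ) : ℝ :=
  rP L h d τ (N t) i + rV L h d τ (N t) i * (t - τ (N t))

variable {L h d τ} {N N' : ℝ → ℕ}

theorem rx_eq (X : Tm (Ev L h) τ N N') (i : ι) (n : ℕ) (t : ℝ) (h1 : τ n ≤ t)
    (h2 : t ≤ τ (n + 1)) :
    rx L h d τ N i t = rP L h d τ n i + rV L h d τ n i * (t - τ n) := by
  unfold rx
  rcases h2.lt_or_eq with h' | h'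
  · rw [X.N_eq h1 h']
  · have h3 : N t = n + 1 := X.N_eq h'.ge (by rw [h']; exact X.mono (by omega))
    rw [h3, rP_succ, h']
    ring

/-- no events between the event times -/
theorem r_nohome (X : Tm (Ev L h) τ N N') (hd : ∀ i, d i = 1 ∨ d i = -1)
    (hdist : ∀ i k, i ≠ k → ∀ z : ℤ, h i ≠ h k + z * L) (n : ℕ) (i : ι) (hi : rA L h d τ n i)
    (t : ℝ) (h1 : τ n < t) (h2 : t < τ (n + 1)) : ¬ ∃ z : ℤ, rx L h d τ N i t = h i + z * L := by
  rintro ⟨z, hz⟩
  apply X.noev n t h1 h2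
  obtain ⟨k, h3, y, hy⟩ := r_tok L h d τ hd hdist X.zero n i hi
  rw [rx_eq X i n t h1.le h2.le, h3, hy] at hz
  have hz' : d k * t = h i - h k + (z - y) * L := by linarith
  rcases hd k with h4 | h4
  · refine ⟨k, i, z - y, Or.inl ?_⟩
    rw [h4] at hz'
    push_cast
    linarith
  · refine ⟨i, k, y - z, Or.inl ?_⟩
    rw [h4] at hz'
    push_cast
    linarith

theorem r_nomeet (X : Tm (Ev L h) τ N N') (hd : ∀ i, d i = 1 ∨ d i = -1)
    (hdist : ∀ i k, i ≠ k → ∀ z : ℤ, h i ≠ h k + z * L) (n : ℕ) (i k : ι) (hik : i ≠ k)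
    (hi : rA L h d τ n i) (hk : rA L h d τ n k)
    (t : ℝ) (h1 : τ n < t) (h2 : t < τ (n + 1)) :
    ¬ ∃ z : ℤ, rx L h d τ N i t = rx L h d τ N k t + z * L := by
  rintro ⟨z, hz⟩
  obtain ⟨a, h3, y, hy⟩ := r_tok L h d τ hd hdist X.zero n i hi
  obtain ⟨b, h4, y', hy'⟩ := r_tok L h d τ hd hdist X.zero n k hk
  rw [rx_eq X i n t h1.le h2.le, rx_eq X k n t h1.le h2.le] at hz
  by_cases hV : rV L h d τ n i = rV L h d τ n k
  · apply r_inj L h d τ hdist n i k hik hi hk _ hV
    rw [hV] at hz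
    exact ⟨z, by linarith⟩
  · apply X.noev n t h1 h2
    rw [h3, h4, hy, hy'] at hz
    rw [h3, h4] at hV
    have hz' : d a * t - d b * t = h b - h a + (z + y' - y) * L := by linarith
    rcases hd a with h5 | h5 <;> rcases hd b with h6 | h6
    · exact absurd (h5.trans h6.symm) hV
    · refine ⟨a, b, z + y' - y, Or.inr ?_⟩
      rw [h5, h6] at hz'
      push_cast
      linarith
    · refine ⟨b, a, -(z + y' - y), Or.inr ?_⟩
      rw [h5, h6] at hz'
      push_cast
      linarith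
    · exact absurd (h5.trans h6.symm) hV

theorem r_alive (X : Tm (Ev L h) τ N N') (hd : ∀ i, d i = 1 ∨ d i = -1)
    (hdist : ∀ i k, i ≠ k → ∀ z : ℤ, h i ≠ h k + z * L) (i : ι) (t : ℝ) (ht : 0 ≤ t) :
    Alive L h (rx L h d τ N) i t ↔ rA L h d τ (N t) i := by
  constructor
  · intro hA
    by_contra hn
    have key : ∀ n : ℕ, ¬ rA L h d τ n i → ∃ m, 1 ≤ m ∧ m ≤ n ∧
        ∃ z : ℤ, rP L h d τ m i = h i + z * L := by
      intro n
      induction n with
      | zero => intro h; exact absurd trivial h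
      | succ n ih =>
        intro hn
        rw [rA_succ] at hn
        by_cases h1 : rA L h d τ n i
        · refine ⟨n + 1, by omega, le_rfl, ?_⟩
          by_contra h2
          exact hn ⟨h1, h2⟩
        · obtain ⟨m, a1, a2, a3⟩ := ih h1
          exact ⟨m, a1, by omega, a3⟩
    obtain ⟨m, a1, a2, z, hz⟩ := key _ hn
    have hmt : τ m ≤ t := (X.mono.monotone a2).trans (X.N1 t ht).1
    have hm0 : 0 < τ m := by
      have := X.mono (show 0 < m by omega)
      rwa [X.zero] at this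
    apply hA (τ m) hm0 hmt
    refine ⟨z, ?_⟩
    rw [rx_eq X i m (τ m) le_rfl (X.mono (by omega)).le, hz]
    ring
  · intro hA s hs hst
    have hle := X.N_mono hs.le hst
    have hA' := rA_mono L h d τ hle i hA
    rcases X.cases s hs with ⟨n, hn, hf, -⟩ | ⟨n, h1, h2, hf, -⟩
    · rw [hf] at hA'
      rintro ⟨z, hz⟩
      apply ((rA_succ L h d τ n i).1 hA').2
      refine ⟨z, ?_⟩
      rw [rx_eq X i (n + 1) s hn.ge (by rw [hn]; exact (X.mono (by omega)).le), hn] at hz
      linarith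
    · rw [hf] at hA'
      exact r_nohome X hd hdist n i hA' s h1 h2

end

/-- every configuration has a motion -/
theorem exists_motion {ι : Type} [Fintype ι] {L : ℝ} (hL : 0 < L) (h d : ι → ℝ)
    (hdist : ∀ i k, i ≠ k → ∀ z : ℤ, h i ≠ h k + z * L) (hd : ∀ i, d i = 1 ∨ d i = -1) :
    ∃ M : Motion ι L, M.h = h ∧ M.d = d := by
  obtain ⟨δ, hδ, hE⟩ := ev_sep hL h
  obtain ⟨τ, N, N', X⟩ := exists_tm hδ hE
  have hal := fun i t ht => r_alive (d := d) X hd hdist i t ht
  refine ⟨{ h := h, d := d, x := rx L h d τ N,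
            v := fun i t => rV L h d τ (N t) i, w := fun i t => rV L h d τ (N' t) i,
            homes := hdist, dir := hd, start := ?_, init := ?_, right := ?_, left := ?_,
            rest := ?_, free := ?_, bounce := ?_ }, rfl, rfl⟩
  · intro i
    rw [rx_eq X i 0 0 X.zero.le (X.nonneg 1), X.zero]
    have : rP L h d τ 0 i = h i := rfl
    rw [this]; simp
  · intro i
    have h0 : N 0 = 0 := X.N_eq X.zero.le (by have := X.mono (show 0 < 1 by norm_num)
                                              rwa [X.zero] at this)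
    show rV L h d τ (N 0) i = d i
    rw [h0]
    rfl
  · intro i t ht
    obtain ⟨h1, h2⟩ := X.N1 t ht
    refine ⟨τ (N t + 1) - t, by linarith, fun s h3 h4 => ?_⟩
    rw [rx_eq X i (N t) s (by linarith) (by linarith), rx_eq X i (N t) t h1 h2.le]
    ring
  · intro i t ht
    obtain ⟨h1, h2⟩ := X.N2 t ht
    refine ⟨t - τ (N' t), by linarith, fun s h3 h4 => ?_⟩
    rw [rx_eq X i (N' t) s (by linarith) (by linarith), rx_eq X i (N' t) t h1.le h2]
    ring
  · intro i t ht hA
    rw [hal i t ht] at hA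
    exact rV_dead L h d τ _ i hA
  · intro i t ht hA hk
    rw [hal i t ht.le] at hA
    show rV L h d τ (N t) i = rV L h d τ (N' t) i
    rcases X.cases t ht with ⟨n, hn, hf, hc⟩ | ⟨n, h1, h2, hf, hc⟩
    · rw [hf] at hA
      rw [hf, hc, rV_free L h d τ n i hA]
      rintro ⟨k, hki, hkA, hm⟩
      apply hk k hki
      · rw [hal k t ht.le, hf]; exact hkA
      · obtain ⟨z, hz⟩ := hm
        refine ⟨z, ?_⟩
        have hle : τ (n + 1) ≤ τ (n + 1 + 1) := (X.mono (by omega)).le
        rw [hn, rx_eq X i (n + 1) _ le_rfl hle, rx_eq X k (n + 1) _ le_rfl hle, hz]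
        ring
    · rw [hf, hc]
  · intro i k t ht hki hAi hAk hm
    rw [hal i t ht.le] at hAi
    rw [hal k t ht.le] at hAk
    show rV L h d τ (N t) i = rV L h d τ (N' t) k
    rcases X.cases t ht with ⟨n, hn, hf, hc⟩ | ⟨n, h1, h2, hf, hc⟩
    · rw [hf] at hAi hAk
      rw [hf, hc]
      apply r_opp L h d τ hd hdist n i k (Ne.symm hki) hAi hAk
      obtain ⟨z, hz⟩ := hm
      refine ⟨z, ?_⟩
      have hle : τ (n + 1) ≤ τ (n + 1 + 1) := (X.mono (by omega)).le
      rw [hn, rx_eq X i (n + 1) _ le_rfl hle, rx_eq X k (n + 1) _ le_rfl hle] at hz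
      linarith
    · exfalso
      rw [hf] at hAi hAk
      exact r_nomeet X hd hdist n i k (Ne.symm hki) hAi hAk t h1 h2 hm

/-- the motion of a configuration is unique -/
theorem motion_unique {ι : Type} [Fintype ι] {L : ℝ} (hL : 0 < L) (M M' : Motion ι L)
    (hh : M.h = M'.h) (hd : M.d = M'.d) : ∀ t, 0 ≤ t → ∀ i, M.x i t = M'.x i t ∧
      M.v i t = M'.v i t ∧ (0 < t → M.w i t = M'.w i t) := by
  have main : ∀ t, 0 ≤ t → ∀ i, ∀ s, 0 ≤ s → s ≤ t → M.x i s = M'.x i s ∧
      M.v i s = M'.v i s ∧ (0 < s → M.w i s = M'.w i s) := by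
    apply real
    · intro i s h1 h2
      have : s = 0 := le_antisymm h2 h1
      subst this
      rw [M.start, M'.start, M.init, M'.init, hh, hd]
      exact ⟨rfl, rfl, fun h => absurd h (lt_irrefl _)⟩
    · intro t ht hP
      obtain ⟨ε, hε, h1⟩ := right ι L M hL t ht
      obtain ⟨ε', hε', h2⟩ := right ι L M' hL t ht
      refine ⟨min ε ε', lt_min hε hε', fun s h3 h4 i r hr hrs => ?_⟩
      rcases le_or_gt r t with h5 | h5
      · exact hP i r hr h5
      · have h6 : r < t + ε := by have := min_le_left ε ε'; linarith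
        have h7 : r < t + ε' := by have := min_le_right ε ε'; linarith
        obtain ⟨a1, a2, a3, -⟩ := h1 r h5 h6 i
        obtain ⟨b1, b2, b3, -⟩ := h2 r h5 h7 i
        obtain ⟨c1, c2, -⟩ := hP i t ht le_rfl
        rw [a1, a2, a3, b1, b2, b3, c1, c2]
        exact ⟨rfl, rfl, fun _ => rfl⟩
    · intro t ht hP i s hs hst
      rcases hst.lt_or_eq with h0 | h0
      · exact hP s hs h0 i s hs le_rfl
      · subst h0
        have hP' : ∀ j r, 0 ≤ r → r < s → M.x j r = M'.x j r ∧ M.v j r = M'.v j r :=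
          fun j r h1 h2 => ⟨(hP r h1 h2 j r h1 le_rfl).1, (hP r h1 h2 j r h1 le_rfl).2.1⟩
        obtain ⟨ε, hε, hε0, h1⟩ := left ι L M hL s ht
        obtain ⟨ε', hε', hε0', h2⟩ := left ι L M' hL s ht
        have hw : ∀ j, M.w j s = M'.w j s ∧ M.x j s = M'.x j s := by
          intro j
          set r := s - min ε ε' / 2 with hr
          have hmin : 0 < min ε ε' := lt_min hε hε'
          have h3 : s - ε < r := by have := min_le_left ε ε'; linarith
          have h4 : s - ε' < r := by have := min_le_right ε ε'; linarith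
          have h5 : r < s := by linarith
          obtain ⟨a1, a2, -, -⟩ := h1 r h3 h5 j
          obtain ⟨b1, b2, -, -⟩ := h2 r h4 h5 j
          obtain ⟨c1, c2⟩ := hP' j r (by linarith) h5
          have e1 : M.w j s = M'.w j s := by rw [← a2, ← b2, c2]
          refine ⟨e1, ?_⟩
          rw [a1, b1, e1] at c1
          linarith
        have hx : ∀ j r, 0 ≤ r → r ≤ s → M.x j r = M'.x j r := by
          intro j r h3 h4
          rcases h4.lt_or_eq with h5 | h5
          · exact (hP' j r h3 h5).1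
          · rw [h5]; exact (hw j).2
        have hal : ∀ j, Alive L M.h M.x j s ↔ Alive L M'.h M'.x j s := by
          intro j
          unfold Alive AtHome
          rw [hh]
          constructor
          · intro h r hr hrs
            rw [← hx j r hr.le hrs]
            exact h r hr hrs
          · intro h r hr hrs
            rw [hx j r hr.le hrs]
            exact h r hr hrs
        have hme : ∀ j k, Meet L M.x j k s ↔ Meet L M'.x j k s := by
          intro j k
          unfold Meet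
          rw [(hw j).2, (hw k).2]
        refine ⟨(hw i).2, ?_, fun _ => (hw i).1⟩
        by_cases hA : Alive L M.h M.x i s
        · by_cases hk : ∃ k, k ≠ i ∧ Alive L M.h M.x k s ∧ Meet L M.x i k s
          · obtain ⟨k, hki, hkA, hm⟩ := hk
            rw [M.bounce i k s ht hki hA hkA hm, M'.bounce i k s ht hki ((hal i).1 hA)
              ((hal k).1 hkA) ((hme i k).1 hm), (hw k).1]
          · push Not at hk
            rw [M.free i s ht hA hk, M'.free i s ht ((hal i).1 hA)
              (fun k hki hkA hm => hk k hki ((hal k).2 hkA) ((hme i k).2 hm)), (hw i).1]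
        · rw [M.rest i s ht.le hA, M'.rest i s ht.le (fun h => hA ((hal i).2 h))]
  intro t ht i
  exact main t ht i t ht le_rfl

end Q32.RB
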