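import Mathlib
import Pool.Agent.Q32.RB.Base
import Pool.Agent.Q32.RB.Ex1

/-!
# Bouncing robots: the tokens
-/

namespace Q32.RB

open Finset

section

variable {ι : Type} [Fintype ι] {L : ℝ} {M : Motion ι L} {t : ℝ} {σ : Equiv.Perm ι} {z : ι → ℤ}
  {a : ι → ℝ}

/-- the token book-keeping propagates a little to the right -/
theorem tok_right (hL : 0 < L) (ht : 0 ≤ t) (hT : M.Tok t σ z a) :
    ∃ ε > 0, ∀ s, t < s → s < t + ε → ∃ a', M.Tok s σ z a' := by
  classical
  obtain ⟨ε, hε, h⟩ := right ι L M hL t ht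
  refine ⟨ε, hε, fun s h1 h2 => ⟨fun i => if M.Alive i t then s else a i, ?_, hT.sum, ?_, ?_⟩⟩
  · intro i
    have e1 := (h s h1 h2 i).1
    by_cases hA : M.Alive i t
    · obtain ⟨e2, e3⟩ := hT.alive i hA
      simp only [if_pos hA]
      rw [e1, hT.pos i, e2, e3]; ring
    · simp only [if_neg hA]
      rw [e1, M.rest i t ht hA, hT.pos i]; ring
  · intro i hA
    have hA' : M.Alive i t := ((h s h1 h2 i).2.2.2).1 hA
    simp only [if_pos hA']
    exact ⟨trivial, by rw [(h s h1 h2 i).2.1, (hT.alive i hA').2]⟩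
  · intro i T hTs hd
    rcases le_or_gt T t with hle | hgt
    · have hA : ¬ M.Alive i t := fun hA => hA T hd.1 hle hd.2.1
      simp only [if_neg hA]
      exact hT.dead i T hle hd
    · exfalso
      have hA : M.Alive i t := fun r hr hrt => hd.2.2 r hr (by linarith)
      exact ((h s h1 h2 i).2.2.2).2 hA T hd.1 hTs hd.2.1

/-- incoming token data at time `t` -/
structure TokIn (M : Motion ι L) (t : ℝ) (σ : Equiv.Perm ι) (z : ι → ℤ) (b : ι → ℝ) : Prop where
  pos : ∀ i, M.x i t = M.h (σ i) + M.d (σ i) * b i + z i * L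
  sum : ∑ i, z i = 0
  alive : ∀ i, M.AliveB i t → b i = t ∧ M.w i t = M.d (σ i)
  dead : ∀ i T, T < t → M.DeathAt i T → b i = T ∧ M.w i T = M.d (σ i)

theorem tokIn_of (hL : 0 < L) (ht : 0 < t)
    (hP : ∀ s, 0 ≤ s → s < t → ∃ (σ : Equiv.Perm ι) (z : ι → ℤ) (a : ι → ℝ), M.Tok s σ z a) :
    ∃ (σ : Equiv.Perm ι) (z : ι → ℤ) (b : ι → ℝ), TokIn M t σ z b := by
  classical
  obtain ⟨ε, hε, hεt, h⟩ := left ι L M hL t ht
  set s := t - ε / 2 with hs
  have hs0 : 0 < s := by linarith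
  have hs1 : t - ε < s := by linarith
  have hs2 : s < t := by linarith
  obtain ⟨σ, z, a, hT⟩ := hP s hs0.le hs2
  have hx : ∀ i, ¬ M.AliveB i t → ∃ T, T ≤ s ∧ M.DeathAt i T := by
    intro i hB
    have : ¬ M.Alive i s := fun hA => hB (((h s hs1 hs2 i).2.2.2).1 hA)
    exact (death ι L M hL).1 i s hs0.le this
  refine ⟨σ, z, fun i => if M.AliveB i t then t else a i, ?_, hT.sum, ?_, ?_⟩
  · intro i
    obtain ⟨e1, e2, -, e4⟩ := h s hs1 hs2 i
    by_cases hB : M.AliveB i t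
    · obtain ⟨e5, e6⟩ := hT.alive i (e4.2 hB)
      simp only [if_pos hB]
      have : M.x i t = M.x i s + M.w i t * (t - s) := by linarith
      rw [this, hT.pos i, e5, ← e2, e6]; ring
    · simp only [if_neg hB]
      obtain ⟨T, hTs, hd⟩ := hx i hB
      rw [((death ι L M hL).2 i T hd t (by linarith)).1,
        ← ((death ι L M hL).2 i T hd s hTs).1]
      exact hT.pos i
  · intro i hB
    obtain ⟨e1, e2, -, e4⟩ := h s hs1 hs2 i
    simp only [if_pos hB]
    exact ⟨trivial, by rw [← e2]; exact (hT.alive i (e4.2 hB)).2⟩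
  · intro i T hTt hd
    have hB : ¬ M.AliveB i t := fun hB => hB T hd.1 hTt hd.2.1
    obtain ⟨T', hTs, hd'⟩ := hx i hB
    have hTT := deathAt_unique hd hd'
    simp only [if_neg hB]
    exact hT.dead i T (by rw [hTT]; exact hTs) hd

theorem TokIn.inj (hI : TokIn M t σ z a) {i k : ι} (hik : i ≠ k) (hi : M.AliveB i t)
    (hk : M.AliveB k t) (hm : M.Meet i k t) : M.w i t ≠ M.w k t := by
  intro hw
  obtain ⟨y, hy⟩ := hm
  have h1 := hI.pos i
  have h2 := hI.pos k
  obtain ⟨e1, e2⟩ := hI.alive i hi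
  obtain ⟨e3, e4⟩ := hI.alive k hk
  have hne : σ i ≠ σ k := fun h => hik (σ.injective h)
  apply M.homes _ _ hne (y + z k - z i)
  rw [e1] at h1
  rw [e3] at h2
  rw [e2, e4] at hw
  rw [hw] at h1
  push_cast
  linarith

theorem TokIn.step (hL : 0 < L) (ht : 0 < t) (hI : TokIn M t σ z a) :
    ∃ (σ : Equiv.Perm ι) (z : ι → ℤ) (a : ι → ℝ), M.Tok t σ z a := by
  classical
  have hAB : ∀ i, M.Alive i t → M.AliveB i t := fun i h => ((alive_iff ht).1 h).1
  have hpm : ∀ i, M.AliveB i t → M.w i t = 1 ∨ M.w i t = -1 := by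
    intro i hi
    rw [(hI.alive i hi).2]; exact M.dir _
  let Pa : ι → ι → Prop := fun i k => k ≠ i ∧ M.Alive i t ∧ M.Alive k t ∧ M.Meet i k t
  have hsym : ∀ i k, Pa i k → Pa k i := by
    rintro i k ⟨h1, h2, h3, y, hy⟩
    exact ⟨h1.symm, h3, h2, -y, by rw [hy]; push_cast; ring⟩
  have huniq : ∀ i k k', Pa i k → Pa i k' → k = k' := by
    rintro i k k' ⟨h1, h2, h3, y, hy⟩ ⟨h1', h2', h3', y', hy'⟩
    by_contra hne
    have a1 := hI.inj h1.symm (hAB _ h2) (hAB _ h3) ⟨y, hy⟩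
    have a2 := hI.inj h1'.symm (hAB _ h2) (hAB _ h3') ⟨y', hy'⟩
    have a3 := hI.inj hne (hAB _ h3) (hAB _ h3')
      ⟨y' - y, by push_cast; linarith⟩
    rcases hpm i (hAB _ h2) with b1 | b1 <;> rcases hpm k (hAB _ h3) with b2 | b2 <;>
      rcases hpm k' (hAB _ h3') with b3 | b3 <;> simp [b1, b2, b3] at a1 a2 a3
  let π : ι → ι := fun i => if h : ∃ k, Pa i k then h.choose else i
  have hπ1 : ∀ i k, Pa i k → π i = k := by
    intro i k h
    have he : ∃ k, Pa i k := ⟨k, h⟩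
    simp only [π, dif_pos he]
    exact huniq i _ _ he.choose_spec h
  have hπ2 : ∀ i, (¬ ∃ k, Pa i k) → π i = i := by
    intro i h
    simp only [π, dif_neg h]
  have hinv : Function.Involutive π := by
    intro i
    by_cases h : ∃ k, Pa i k
    · obtain ⟨k, hk⟩ := h
      rw [hπ1 i k hk, hπ1 k i (hsym i k hk)]
    · rw [hπ2 i h, hπ2 i h]
  have hy : ∀ i, ∃ y : ℤ, M.x i t = M.x (π i) t + y * L := by
    intro i
    by_cases h : ∃ k, Pa i k
    · obtain ⟨k, hk⟩ := h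
      rw [hπ1 i k hk]
      exact hk.2.2.2
    · rw [hπ2 i h]; exact ⟨0, by simp⟩
  choose y hy using hy
  have hb : ∀ i, a (π i) = a i := by
    intro i
    by_cases h : ∃ k, Pa i k
    · obtain ⟨k, hk⟩ := h
      rw [hπ1 i k hk, (hI.alive i (hAB _ hk.2.1)).1, (hI.alive k (hAB _ hk.2.2.1)).1]
    · rw [hπ2 i h]
  have hsz : ∑ i, z (π i) = 0 := by
    rw [← hI.sum]; exact Equiv.sum_comp hinv.toPerm z
  have hsy : ∑ i, y i = 0 := by
    have h1 : ∑ i, M.x i t = ∑ i, M.x (π i) t := (Equiv.sum_comp hinv.toPerm (fun i => M.x i t)).symm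
    have h2 : ∑ i, M.x i t = ∑ i, M.x (π i) t + (∑ i, (y i : ℝ)) * L := by
      rw [Finset.sum_mul, ← Finset.sum_add_distrib]
      exact Finset.sum_congr rfl (fun i _ => hy i)
    have h3 : (∑ i, (y i : ℝ)) * L = 0 := by linarith
    have h4 : (∑ i, (y i : ℝ)) = 0 := by
      rcases mul_eq_zero.mp h3 with h | h
      · exact h
      · exact absurd h hL.ne'
    exact_mod_cast h4
  refine ⟨hinv.toPerm.trans σ, fun i => z (π i) + y i, a, ?_, ?_, ?_, ?_⟩
  · intro i
    have h1 := hI.pos (π i)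
    have h2 := hy i
    have e : (hinv.toPerm.trans σ) i = σ (π i) := rfl
    rw [e, h2, h1, hb]; push_cast; ring
  · rw [Finset.sum_add_distrib, hsz, hsy]; rfl
  · intro i hA
    refine ⟨(hI.alive i (hAB i hA)).1, ?_⟩
    have e : (hinv.toPerm.trans σ) i = σ (π i) := rfl
    rw [e]
    by_cases h : ∃ k, Pa i k
    · obtain ⟨k, hk⟩ := h
      rw [hπ1 i k hk, ← (hI.alive k (hAB _ hk.2.2.1)).2]
      exact M.bounce i k t ht hk.1 hk.2.1 hk.2.2.1 hk.2.2.2
    · rw [hπ2 i h, ← (hI.alive i (hAB _ hA)).2]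
      apply M.free i t ht hA
      intro k hk1 hk2 hk3
      exact h ⟨k, hk1, hA, hk2, hk3⟩
  · intro i T hTt hd
    have e : (hinv.toPerm.trans σ) i = σ (π i) := rfl
    have hnA : ¬ M.Alive i t := fun hA => hA T hd.1 hTt hd.2.1
    have hno : ¬ ∃ k, Pa i k := by
      rintro ⟨k, hk⟩; exact hnA hk.2.1
    rw [e, hπ2 i hno]
    rcases hTt.lt_or_eq with h | h
    · exact hI.dead i T h hd
    · subst h
      exact hI.alive i hd.2.2

end

theorem tok : S_TOK := by
  intro ι _ L M hL t ht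
  refine real (fun t => ∃ (σ : Equiv.Perm ι) (z : ι → ℤ) (a : ι → ℝ), M.Tok t σ z a)
    ?_ ?_ ?_ t ht
  · refine ⟨1, fun _ => 0, fun _ => 0, ?_, ?_, ?_, ?_⟩
    · intro i
      rw [M.start]; simp
    · simp
    · intro i _
      exact ⟨rfl, M.init i⟩
    · intro i T hT hd
      have := hd.1
      linarith
  · rintro t ht ⟨σ, z, a, hT⟩
    obtain ⟨ε, hε, h⟩ := tok_right hL ht hT
    refine ⟨ε, hε, fun s h1 h2 => ?_⟩
    obtain ⟨a', ha'⟩ := h s h1 h2
    exact ⟨σ, z, a', ha'⟩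
  · intro t ht hP
    obtain ⟨σ, z, b, hI⟩ := tokIn_of hL ht hP
    exact hI.step hL ht

theorem toku : S_TOKU := by
  intro ι _ L M hL t t' σ σ' z z' a a' ht htt hT hT'
  have key : ∀ i k : ι, ∀ y : ℤ, M.h i = M.h k + y * L → i = k := by
    intro i k y h
    by_contra hne
    exact M.homes i k hne y h
  have dead : ∀ i, ¬ M.Alive i t → σ i = σ' i ∧ a i = a' i := by
    intro i hA
    obtain ⟨T, hTt, hd⟩ := (death ι L M hL).1 i t ht hA
    have h1 := hT.dead i T hTt hd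
    have h2 := hT'.dead i T (hTt.trans htt) hd
    have h3 := hT.pos i
    have h4 := hT'.pos i
    rw [((death ι L M hL).2 i T hd t hTt).1, h1.1] at h3
    rw [((death ι L M hL).2 i T hd t' (hTt.trans htt)).1, h2.1] at h4
    refine ⟨?_, by rw [h1.1, h2.1]⟩
    apply key _ _ (z' i - z i)
    rw [← h1.2] at h3
    rw [← h2.2] at h4
    push_cast
    linarith
  refine ⟨dead, ?_⟩
  rintro rfl i
  by_cases hA : M.Alive i t
  · have h1 := hT.alive i hA
    have h2 := hT'.alive i hA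
    refine ⟨?_, by rw [h1.1, h2.1]⟩
    have h3 := hT.pos i
    have h4 := hT'.pos i
    apply key _ _ (z' i - z i)
    rw [← h1.2, h1.1] at h3
    rw [← h2.2, h2.1] at h4
    push_cast
    linarith
  · exact dead i hA

end Q32.RB
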