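import Mathlib
import Pool.Agent.Q32.RB.TokP

/-!
# Bouncing robots: velocities, speed bound, ranges, order
-/

namespace Q32.RB

open Finset

section

variable {ι : Type} [Fintype ι] {L : ℝ} {M : Motion ι L}

theorem vel_alive (hL : 0 < L) {i : ι} {t : ℝ} (ht : 0 ≤ t) (hA : M.Alive i t) :
    M.v i t = 1 ∨ M.v i t = -1 := by
  obtain ⟨σ, z, a, hT⟩ := tok ι L M hL t ht
  rw [(hT.alive i hA).2]; exact M.dir _

theorem vel_abs (hL : 0 < L) (i : ι) {t : ℝ} (ht : 0 ≤ t) : |M.v i t| ≤ 1 := by
  by_cases hA : M.Alive i t
  · rcases vel_alive hL ht hA with h | h <;> rw [h] <;> simp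
  · rw [M.rest i t ht hA]; simp

theorem wel_aliveB (hL : 0 < L) {i : ι} {t : ℝ} (ht : 0 < t) (hA : M.AliveB i t) :
    M.w i t = 1 ∨ M.w i t = -1 := by
  obtain ⟨ε, hε, hεt, h⟩ := left ι L M hL t ht
  obtain ⟨-, e2, -, e4⟩ := h (t - ε / 2) (by linarith) (by linarith) i
  rw [← e2]
  exact vel_alive hL (by linarith) (e4.2 hA)

theorem wel_abs (hL : 0 < L) (i : ι) {t : ℝ} (ht : 0 < t) : |M.w i t| ≤ 1 := by
  obtain ⟨ε, hε, hεt, h⟩ := left ι L M hL t ht
  obtain ⟨-, e2, -, e4⟩ := h (t - ε / 2) (by linarith) (by linarith) i
  rw [← e2]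
  exact vel_abs hL i (by linarith)

end

theorem lip : S_LIP := by
  intro ι _ L M hL i s t hs hst
  have key := real (fun r => M.x i (s + r) ≤ M.x i s + r ∧ M.x i s - r ≤ M.x i (s + r))
    (by simp)
    (by
      rintro r hr ⟨h1, h2⟩
      obtain ⟨ε, hε, h⟩ := right ι L M hL (s + r) (by linarith)
      refine ⟨ε, hε, fun r' h3 h4 => ?_⟩
      have e1 := (h (s + r') (by linarith) (by linarith) i).1
      have e2 := vel_abs (M := M) hL i (t := s + r) (by linarith)
      rw [abs_le] at e2
      have e3 : s + r' - (s + r) = r' - r := by ring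
      rw [e3] at e1
      have h5 : 0 < r' - r := by linarith
      constructor
      · nlinarith
      · nlinarith)
    (by
      intro r hr hP
      obtain ⟨ε, hε, hεt, h⟩ := left ι L M hL (s + r) (by linarith)
      set q := max (r - ε / 2) (r / 2) with hq
      have hq1 : q < r := max_lt (by linarith) (by linarith)
      have hq0 : 0 < q := lt_of_lt_of_le (by linarith) (le_max_right _ _)
      have hq2 : r - ε < q := lt_of_lt_of_le (by linarith) (le_max_left _ _)
      obtain ⟨a1, -, -, -⟩ := h (s + q) (by linarith) (by linarith) i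
      obtain ⟨h1, h2⟩ := hP q hq0.le hq1
      have e2 := wel_abs (M := M) hL i (t := s + r) (by linarith)
      rw [abs_le] at e2
      have e3 : s + q - (s + r) = q - r := by ring
      rw [e3] at a1
      have h5 : 0 < r - q := by linarith
      constructor
      · nlinarith
      · nlinarith) (t - s) (by linarith)
  rw [add_sub_cancel] at key
  exact key

section

variable {ι : Type} [Fintype ι] {L : ℝ} {M : Motion ι L}

/-- the displacement in the direction of the start -/
theorem disp_open (hL : 0 < L) (i : ι) : ∀ t, 0 ≤ t → 0 < t → M.Alive i t →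
    0 < M.d i * (M.x i t - M.h i) ∧ M.d i * (M.x i t - M.h i) < L := by
  have hd2 : M.d i * M.d i = 1 := by rcases M.dir i with h | h <;> rw [h] <;> norm_num
  have hdabs : |M.d i| = 1 := by rcases M.dir i with h | h <;> rw [h] <;> simp
  apply real (fun t => 0 < t → M.Alive i t →
    0 < M.d i * (M.x i t - M.h i) ∧ M.d i * (M.x i t - M.h i) < L)
  · intro h; exact absurd h (lt_irrefl _)
  · intro t ht hP
    obtain ⟨ε, hε, h⟩ := right ι L M hL t ht
    rcases ht.lt_or_eq with ht0 | ht0
    · by_cases hA : M.Alive i t
      · obtain ⟨h1, h2⟩ := hP ht0 hA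
        set f := M.d i * (M.x i t - M.h i) with hf
        refine ⟨min ε (min f (L - f)), lt_min hε (lt_min h1 (by linarith)), fun s h3 h4 _ _ => ?_⟩
        have c1 : s < t + ε := by have := min_le_left ε (min f (L - f)); linarith
        have c2 : s < t + f := by
          have := (min_le_right ε (min f (L - f))).trans (min_le_left _ _); linarith
        have c3 : s < t + (L - f) := by
          have := (min_le_right ε (min f (L - f))).trans (min_le_right _ _); linarith
        have e1 := (h s h3 c1 i).1
        have e2 := vel_abs (M := M) hL i ht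
        have e3 : M.d i * (M.x i s - M.h i) = f + M.d i * M.v i t * (s - t) := by
          rw [e1, hf]; ring
        have e4 : |M.d i * M.v i t| ≤ 1 := by rw [abs_mul, hdabs, one_mul]; exact e2
        rw [abs_le] at e4
        rw [e3]
        constructor
        · nlinarith
        · nlinarith
      · refine ⟨ε, hε, fun s h3 h4 _ hA' => absurd (alive_mono hA' h3.le) hA⟩
    · refine ⟨min ε L, lt_min hε hL, fun s h3 h4 _ _ => ?_⟩
      have c1 : s < t + ε := by have := min_le_left ε L; linarith
      have c2 : s < L := by have := min_le_right ε L; linarith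
      have e1 := (h s h3 c1 i).1
      rw [← ht0, M.start, M.init] at e1
      have e3 : M.d i * (M.x i s - M.h i) = s := by
        rw [e1]
        have : M.d i * (M.h i + M.d i * (s - 0) - M.h i) = M.d i * M.d i * s := by ring
        rw [this, hd2, one_mul]
      rw [e3]
      exact ⟨by linarith, c2⟩
  · intro t ht hP _ hA
    have hge : 0 ≤ M.d i * (M.x i t - M.h i) := by
      by_contra hcon
      push Not at hcon
      set g := -(M.d i * (M.x i t - M.h i)) with hg
      have hg0 : 0 < g := by linarith
      set s := max (t / 2) (t - g / 2) with hs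
      have hs0 : 0 < s := lt_of_lt_of_le (by linarith) (le_max_left _ _)
      have hs1 : s < t := max_lt (by linarith) (by linarith)
      have hs2 : t - g / 2 ≤ s := le_max_right _ _
      obtain ⟨h1, h2⟩ := hP s hs0.le hs1 hs0 (alive_mono hA hs1.le)
      obtain ⟨h3, h4⟩ := lip ι L M hL i s t hs0.le hs1.le
      rcases M.dir i with hd | hd
      · rw [hd] at h1 hg; linarith
      · rw [hd] at h1 hg; linarith
    have hle : M.d i * (M.x i t - M.h i) ≤ L := by
      by_contra hcon
      push Not at hcon
      set g := M.d i * (M.x i t - M.h i) - L with hg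
      have hg0 : 0 < g := by linarith
      set s := max (t / 2) (t - g / 2) with hs
      have hs0 : 0 < s := lt_of_lt_of_le (by linarith) (le_max_left _ _)
      have hs1 : s < t := max_lt (by linarith) (by linarith)
      have hs2 : t - g / 2 ≤ s := le_max_right _ _
      obtain ⟨h1, h2⟩ := hP s hs0.le hs1 hs0 (alive_mono hA hs1.le)
      obtain ⟨h3, h4⟩ := lip ι L M hL i s t hs0.le hs1.le
      rcases M.dir i with hd | hd
      · rw [hd] at h2 hg; linarith
      · rw [hd] at h2 hg; linarith
    constructor
    · rcases hge.lt_or_eq with h | h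
      · exact h
      · exfalso
        apply hA t ht le_rfl
        refine ⟨0, ?_⟩
        have : M.x i t - M.h i = 0 := by
          have : M.d i * (M.d i * (M.x i t - M.h i)) = 0 := by rw [← h]; ring
          rw [← mul_assoc, hd2, one_mul] at this
          exact this
        push_cast; linarith
    · rcases hle.lt_or_eq with h | h
      · exact h
      · exfalso
        apply hA t ht le_rfl
        have h1 : M.x i t - M.h i = M.d i * L := by
          have : M.d i * (M.d i * (M.x i t - M.h i)) = M.d i * L := by rw [h]
          rw [← mul_assoc, hd2, one_mul] at this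
          exact this
        rcases M.dir i with hd | hd
        · refine ⟨1, ?_⟩
          rw [hd] at h1; push_cast; linarith
        · refine ⟨-1, ?_⟩
          rw [hd] at h1; push_cast; linarith

theorem disp_closed (hL : 0 < L) (i : ι) (t : ℝ) (ht : 0 < t) (hA : M.AliveB i t) :
    0 ≤ M.d i * (M.x i t - M.h i) ∧ M.d i * (M.x i t - M.h i) ≤ L := by
  have hAs : ∀ s, s < t → M.Alive i s := fun s hs r hr hrs => hA r hr (by linarith)
  constructor
  · by_contra hcon
    push Not at hcon
    set g := -(M.d i * (M.x i t - M.h i)) with hg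
    have hg0 : 0 < g := by linarith
    set s := max (t / 2) (t - g / 2) with hs
    have hs0 : 0 < s := lt_of_lt_of_le (by linarith) (le_max_left _ _)
    have hs1 : s < t := max_lt (by linarith) (by linarith)
    have hs2 : t - g / 2 ≤ s := le_max_right _ _
    obtain ⟨h1, h2⟩ := disp_open hL i s hs0.le hs0 (hAs s hs1)
    obtain ⟨h3, h4⟩ := lip ι L M hL i s t hs0.le hs1.le
    rcases M.dir i with hd | hd
    · rw [hd] at h1 hg; linarith
    · rw [hd] at h1 hg; linarith
  · by_contra hcon
    push Not at hcon
    set g := M.d i * (M.x i t - M.h i) - L with hg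
    have hg0 : 0 < g := by linarith
    set s := max (t / 2) (t - g / 2) with hs
    have hs0 : 0 < s := lt_of_lt_of_le (by linarith) (le_max_left _ _)
    have hs1 : s < t := max_lt (by linarith) (by linarith)
    have hs2 : t - g / 2 ≤ s := le_max_right _ _
    obtain ⟨h1, h2⟩ := disp_open hL i s hs0.le hs0 (hAs s hs1)
    obtain ⟨h3, h4⟩ := lip ι L M hL i s t hs0.le hs1.le
    rcases M.dir i with hd | hd
    · rw [hd] at h2 hg; linarith
    · rw [hd] at h2 hg; linarith

end

theorem range' : S_RANGE := by
  intro ι _ L M hL i t ht hA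
  obtain ⟨h1, h2⟩ := disp_closed hL i t ht hA
  constructor
  · intro hd
    rw [hd] at h1 h2
    refine ⟨by linarith, by linarith, fun hA' => ?_⟩
    obtain ⟨h3, h4⟩ := disp_open hL i t ht.le ht hA'
    rw [hd] at h3 h4
    exact ⟨by linarith, by linarith⟩
  · intro hd
    rw [hd] at h1 h2
    refine ⟨by linarith, by linarith, fun hA' => ?_⟩
    obtain ⟨h3, h4⟩ := disp_open hL i t ht.le ht hA'
    rw [hd] at h3 h4
    exact ⟨by linarith, by linarith⟩

theorem dvel : S_DVEL := by
  intro ι _ L M hL i T hd
  have hB : M.AliveB i T := hd.2.2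
  obtain ⟨h1, h2⟩ := disp_closed hL i T hd.1 hB
  have hw := wel_aliveB hL hd.1 hB
  obtain ⟨ε, hε, hεt, h⟩ := left ι L M hL T hd.1
  obtain ⟨e1, -, -, e4⟩ := h (T - ε / 2) (by linarith) (by linarith) i
  obtain ⟨h3, h4⟩ := disp_open hL i (T - ε / 2) (by linarith) (by linarith) (e4.2 hB)
  obtain ⟨y, hy⟩ := hd.2.1
  have hx : M.d i * (M.x i T - M.h i) = 0 ∨ M.d i * (M.x i T - M.h i) = L := by
    rw [hy] at h1 h2 ⊢
    have h5 : ∀ m : ℤ, 0 ≤ (m : ℝ) * L → (m : ℝ) * L ≤ L → (m : ℝ) * L = 0 ∨ (m : ℝ) * L = L := by
      intro m hm1 hm2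
      have a1 : (0 : ℝ) ≤ m := by
        by_contra hn; push Not at hn; nlinarith
      have a2 : (m : ℝ) ≤ 1 := by
        by_contra hn; push Not at hn; nlinarith
      have a3 : 0 ≤ m := by exact_mod_cast a1
      have a4 : m ≤ 1 := by exact_mod_cast a2
      have : m = 0 ∨ m = 1 := by omega
      rcases this with rfl | rfl
      · left; simp
      · right; simp
    rcases M.dir i with hdd | hdd
    · have := h5 y (by rw [hdd] at h1; linarith) (by rw [hdd] at h2; linarith)
      rw [hdd]
      rcases this with h | h
      · left; linarith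
      · right; linarith
    · have := h5 (-y) (by rw [hdd] at h1; push_cast; linarith)
        (by rw [hdd] at h2; push_cast; linarith)
      rw [hdd]
      push_cast at this
      rcases this with h | h
      · left; linarith
      · right; linarith
  have e5 : T - ε / 2 - T = -(ε / 2) := by ring
  rw [e5] at e1
  constructor
  · intro hdd
    rw [hdd] at h3 h4 hx
    rcases hx with hx | hx
    · left
      refine ⟨by linarith, ?_⟩
      rcases hw with h | h
      · rw [h] at e1; linarith
      · exact h
    · right
      refine ⟨by linarith, ?_⟩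
      rcases hw with h | h
      · exact h
      · rw [h] at e1; linarith
  · intro hdd
    rw [hdd] at h3 h4 hx
    rcases hx with hx | hx
    · left
      refine ⟨by linarith, ?_⟩
      rcases hw with h | h
      · exact h
      · rw [h] at e1; linarith
    · right
      refine ⟨by linarith, ?_⟩
      rcases hw with h | h
      · rw [h] at e1; linarith
      · exact h

/-- two living robots at the same place have different velocities -/
theorem vel_inj {ι : Type} [Fintype ι] {L : ℝ} {M : Motion ι L} (hL : 0 < L) {i k : ι} {t : ℝ}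
    (ht : 0 ≤ t) (hik : i ≠ k) (hi : M.Alive i t) (hk : M.Alive k t) {y : ℤ}
    (hm : M.x i t = M.x k t + y * L) : M.v i t ≠ M.v k t := by
  intro hv
  obtain ⟨σ, z, a, hT⟩ := tok ι L M hL t ht
  have h1 := hT.pos i
  have h2 := hT.pos k
  obtain ⟨e1, e2⟩ := hT.alive i hi
  obtain ⟨e3, e4⟩ := hT.alive k hk
  have hne : σ i ≠ σ k := fun h => hik (σ.injective h)
  apply M.homes _ _ hne (y + z k - z i)
  rw [e1] at h1
  rw [e3] at h2
  rw [e2, e4] at hv
  rw [hv] at h1
  push_cast
  linarith

theorem ord : S_ORD := by
  intro ι _ L M hL i k z hz t ht hi hk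
  by_cases hik : i = k
  · subst hik
    linarith
  have key := real (fun t => (M.AliveB i t → M.AliveB k t → M.x i t ≤ M.x k t + z * L) ∧
      (M.Alive i t → M.Alive k t → M.x i t = M.x k t + z * L → M.v i t = -1 ∧ M.v k t = 1))
    (by
      refine ⟨fun _ _ => ?_, fun _ _ h => ?_⟩
      · rw [M.start, M.start]; exact hz.le
      · rw [M.start, M.start] at h; linarith)
    (by
      rintro t ht ⟨hP1, hP2⟩
      obtain ⟨ε, hε, h⟩ := right ι L M hL t ht
      by_cases hA : M.Alive i t ∧ M.Alive k t
      · obtain ⟨hAi, hAk⟩ := hA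
        have hle := hP1 (fun s hs hst => hAi s hs hst.le) (fun s hs hst => hAk s hs hst.le)
        have hvi := vel_abs (M := M) hL i ht
        have hvk := vel_abs (M := M) hL k ht
        rw [abs_le] at hvi hvk
        rcases hle.lt_or_eq with hlt | heq
        · set g := M.x k t + z * L - M.x i t with hg
          have hg0 : 0 < g := by linarith
          refine ⟨min ε (g / 3), lt_min hε (by linarith), fun s h1 h2 => ?_⟩
          have c1 : s < t + ε := by have := min_le_left ε (g / 3); linarith
          have c2 : s < t + g / 3 := by have := min_le_right ε (g / 3); linarith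
          have e1 := (h s h1 c1 i).1
          have e2 := (h s h1 c1 k).1
          have hlt : M.x i s < M.x k s + z * L := by
            rw [e1, e2]; nlinarith
          exact ⟨fun _ _ => hlt.le, fun _ _ h => absurd h hlt.ne⟩
        · obtain ⟨v1, v2⟩ := hP2 hAi hAk heq
          refine ⟨ε, hε, fun s h1 h2 => ?_⟩
          have e1 := (h s h1 h2 i).1
          have e2 := (h s h1 h2 k).1
          have hlt : M.x i s < M.x k s + z * L := by
            rw [e1, e2, v1, v2]; linarith
          exact ⟨fun _ _ => hlt.le, fun _ _ h => absurd h hlt.ne⟩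
      · refine ⟨ε, hε, fun s h1 h2 => ⟨fun b1 b2 => ?_, fun b1 b2 _ => ?_⟩⟩
        · exfalso
          apply hA
          exact ⟨fun r hr hrt => b1 r hr (by linarith), fun r hr hrt => b2 r hr (by linarith)⟩
        · exfalso
          exact hA ⟨alive_mono b1 h1.le, alive_mono b2 h1.le⟩)
    (by
      intro t ht hP
      obtain ⟨ε, hε, hεt, h⟩ := left ι L M hL t ht
      have hmain : M.AliveB i t → M.AliveB k t → M.x i t ≤ M.x k t + z * L ∧
          (M.x i t = M.x k t + z * L → M.w i t = 1 ∧ M.w k t = -1) := by
        intro hi hk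
        have hs : ∀ s, t - ε < s → s < t → M.x i s ≤ M.x k s + z * L := by
          intro s h1 h2
          exact (hP s (by linarith) h2).1 (fun r hr hrs => hi r hr (by linarith))
            (fun r hr hrs => hk r hr (by linarith))
        have hwi := wel_aliveB hL ht hi
        have hwk := wel_aliveB hL ht hk
        have hle : M.x i t ≤ M.x k t + z * L := by
          by_contra hcon
          push Not at hcon
          set g := M.x i t - (M.x k t + z * L) with hg
          have hg0 : 0 < g := by linarith
          set s := max (t - ε / 2) (t - g / 4) with hsdef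
          have hs1 : s < t := max_lt (by linarith) (by linarith)
          have hs2 : t - ε < s := lt_of_lt_of_le (by linarith) (le_max_left _ _)
          have hs3 : t - g / 4 ≤ s := le_max_right _ _
          have e1 := (h s hs2 hs1 i).1
          have e2 := (h s hs2 hs1 k).1
          have e3 := hs s hs2 hs1
          rw [e1, e2] at e3
          rcases hwi with a | a <;> rcases hwk with b | b <;> rw [a, b] at e3 <;> nlinarith
        refine ⟨hle, fun heq => ?_⟩
        have hs2 : t - ε < t - ε / 2 := by linarith
        have hs1 : t - ε / 2 < t := by linarith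
        obtain ⟨e1, f1, -, g1⟩ := h (t - ε / 2) hs2 hs1 i
        obtain ⟨e2, f2, -, g2⟩ := h (t - ε / 2) hs2 hs1 k
        have e3 := hs (t - ε / 2) hs2 hs1
        have e5 : t - ε / 2 - t = -(ε / 2) := by ring
        have hne : M.w i t ≠ M.w k t := by
          intro hw
          apply vel_inj hL (by linarith : (0 : ℝ) ≤ t - ε / 2) hik (g1.2 hi) (g2.2 hk) (y := z)
          · rw [e1, e2, hw, heq]; ring
          · rw [f1, f2, hw]
        rw [e1, e2, e5] at e3
        rcases hwi with a | a <;> rcases hwk with b | b <;> rw [a, b] at e3 hne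
        · exact absurd rfl hne
        · exact ⟨a, b⟩
        · exfalso; linarith
        · exact absurd rfl hne
      refine ⟨fun hi hk => (hmain hi hk).1, fun hi hk heq => ?_⟩
      have hi' := ((alive_iff ht).1 hi).1
      have hk' := ((alive_iff ht).1 hk).1
      obtain ⟨w1, w2⟩ := (hmain hi' hk').2 heq
      constructor
      · rw [M.bounce i k t ht (Ne.symm hik) hi hk ⟨z, heq⟩]; exact w2
      · rw [M.bounce k i t ht hik hk hi ⟨-z, by rw [heq]; push_cast; ring⟩]; exact w1) t ht
  exact key.1 hi hk

end Q32.RB
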