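import Mathlib
import Pool.Agent.Q32.RB.Range
import Pool.Agent.Q32.RB.Ex3

/-!
# Bouncing robots: the final regime
-/

namespace Q32.RB

open Finset

theorem bounded_pos {ι : Type} [Fintype ι] {L : ℝ} (M : Motion ι L) (hL : 0 < L) (i : ι) (t : ℝ)
    (ht : 0 < t) : |M.x i t - M.h i| ≤ L := by
  have key : ∀ s, 0 < s → M.AliveB i s → |M.x i s - M.h i| ≤ L := by
    intro s hs hB
    rw [abs_le]
    rcases M.dir i with hd | hd
    · obtain ⟨h1, h2, -⟩ := (range' ι L M hL i s hs hB).1 hd
      constructor <;> linarith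
    · obtain ⟨h1, h2, -⟩ := (range' ι L M hL i s hs hB).2 hd
      constructor <;> linarith
  rcases aliveB_or_death death M hL i t with h | ⟨T, hT, hd⟩
  · exact key t ht h
  · rw [((death ι L M hL).2 i T hd t hT.le).1]
    exact key T hd.1 hd.2.2

theorem not_survivor {ι : Type} [Fintype ι] {L : ℝ} (M : Motion ι L) (hL : 0 < L) (i : ι)
    (hi : i ∉ M.survivors) : ∃ T, M.DeathAt i T := by
  have : ∃ t, ¬ M.Alive i t := by
    by_contra h; push Not at h; exact hi h
  obtain ⟨t, ht⟩ := this
  have ht0 : 0 ≤ t := by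
    by_contra hneg
    apply ht
    intro s hs hst
    exfalso; linarith
  obtain ⟨T, -, hT⟩ := (death ι L M hL).1 i t ht0 ht
  exact ⟨T, hT⟩

theorem fin : S_FIN := by
  classical
  intro ι _ _ L M hL
  let g : ι → ℝ := fun i => if h : ∃ T, M.DeathAt i T then h.choose else 0
  have hg : ∀ i T, M.DeathAt i T → g i = T := by
    intro i T hT
    have : ∃ T, M.DeathAt i T := ⟨T, hT⟩
    simp only [g, dif_pos this]
    exact deathAt_unique this.choose_spec hT
  have hg0 : ∀ i, 0 ≤ g i := by
    intro i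
    by_cases h : ∃ T, M.DeathAt i T
    · obtain ⟨T, hT⟩ := h
      rw [hg i T hT]; exact hT.1.le
    · simp [g, dif_neg h]
  set T0 : ℝ := ∑ i, g i with hT0
  have hT0' : 0 ≤ T0 := Finset.sum_nonneg (fun i _ => hg0 i)
  have hTi : ∀ i T, M.DeathAt i T → T ≤ T0 := by
    intro i T hT
    rw [← hg i T hT]
    exact Finset.single_le_sum (f := g) (fun i _ => hg0 i) (Finset.mem_univ i)
  set Sv : Finset ι := univ.filter (fun i => i ∈ M.survivors) with hSv
  have hSm : ∀ i, i ∈ Sv ↔ i ∈ M.survivors := by intro i; simp [Sv]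
  obtain ⟨σ0, z0, a0, hTok0⟩ := tok ι L M hL T0 hT0'
  set K : Finset ι := Sv.image σ0 with hK
  have hKm : ∀ i, σ0 i ∈ K ↔ i ∈ Sv := by
    intro i
    rw [hK, Finset.mem_image]
    constructor
    · rintro ⟨i', h1, h2⟩
      rwa [← σ0.injective h2]
    · intro h; exact ⟨i, h, rfl⟩
  have h4 : ∀ t, T0 ≤ t → ∀ i, M.Alive i t → i ∈ Sv := by
    intro t ht i hA
    by_contra hn
    rw [hSm] at hn
    obtain ⟨T, hT⟩ := not_survivor M hL i hn
    exact hA T hT.1 ((hTi i T hT).trans ht) hT.2.1
  have h4' : ∀ t, T0 ≤ t → ∀ i, i ∉ Sv → ¬ M.Alive i t := fun t ht i hi hA => hi (h4 t ht i hA)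
  have h5a : ∀ t, T0 ≤ t → ∀ σ z a, M.Tok t σ z a → ∀ i, i ∉ Sv → σ i = σ0 i ∧ a i = a0 i := by
    intro t ht σ z a hTok i hi
    have := (toku ι L M hL T0 t σ0 σ z0 z a0 a hT0' ht hTok0 hTok).1 i (h4' T0 le_rfl i hi)
    exact ⟨this.1.symm, this.2.symm⟩
  have h5 : ∀ t, T0 ≤ t → ∀ σ z a, M.Tok t σ z a → ∀ i, i ∈ Sv ↔ σ i ∈ K := by
    intro t ht σ z a hTok i
    constructor
    · intro hi
      by_contra hn
      have e1 : σ0 (σ0.symm (σ i)) = σ i := Equiv.apply_symm_apply _ _
      rw [← e1, hKm] at hn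
      have e2 := (h5a t ht σ z a hTok _ hn).1
      rw [e1] at e2
      have e3 := σ.injective e2
      rw [e3] at hn
      exact hn hi
    · intro hi
      by_contra hn
      have e2 := (h5a t ht σ z a hTok _ hn).1
      rw [e2, hKm] at hi
      exact hn hi
  have h6 : ∀ t, 0 ≤ t → ∀ σ z a, M.Tok t σ z a → ∀ i, σ i ∈ K → M.Alive i t := by
    intro t ht σ z a hTok i hi
    by_contra hn
    obtain ⟨σ', z', a', hTok'⟩ := tok ι L M hL (max t T0) (ht.trans (le_max_left _ _))
    have e1 := ((toku ι L M hL t (max t T0) σ σ' z z' a a' ht (le_max_left _ _) hTok hTok').1 i hn).1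
    rw [e1] at hi
    have := (h5 _ (le_max_right _ _) σ' z' a' hTok' i).2 hi
    rw [hSm] at this
    exact hn (this t)
  refine ⟨Sv, K, T0, hT0', hSm, Finset.card_image_of_injective _ σ0.injective, h4, h5, h6, ?_, ?_⟩
  · -- balance
    set B := ∑ k ∈ K, M.d k with hB
    set c0 := ∑ i ∈ Svᶜ, M.d (σ0 i) * a0 i with hc0
    have hsum : ∀ t, T0 ≤ t → 0 ≤ t → ∑ i, (M.x i t - M.h i) = B * t + c0 := by
      intro t ht ht0
      obtain ⟨σ, z, a, hTok⟩ := tok ι L M hL t ht0
      have e1 : ∑ i, M.x i t = ∑ i, M.h i + ∑ i, M.d (σ i) * a i := by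
        have : ∀ i, M.x i t = M.h (σ i) + M.d (σ i) * a i + z i * L := hTok.pos
        rw [Finset.sum_congr rfl (fun i _ => this i), Finset.sum_add_distrib,
          Finset.sum_add_distrib, Equiv.sum_comp σ M.h, ← Finset.sum_mul]
        have : (∑ i, (z i : ℝ)) = 0 := by exact_mod_cast hTok.sum
        rw [this]; ring
      have e2 : ∑ i, M.d (σ i) * a i = B * t + c0 := by
        rw [← Finset.sum_add_sum_compl Sv]
        congr 1
        · have e3 : ∀ i ∈ Sv, M.d (σ i) * a i = M.d (σ i) * t := by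
            intro i hi
            rw [(hTok.alive i ((hSm i).1 hi t)).1]
          rw [Finset.sum_congr rfl e3, ← Finset.sum_mul]
          congr 1
          have e4 : K = Sv.image σ := by
            ext k
            constructor
            · intro hk
              refine Finset.mem_image.2 ⟨σ.symm k, ?_, Equiv.apply_symm_apply _ _⟩
              rw [h5 t ht σ z a hTok, Equiv.apply_symm_apply]; exact hk
            · intro hk
              obtain ⟨i, hi, rfl⟩ := Finset.mem_image.1 hk
              exact (h5 t ht σ z a hTok i).1 hi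
          rw [hB, e4, Finset.sum_image (fun i _ j _ h => σ.injective h)]
        · apply Finset.sum_congr rfl
          intro i hi
          obtain ⟨f1, f2⟩ := h5a t ht σ z a hTok i (Finset.mem_compl.1 hi)
          rw [f1, f2]
      rw [Finset.sum_sub_distrib, e1, e2]; ring
    by_contra hBne
    have hBpos : 0 < |B| := abs_pos.2 hBne
    set Q := (Fintype.card ι : ℝ) * L + |c0| + 1 with hQ
    have hQ0 : 0 < Q := by positivity
    set t := max T0 1 + Q / |B| with ht
    have ht1 : T0 ≤ t := by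
      have := le_max_left T0 1
      have h2 : 0 < Q / |B| := by positivity
      linarith
    have ht2 : 0 < t := by
      have := le_max_right T0 1
      have h2 : 0 < Q / |B| := by positivity
      linarith
    have e1 := hsum t ht1 ht2.le
    have e2 : |∑ i, (M.x i t - M.h i)| ≤ (Fintype.card ι : ℝ) * L := by
      calc |∑ i, (M.x i t - M.h i)| ≤ ∑ i, |M.x i t - M.h i| := Finset.abs_sum_le_sum_abs _ _
        _ ≤ ∑ i : ι, L := Finset.sum_le_sum (fun i _ => bounded_pos M hL i t ht2)
        _ = (Fintype.card ι : ℝ) * L := by simp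
    rw [e1] at e2
    have e3 : |B| * t ≤ |B * t + c0| + |c0| := by
      have : B * t = (B * t + c0) - c0 := by ring
      calc |B| * t = |B * t| := by rw [abs_mul, abs_of_pos ht2]
        _ = |(B * t + c0) - c0| := by rw [← this]
        _ ≤ |B * t + c0| + |c0| := abs_sub _ _
    have e4 : Q ≤ |B| * t := by
      rw [ht, mul_add]
      have : |B| * (Q / |B|) = Q := by field_simp
      rw [this]
      have : 0 ≤ |B| * max T0 1 := mul_nonneg hBpos.le ((zero_le_one).trans (le_max_right _ _))
      linarith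
    linarith
  · intro k hk
    set i := σ0.symm k with hi
    have hik : σ0 i = k := by rw [hi, Equiv.apply_symm_apply]
    have hiS : i ∉ Sv := by
      rw [← hKm, hik]; exact hk
    rw [hSm] at hiS
    obtain ⟨T, hT⟩ := not_survivor M hL i hiS
    obtain ⟨e1, e2⟩ := hTok0.dead i T (hTi i T hT) hT
    refine ⟨i, T, z0 i, hT, by rw [e2, hik], ?_⟩
    rw [← ((death ι L M hL).2 i T hT T0 (hTi i T hT)).1, hTok0.pos i, hik, e1]

end Q32.RB
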