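import Mathlib
import Pool.Agent.Q32.RB.Range

/-!
# Bouncing robots: the flux criterion
-/

namespace Q32.RB

open Finset

theorem fluxP : S_FLUX := by
  intro ι _ _ L M hL t σ z a ht hT A D i hdi hiA hA hD
  have hL' : L ≠ 0 := hL.ne'
  -- token sums are robot sums
  have hfl : ∑ k, (⌊(M.h k + M.d k * a (σ.symm k) - M.h i) / L⌋ - ⌊(M.h k - M.h i) / L⌋) =
      ∑ l, (⌊(M.x l t - M.h i) / L⌋ - ⌊(M.h l - M.h i) / L⌋) := by
    rw [Finset.sum_sub_distrib, Finset.sum_sub_distrib]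
    congr 1
    have h1 : ∀ l, ⌊(M.x l t - M.h i) / L⌋ =
        ⌊(M.h (σ l) + M.d (σ l) * a l - M.h i) / L⌋ + z l := by
      intro l
      have : (M.x l t - M.h i) / L = (M.h (σ l) + M.d (σ l) * a l - M.h i) / L + (z l : ℝ) := by
        rw [hT.pos l]; field_simp; ring
      rw [this, Int.floor_add_intCast]
    rw [Finset.sum_congr rfl (fun l _ => h1 l), Finset.sum_add_distrib, hT.sum, add_zero]
    have h2 := Equiv.sum_comp σ (fun k => ⌊(M.h k + M.d k * a (σ.symm k) - M.h i) / L⌋)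
    rw [← h2]
    simp
  have hcl : ∑ k, (⌈(M.h k + M.d k * a (σ.symm k) - M.h i) / L⌉ - ⌈(M.h k - M.h i) / L⌉) =
      ∑ l, (⌈(M.x l t - M.h i) / L⌉ - ⌈(M.h l - M.h i) / L⌉) := by
    rw [Finset.sum_sub_distrib, Finset.sum_sub_distrib]
    congr 1
    have h1 : ∀ l, ⌈(M.x l t - M.h i) / L⌉ =
        ⌈(M.h (σ l) + M.d (σ l) * a l - M.h i) / L⌉ + z l := by
      intro l
      have : (M.x l t - M.h i) / L = (M.h (σ l) + M.d (σ l) * a l - M.h i) / L + (z l : ℝ) := by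
        rw [hT.pos l]; field_simp; ring
      rw [this, Int.ceil_add_intCast]
    rw [Finset.sum_congr rfl (fun l _ => h1 l), Finset.sum_add_distrib, hT.sum, add_zero]
    have h2 := Equiv.sum_comp σ (fun k => ⌈(M.h k + M.d k * a (σ.symm k) - M.h i) / L⌉)
    rw [← h2]
    simp
  rw [hfl, hcl]
  -- terms
  have hq : ∀ l, l ≠ i → (⌊(M.h l - M.h i) / L⌋ : ℝ) * L < M.h l - M.h i ∧
      M.h l - M.h i < (⌊(M.h l - M.h i) / L⌋ + 1) * L := by
    intro l hl
    have h1 := Int.floor_le ((M.h l - M.h i) / L)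
    have h2 := Int.lt_floor_add_one ((M.h l - M.h i) / L)
    rw [le_div_iff₀ hL] at h1
    rw [div_lt_iff₀ hL] at h2
    refine ⟨lt_of_le_of_ne h1 (fun h => ?_), h2⟩
    exact M.homes l i hl _ (by linarith)
  have hord : ∀ l, l ∈ A → l ≠ i →
      M.x i t + (⌊(M.h l - M.h i) / L⌋ : ℝ) * L ≤ M.x l t ∧
      M.x l t ≤ M.x i t + (⌊(M.h l - M.h i) / L⌋ + 1) * L := by
    intro l hl hli
    obtain ⟨h1, h2⟩ := hq l hli
    have o1 := ord ι L M hL i l (-⌊(M.h l - M.h i) / L⌋) (by push_cast; linarith) t ht.le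
      (hA i hiA) (hA l hl)
    have o2 := ord ι L M hL l i (⌊(M.h l - M.h i) / L⌋ + 1) (by push_cast; linarith) t ht.le
      (hA l hl) (hA i hiA)
    push_cast at o1 o2
    exact ⟨by linarith, by linarith⟩
  have hdead : ∀ l, l ∉ A → ⌊(M.x l t - M.h i) / L⌋ - ⌊(M.h l - M.h i) / L⌋ = D l ∧
      ⌈(M.x l t - M.h i) / L⌉ - ⌈(M.h l - M.h i) / L⌉ = D l := by
    intro l hl
    have : (M.x l t - M.h i) / L = (M.h l - M.h i) / L + (D l : ℝ) := by
      rw [hD l hl]; field_simp; ring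
    rw [this, Int.floor_add_intCast, Int.ceil_add_intCast]
    constructor <;> ring
  have hsplit : ∀ f : ι → ℤ, ∑ l, f l = ∑ l ∈ A, f l + ∑ l ∈ Aᶜ, f l :=
    fun f => (Finset.sum_add_sum_compl A f).symm
  have hself : ∑ l ∈ Aᶜ, (⌊(M.x l t - M.h i) / L⌋ - ⌊(M.h l - M.h i) / L⌋) = ∑ l ∈ Aᶜ, D l :=
    Finset.sum_congr rfl (fun l hl => (hdead l (Finset.mem_compl.1 hl)).1)
  have hself' : ∑ l ∈ Aᶜ, (⌈(M.x l t - M.h i) / L⌉ - ⌈(M.h l - M.h i) / L⌉) = ∑ l ∈ Aᶜ, D l :=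
    Finset.sum_congr rfl (fun l hl => (hdead l (Finset.mem_compl.1 hl)).2)
  refine ⟨fun hal => ?_, fun hx => ?_, fun hx => ?_⟩
  · obtain ⟨r1, r2⟩ := ((range' ι L M hL i t ht (hA i hiA)).1 hdi).2.2 hal
    rw [hsplit, hself]
    have h0 : ⌊(M.x i t - M.h i) / L⌋ - ⌊(M.h i - M.h i) / L⌋ = 0 := by
      have e1 : ⌊(M.x i t - M.h i) / L⌋ = 0 := by
        rw [Int.floor_eq_zero_iff]
        constructor
        · apply div_nonneg (by linarith) hL.le
        · rw [div_lt_one hL]; linarith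
      rw [e1]; simp
    have h1 : ∑ l ∈ A, (⌊(M.x l t - M.h i) / L⌋ - ⌊(M.h l - M.h i) / L⌋) ≤ (A.card : ℤ) - 1 := by
      rw [← Finset.add_sum_erase A _ hiA, h0, zero_add]
      have h2 : ∑ l ∈ A.erase i, (⌊(M.x l t - M.h i) / L⌋ - ⌊(M.h l - M.h i) / L⌋) ≤
          ∑ l ∈ A.erase i, (1 : ℤ) := by
        apply Finset.sum_le_sum
        intro l hl
        obtain ⟨hli, hlA⟩ := Finset.mem_erase.1 hl
        obtain ⟨o1, o2⟩ := hord l hlA hli
        have : ⌊(M.x l t - M.h i) / L⌋ < ⌊(M.h l - M.h i) / L⌋ + 2 := by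
          rw [Int.floor_lt, div_lt_iff₀ hL]
          push_cast
          linarith
        omega
      rw [Finset.sum_const, Finset.card_erase_of_mem hiA] at h2
      have h3 : 1 ≤ A.card := Finset.card_pos.2 ⟨i, hiA⟩
      simp only [mul_one, nsmul_eq_mul] at h2
      push_cast [Nat.cast_sub h3] at h2
      linarith
    linarith
  · rw [hsplit, hself]
    have h1 : (A.card : ℤ) ≤ ∑ l ∈ A, (⌊(M.x l t - M.h i) / L⌋ - ⌊(M.h l - M.h i) / L⌋) := by
      have h2 : ∑ l ∈ A, (1 : ℤ) ≤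
          ∑ l ∈ A, (⌊(M.x l t - M.h i) / L⌋ - ⌊(M.h l - M.h i) / L⌋) := by
        apply Finset.sum_le_sum
        intro l hl
        by_cases hli : l = i
        · subst hli
          rw [hx]
          have : (M.h l + L - M.h l) / L = 1 := by field_simp; ring
          rw [this]; simp
        · obtain ⟨o1, o2⟩ := hord l hl hli
          have : ⌊(M.h l - M.h i) / L⌋ + 1 ≤ ⌊(M.x l t - M.h i) / L⌋ := by
            rw [Int.le_floor, le_div_iff₀ hL]
            push_cast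
            linarith
          omega
      simpa using h2
    linarith
  · rw [hsplit, hself']
    have h1 : ∑ l ∈ A, (⌈(M.x l t - M.h i) / L⌉ - ⌈(M.h l - M.h i) / L⌉) ≤ 0 := by
      apply Finset.sum_nonpos
      intro l hl
      by_cases hli : l = i
      · subst hli
        rw [hx]; simp
      · obtain ⟨o1, o2⟩ := hord l hl hli
        obtain ⟨q1, q2⟩ := hq l hli
        have e1 : ⌊(M.h l - M.h i) / L⌋ + 1 ≤ ⌈(M.h l - M.h i) / L⌉ := by
          apply Int.add_one_le_of_lt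
          rw [Int.lt_ceil, lt_div_iff₀ hL]
          exact q1
        have e2 : ⌈(M.x l t - M.h i) / L⌉ ≤ ⌊(M.h l - M.h i) / L⌋ + 1 := by
          rw [Int.ceil_le, div_le_iff₀ hL]
          push_cast
          linarith
        omega
    linarith

end Q32.RB
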