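import Mathlib
import Pool.Agent.Q32.RB.Range

/-!
# Bouncing robots: a left-starter is killed by the nearest right token
-/

namespace Q32.RB

open Finset

theorem ndieP : S_NDIE := by
  intro ι _ L M hL j k s z hj hk hs hsL hsk harc1 harc2
  have heq : ∀ i l : ι, ∀ y : ℤ, M.h i = M.h l + y * L → i = l := by
    intro i l y h
    by_contra hne
    exact M.homes i l hne y h
  -- token `k` is not killed before time `s`, and at time `s` only by `j`
  have hkill : ∀ t, 0 ≤ t → ∀ σ z' a, M.Tok t σ z' a → ∀ l T, M.DeathAt l T → T ≤ t → T ≤ s →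
      σ l = k → T = s ∧ l = j := by
    intro t ht σ z' a hT l T hd hTt hTs hl
    obtain ⟨h1, h2⟩ := hT.dead l T hTt hd
    have h3 := hT.pos l
    obtain ⟨y, hy⟩ := hd.2.1
    rw [((death ι L M hL).2 l T hd t hTt).1, h1, hl, hy, hk] at h3
    rcases hTs.lt_or_eq with h | h
    · exfalso
      apply harc1 l (y - z' l)
      have := hd.1
      push_cast
      constructor <;> linarith
    · refine ⟨h, heq l j (z - y + z' l) ?_⟩
      rw [h] at h3
      push_cast
      linarith
  -- the token killed by `j`
  have hkj : ∀ T, M.DeathAt j T → T ≤ s → ∀ t, T ≤ t → ∀ σ z' a, M.Tok t σ z' a →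
      T = s ∧ σ j = k ∧ M.w j T = 1 := by
    intro T hd hTs t hTt σ z' a hT
    obtain ⟨h1, h2⟩ := hT.dead j T hTt hd
    have h3 := hT.pos j
    obtain ⟨y, hy⟩ := hd.2.1
    rw [((death ι L M hL).2 j T hd t hTt).1, h1, hy] at h3
    have hT0 := hd.1
    rcases M.dir (σ j) with hdir | hdir
    · rw [hdir] at h3 h2
      rcases hTs.lt_or_eq with h | h
      · exfalso
        apply harc1 (σ j) (z + z' j - y)
        push_cast
        constructor <;> linarith
      · refine ⟨h, heq (σ j) k (y - z - z' j) ?_, h2⟩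
        rw [h] at h3
        push_cast
        linarith
    · exfalso
      rw [hdir] at h3
      apply harc2 (σ j) (z' j - y) hdir
      push_cast
      constructor <;> linarith
  -- `j` is dead at time `s`
  have hdead : ¬ M.Alive j s := by
    intro hA
    obtain ⟨σ, z', a, hT⟩ := tok ι L M hL s hs.le
    set e := σ.symm k with he
    have hσe : σ e = k := by rw [he, Equiv.apply_symm_apply]
    have hAe : M.Alive e s := by
      by_contra hn
      obtain ⟨T, hTs, hd⟩ := (death ι L M hL).1 e s hs.le hn
      obtain ⟨h1, h2⟩ := hkill s hs.le σ z' a hT e T hd hTs hTs hσe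
      rw [h2, h1] at hd
      exact hA s hs le_rfl hd.2.1
    obtain ⟨e1, e2⟩ := hT.alive e hAe
    have hpos := hT.pos e
    rw [e1, hσe, hk] at hpos
    -- lift of `e`
    set y : ℤ := -(z + z' e) with hy
    have hxe : M.x e s + y * L = M.h j := by
      rw [hpos, hy]; push_cast; linarith
    have hejne : e ≠ j := by
      intro h
      apply hA s hs le_rfl
      rw [h] at hxe
      exact ⟨-y, by push_cast; linarith⟩
    obtain ⟨r1, r2⟩ := ((range' ι L M hL j s hs (fun r h1 h2 => hA r h1 h2.le)).2 hj).2.2 hA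
    have hAeB : M.AliveB e s := fun r h1 h2 => hAe r h1 h2.le
    have hAjB : M.AliveB j s := fun r h1 h2 => hA r h1 h2.le
    have hlt : M.h j < M.h e + y * L := by
      by_contra hcon
      push Not at hcon
      rcases hcon.lt_or_eq with h | h
      · have := ord ι L M hL e j (-y) (by push_cast; linarith) s hs.le hAeB hAjB
        push_cast at this
        linarith
      · exact M.homes j e (Ne.symm hejne) y h.symm
    have hlip := (lip ι L M hL e 0 s le_rfl hs.le).2
    rw [M.start, sub_zero] at hlip
    rcases M.dir e with hde | hde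
    · obtain ⟨q1, q2⟩ := ((range' ι L M hL e s hs hAeB).1 hde).2.2 hAe
      linarith
    · exact harc2 e y hde ⟨hlt, by linarith⟩
  obtain ⟨T, hTs, hd⟩ := (death ι L M hL).1 j s hs.le hdead
  obtain ⟨σ, z', a, hT⟩ := tok ι L M hL s hs.le
  obtain ⟨h1, h2, h3⟩ := hkj T hd hTs s hTs σ z' a hT
  subst h1
  refine ⟨hd, ?_, fun t ht σ z' a hT => ?_⟩
  · rcases (dvel ι L M hL j T hd).2 hj with h | h
    · exact h.1
    · rw [h3] at h; exfalso; linarith [h.2]
  · exact ⟨(hkj T hd le_rfl t ht σ z' a hT).2.1, (hT.dead j T ht hd).1⟩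

end Q32.RB
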