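import Mathlib
import Pool.Agent.Q32.RB.Stm

/-!
# Bouncing robots: normalisation
-/

namespace Q32.RB

open Finset

section scale

variable {ι : Type} {L : ℝ} (M : Motion ι L) (g : ι → ℤ)

theorem sc_home (hL : 0 < L) (i : ι) (t : ℝ) :
    AtHome 1 (fun i => M.h i / L - g i) (fun i t => M.x i (L * t) / L - g i) i t ↔
      M.AtHome i (L * t) := by
  unfold AtHome Motion.AtHome AtHome
  constructor
  · rintro ⟨z, hz⟩
    refine ⟨z, ?_⟩
    have : M.x i (L * t) / L = M.h i / L + z := by linarith
    field_simp at this
    linarith
  · rintro ⟨z, hz⟩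
    refine ⟨z, ?_⟩
    show M.x i (L * t) / L - g i = M.h i / L - g i + z * 1
    rw [hz]
    field_simp
    ring

theorem sc_alive (hL : 0 < L) (i : ι) (t : ℝ) :
    Alive 1 (fun i => M.h i / L - g i) (fun i t => M.x i (L * t) / L - g i) i t ↔
      M.Alive i (L * t) := by
  constructor
  · intro h s hs hst hA
    have h1 : L * (s / L) = s := by field_simp
    apply h (s / L) (by positivity) (by rw [div_le_iff₀ hL]; linarith)
    rw [sc_home M g hL, h1]
    exact hA
  · intro h s hs hst hA
    rw [sc_home M g hL] at hA
    exact h (L * s) (by positivity) (by nlinarith) hA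

theorem sc_meet (hL : 0 < L) (i k : ι) (t : ℝ) :
    Meet 1 (fun i t => M.x i (L * t) / L - g i) i k t ↔ M.Meet i k (L * t) := by
  unfold Meet Motion.Meet Meet
  constructor
  · rintro ⟨z, hz⟩
    refine ⟨z + g i - g k, ?_⟩
    have : M.x i (L * t) / L = M.x k (L * t) / L + (z + g i - g k) := by linarith
    field_simp at this
    push_cast
    linarith
  · rintro ⟨z, hz⟩
    refine ⟨z - g i + g k, ?_⟩
    show M.x i (L * t) / L - g i = M.x k (L * t) / L - g k + ((z - g i + g k : ℤ) : ℝ) * 1
    rw [hz]
    push_cast
    field_simp
    ring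

/-- scaling to circumference one and shifting the lifts -/
noncomputable def scale (hL : 0 < L) : Motion ι 1 where
  h := fun i => M.h i / L - g i
  d := M.d
  x := fun i t => M.x i (L * t) / L - g i
  v := fun i t => M.v i (L * t)
  w := fun i t => M.w i (L * t)
  homes := by
    intro i k hik z hz
    apply M.homes i k hik (z + g i - g k)
    have : M.h i / L = M.h k / L + (z + g i - g k) := by linarith
    field_simp at this
    push_cast
    linarith
  dir := M.dir
  start := by
    intro i
    simp only [mul_zero, M.start]
  init := by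
    intro i
    simp only [mul_zero, M.init]
  right := by
    intro i t ht
    obtain ⟨ε, hε, h⟩ := M.right i (L * t) (by positivity)
    refine ⟨ε / L, by positivity, fun s h1 h2 => ?_⟩
    have h3 : L * s ≤ L * t + ε := by
      have : s * L ≤ (t + ε / L) * L := mul_le_mul_of_nonneg_right h2 hL.le
      rw [add_mul, div_mul_cancel₀ _ hL.ne'] at this
      linarith
    rw [h (L * s) (by nlinarith) h3]
    field_simp
    ring
  left := by
    intro i t ht
    obtain ⟨ε, hε, h⟩ := M.left i (L * t) (by positivity)
    refine ⟨ε / L, by positivity, fun s h1 h2 => ?_⟩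
    have h3 : L * t - ε ≤ L * s := by
      have : (t - ε / L) * L ≤ s * L := mul_le_mul_of_nonneg_right h1 hL.le
      rw [sub_mul, div_mul_cancel₀ _ hL.ne'] at this
      linarith
    rw [h (L * s) h3 (by nlinarith)]
    field_simp
    ring
  rest := by
    intro i t ht h
    rw [sc_alive M g hL] at h
    exact M.rest i (L * t) (by positivity) h
  free := by
    intro i t ht h hk
    rw [sc_alive M g hL] at h
    apply M.free i (L * t) (by positivity) h
    intro k hki hka hm
    exact hk k hki ((sc_alive M g hL k t).2 hka) ((sc_meet M g hL i k t).2 hm)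
  bounce := by
    intro i k t ht hki hi hk hm
    rw [sc_alive M g hL] at hi hk
    rw [sc_meet M g hL] at hm
    exact M.bounce i k (L * t) (by positivity) hki hi hk hm

theorem scale_surv (hL : 0 < L) : (scale M g hL).survivors = M.survivors := by
  ext i
  constructor
  · intro h t
    have h1 := h (t / L)
    have h2 : L * (t / L) = t := by field_simp
    have h3 := (sc_alive M g hL i (t / L)).1 h1
    rwa [h2] at h3
  · intro h t
    exact (sc_alive M g hL i t).2 (h (L * t))

end scale

section reindex

variable {ι κ : Type} {L : ℝ} (M : Motion ι L) (e : κ ≃ ι)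

/-- renaming the robots -/
def reindex : Motion κ L where
  h := fun i => M.h (e i)
  d := fun i => M.d (e i)
  x := fun i => M.x (e i)
  v := fun i => M.v (e i)
  w := fun i => M.w (e i)
  homes := fun i k hik z => M.homes (e i) (e k) (fun h => hik (e.injective h)) z
  dir := fun i => M.dir (e i)
  start := fun i => M.start (e i)
  init := fun i => M.init (e i)
  right := fun i t ht => M.right (e i) t ht
  left := fun i t ht => M.left (e i) t ht
  rest := fun i t ht h => M.rest (e i) t ht h
  free := by
    intro i t ht h hk
    apply M.free (e i) t ht h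
    intro k hki hka hm
    have h1 : e (e.symm k) = k := e.apply_symm_apply k
    apply hk (e.symm k)
    · intro h2
      apply hki
      rw [← h1, h2]
    · intro s hs hst
      have := hka s hs hst
      show ¬ ∃ z : ℤ, M.x (e (e.symm k)) s = M.h (e (e.symm k)) + z * L
      rw [h1]
      exact this
    · show ∃ z : ℤ, M.x (e i) t = M.x (e (e.symm k)) t + z * L
      rw [h1]
      exact hm
  bounce := fun i k t ht hki hi hk hm =>
    M.bounce (e i) (e k) t ht (fun h => hki (e.injective h)) hi hk hm

theorem reindex_surv : (reindex M e).survivors = e ⁻¹' M.survivors := rfl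

theorem reindex_ncard : (reindex M e).survivors.ncard = M.survivors.ncard := by
  rw [reindex_surv]
  have : (e ⁻¹' M.survivors) = e.symm '' M.survivors := by
    rw [Equiv.image_symm_eq_preimage]
  rw [this]
  exact Set.ncard_image_of_injective _ e.symm.injective

end reindex

theorem norm : S_NORM := by
  intro ι _ L M n hL hn
  let g : ι → ℤ := fun i => ⌊M.h i / L⌋
  let M1 := scale M g hL
  have hM1 : ∀ i, M1.h i = Int.fract (M.h i / L) := fun i => rfl
  have hinj : Function.Injective M1.h := by
    intro i k hik
    by_contra hne
    exact M1.homes i k hne 0 (by rw [hik]; simp)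
  let e0 : Fin n ≃ ι := (Fintype.equivFinOfCardEq hn).symm
  let f : Fin n → ℝ := fun i => M1.h (e0 i)
  let e : Fin n ≃ ι := (Tuple.sort f).trans e0
  have hmono : Monotone (fun i => M1.h (e i)) := Tuple.monotone_sort f
  refine ⟨reindex M1 e, ?_, ?_, ?_⟩
  · exact hmono.strictMono_of_injective (hinj.comp e.injective)
  · intro i
    show 0 ≤ M1.h (e i) ∧ M1.h (e i) < 1
    rw [hM1]
    exact ⟨Int.fract_nonneg _, Int.fract_lt_one _⟩
  · rw [reindex_ncard]
    show (scale M g hL).survivors.ncard = _
    rw [scale_surv]

end Q32.RB
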