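import Mathlib
import Pool.Agent.Q32.RB.Base
import Pool.Agent.Q32.RB.Range

/-!
# Bouncing robots: adding a killing pair
-/

namespace Q32.RB

open Finset

/-- displacement of the new robots -/
noncomputable def pp (δ t : ℝ) : ℝ := if t ≤ δ then t else if t ≤ 2 * δ then 2 * δ - t else 0

/-- velocity just after -/
noncomputable def pv (δ t : ℝ) : ℝ := if t < δ then 1 else if t < 2 * δ then -1 else 0

/-- velocity just before -/
noncomputable def pw (δ t : ℝ) : ℝ := if t ≤ δ then 1 else if t ≤ 2 * δ then -1 else 0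

theorem pp_right (δ t : ℝ) (hδ : 0 < δ) :
    ∃ ε > 0, ∀ s, t ≤ s → s ≤ t + ε → pp δ s = pp δ t + pv δ t * (s - t) := by
  unfold pp pv
  rcases lt_or_ge t δ with h | h
  · refine ⟨δ - t, by linarith, fun s h1 h2 => ?_⟩
    rw [if_pos (show s ≤ δ by linarith), if_pos h.le, if_pos h]; ring
  · rcases lt_or_ge t (2 * δ) with h' | h'
    · refine ⟨2 * δ - t, by linarith, fun s h1 h2 => ?_⟩
      rw [if_neg (show ¬ t < δ by linarith), if_pos h']
      split_ifs <;> linarith
    · refine ⟨1, one_pos, fun s h1 h2 => ?_⟩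
      rw [if_neg (show ¬ t < δ by linarith), if_neg (show ¬ t < 2 * δ by linarith)]
      split_ifs <;> linarith

theorem pp_left (δ t : ℝ) (hδ : 0 < δ) (ht : 0 < t) :
    ∃ ε > 0, ∀ s, t - ε ≤ s → s ≤ t → pp δ s = pp δ t + pw δ t * (s - t) := by
  unfold pp pw
  rcases le_or_gt t δ with h | h
  · refine ⟨t, ht, fun s h1 h2 => ?_⟩
    rw [if_pos (show s ≤ δ by linarith), if_pos h, if_pos h]; ring
  · rcases le_or_gt t (2 * δ) with h' | h'
    · refine ⟨t - δ, by linarith, fun s h1 h2 => ?_⟩
      rw [if_neg (show ¬ t ≤ δ by linarith), if_pos h', if_neg (show ¬ t ≤ δ by linarith),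
        if_pos h']
      split_ifs <;> linarith
    · refine ⟨t - 2 * δ, by linarith, fun s h1 h2 => ?_⟩
      rw [if_neg (show ¬ t ≤ δ by linarith), if_neg (show ¬ t ≤ 2 * δ by linarith),
        if_neg (show ¬ t ≤ δ by linarith), if_neg (show ¬ t ≤ 2 * δ by linarith)]
      split_ifs <;> linarith

theorem pp_bd (δ t : ℝ) (hδ : 0 < δ) (ht : 0 ≤ t) : 0 ≤ pp δ t ∧ pp δ t ≤ δ := by
  unfold pp
  split_ifs <;> constructor <;> linarith

theorem pp_pos (δ t : ℝ) (ht : 0 < t) (h : t < 2 * δ) : 0 < pp δ t := by
  unfold pp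
  split_ifs <;> linarith

theorem pp_end (δ : ℝ) (hδ : 0 < δ) : pp δ (2 * δ) = 0 := by
  unfold pp
  split_ifs <;> linarith

theorem pp_top (δ t : ℝ) (hδ : 0 < δ) (h : pp δ t = δ) : t = δ := by
  unfold pp at h
  split_ifs at h <;> linarith

/-- the free arc -/
theorem gap {ι : Type} [Fintype ι] {L : ℝ} (M : Motion ι L) (hL : 0 < L) :
    ∃ y δ : ℝ, 0 < δ ∧ 10 * δ < L ∧ ∀ (i : ι) (z : ℤ) (y' : ℝ), y - 3 * δ ≤ y' → y' ≤ y + 5 * δ →
      y' ≠ M.h i + z * L := by
  have hc : (Set.range (fun p : ι × ℤ => M.h p.1 + p.2 * L)).Countable := Set.countable_range _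
  obtain ⟨y, hy⟩ := (hc.dense_compl ℝ).nonempty
  have hy' : ∀ i : ι, ∀ z : ℤ, y - M.h i ≠ z * L := by
    intro i z hz
    apply hy
    exact ⟨(i, z), by dsimp only; linarith⟩
  have h1 : ∃ ε > 0, ∀ i : ι, ∀ y', |y' - (y - M.h i)| < ε → ∀ z : ℤ, y' ≠ z * L := by
    apply exists_eps (fun i ε => ∀ y', |y' - (y - M.h i)| < ε → ∀ z : ℤ, y' ≠ z * L)
    · intro i
      exact lattice_nbhd hL (hy' i)
    · intro i ε ε' h _ hε y' hy
      exact h y' (by linarith)
  obtain ⟨ε, hε, h2⟩ := h1
  refine ⟨y, min (ε / 10) (L / 20), by positivity, ?_, ?_⟩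
  · have := min_le_right (ε / 10) (L / 20)
    linarith
  · intro i z y' h3 h4 h5
    have h6 := min_le_left (ε / 10) (L / 20)
    apply h2 i (y' - M.h i) _ z (by linarith)
    rw [abs_lt]
    constructor <;> linarith

/-- sign of the new robots -/
def sg (j : Fin 2) : ℝ := if j = 0 then 1 else -1

theorem sg_zero : sg 0 = 1 := by simp [sg]
theorem sg_one : sg 1 = -1 := by simp [sg]

theorem sg_cases (j : Fin 2) : sg j = 1 ∨ sg j = -1 := by
  fin_cases j
  · left; exact sg_zero
  · right; exact sg_one

/-- homes of the new robots -/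
noncomputable def hb (y δ : ℝ) (j : Fin 2) : ℝ := if j = 0 then y else y + 2 * δ

theorem pair : S_PAIR := by
  intro ι _ L M hL
  obtain ⟨y, δ, hδ, hδL, hgap⟩ := gap M hL
  let h' : ι ⊕ Fin 2 → ℝ := Sum.elim M.h (hb y δ)
  let x' : ι ⊕ Fin 2 → ℝ → ℝ := Sum.elim M.x (fun j t => hb y δ j + sg j * pp δ t)
  let v' : ι ⊕ Fin 2 → ℝ → ℝ := Sum.elim M.v (fun j t => sg j * pv δ t)
  let w' : ι ⊕ Fin 2 → ℝ → ℝ := Sum.elim M.w (fun j t => sg j * pw δ t)
  have alL : ∀ i t, Alive L h' x' (Sum.inl i) t ↔ M.Alive i t := fun i t => Iff.rfl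
  have alR : ∀ j t, 0 ≤ t → (Alive L h' x' (Sum.inr j) t ↔ t < 2 * δ) := by
    intro j t ht
    constructor
    · intro h
      by_contra hn
      push Not at hn
      apply h (2 * δ) (by positivity) hn
      refine ⟨0, ?_⟩
      show hb y δ j + sg j * pp δ (2 * δ) = hb y δ j + ((0 : ℤ) : ℝ) * L
      rw [pp_end δ hδ]; simp
    · intro h s hs hst
      rintro ⟨z, hz⟩
      have hz' : sg j * pp δ s = z * L := by
        have : hb y δ j + sg j * pp δ s = hb y δ j + z * L := hz
        linarith
      have h1 := pp_pos δ s hs (by linarith)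
      have h2 := (pp_bd δ s hδ hs.le).2
      have h3 : |(z : ℝ) * L| < L := by
        rw [← hz', abs_mul, abs_of_pos h1]
        rcases sg_cases j with h | h <;> rw [h] <;> simp <;> linarith
      have h4 : 0 < |(z : ℝ) * L| := by
        rw [← hz', abs_mul, abs_of_pos h1]
        rcases sg_cases j with h | h <;> rw [h] <;> simp <;> linarith
      rw [abs_mul, abs_of_pos hL] at h3 h4
      have h5 : |(z : ℝ)| < 1 := by
        by_contra hn
        push Not at hn
        nlinarith
      have h6 : |z| < 1 := by exact_mod_cast h5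
      have h7 : z = 0 := Int.abs_lt_one_iff.1 h6
      rw [h7] at h4
      simp at h4
  -- an old robot does not meet a living new robot
  have nomeet : ∀ i j t, 0 < t → t < 2 * δ → ∀ z : ℤ,
      M.x i t ≠ hb y δ j + sg j * pp δ t + z * L := by
    intro i j t ht ht2 z hz
    have h1 := lip ι L M hL i 0 t le_rfl ht.le
    rw [M.start] at h1
    have h2 := pp_bd δ t hδ ht.le
    apply hgap i (-z) (M.h i - z * L) _ _ (by push_cast; ring)
    · fin_cases j
      · rw [show hb y δ (⟨0, by norm_num⟩ : Fin 2) = y from by simp [hb]] at hz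
        rw [show sg (⟨0, by norm_num⟩ : Fin 2) = 1 from sg_zero] at hz
        linarith
      · rw [show hb y δ (⟨1, by norm_num⟩ : Fin 2) = y + 2 * δ from by simp [hb]] at hz
        rw [show sg (⟨1, by norm_num⟩ : Fin 2) = -1 from sg_one] at hz
        linarith
    · fin_cases j
      · rw [show hb y δ (⟨0, by norm_num⟩ : Fin 2) = y from by simp [hb]] at hz
        rw [show sg (⟨0, by norm_num⟩ : Fin 2) = 1 from sg_zero] at hz
        linarith
      · rw [show hb y δ (⟨1, by norm_num⟩ : Fin 2) = y + 2 * δ from by simp [hb]] at hz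
        rw [show sg (⟨1, by norm_num⟩ : Fin 2) = -1 from sg_one] at hz
        linarith
  -- two new robots meet at time δ only
  have newmeet : ∀ j k t, 0 < t → t < 2 * δ → k ≠ j → Meet L x' (Sum.inr j) (Sum.inr k) t →
      t = δ := by
    intro j k t ht ht2 hkj hm
    obtain ⟨z, hz⟩ := hm
    have hz' : hb y δ j + sg j * pp δ t = hb y δ k + sg k * pp δ t + z * L := hz
    have h2 := pp_bd δ t hδ ht.le
    have key : ∀ z : ℤ, y + 1 * pp δ t = y + 2 * δ + -1 * pp δ t + z * L → t = δ := by
      intro z hz
      apply pp_top δ t hδ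
      have h3 : 2 * pp δ t - 2 * δ = z * L := by linarith
      have h4 : |(z : ℝ) * L| < L := by
        rw [← h3, abs_lt]; constructor <;> linarith
      rw [abs_mul, abs_of_pos hL] at h4
      have h5 : |(z : ℝ)| < 1 := by
        by_contra hn
        push Not at hn
        nlinarith
      have h6 : |z| < 1 := by exact_mod_cast h5
      have h7 : z = 0 := Int.abs_lt_one_iff.1 h6
      rw [h7] at h3
      push_cast at h3
      linarith
    have b0 : hb y δ 0 = y := by simp [hb]
    have b1 : hb y δ 1 = y + 2 * δ := by simp [hb]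
    have hj : j = 0 ∨ j = 1 := by omega
    have hk : k = 0 ∨ k = 1 := by omega
    rcases hj with hj | hj <;> rcases hk with hk | hk
    · exact absurd (hk.trans hj.symm) hkj
    · rw [hj, hk, b0, b1, sg_zero, sg_one] at hz'
      exact key z hz'
    · rw [hj, hk, b0, b1, sg_zero, sg_one] at hz'
      exact key (-z) (by push_cast; linarith)
    · exact absurd (hk.trans hj.symm) hkj
  refine ⟨{ h := h', d := Sum.elim M.d sg, x := x', v := v', w := w',
            homes := ?_, dir := ?_, start := ?_, init := ?_, right := ?_, left := ?_,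
            rest := ?_, free := ?_, bounce := ?_ }, ?_⟩
  · -- homes
    have b0 : hb y δ 0 = y := by simp [hb]
    have b1 : hb y δ 1 = y + 2 * δ := by simp [hb]
    have old : ∀ i (j : Fin 2) (z : ℤ), hb y δ j ≠ M.h i + z * L := by
      intro i j z
      have hj : j = 0 ∨ j = 1 := by omega
      rcases hj with hj | hj
      · rw [hj, b0]; exact hgap i z y (by linarith) (by linarith)
      · rw [hj, b1]; exact hgap i z _ (by linarith) (by linarith)
    have new : ∀ z : ℤ, 2 * δ ≠ z * L := by
      intro z h3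
      have h4 : |(z : ℝ) * L| < L := by
        rw [← h3, abs_lt]; constructor <;> linarith
      rw [abs_mul, abs_of_pos hL] at h4
      have h5 : |(z : ℝ)| < 1 := by
        by_contra hn
        push Not at hn
        nlinarith
      have h6 : |z| < 1 := by exact_mod_cast h5
      have h7 : z = 0 := Int.abs_lt_one_iff.1 h6
      rw [h7] at h3
      push_cast at h3
      linarith
    rintro (i | j) (k | l) hne z hz
    · exact M.homes i k (fun h => hne (by rw [h])) z hz
    · have hz' : M.h i = hb y δ l + z * L := hz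
      exact old i l (-z) (by push_cast; linarith)
    · exact old k j z hz
    · have hz' : hb y δ j = hb y δ l + z * L := hz
      have hj : j = 0 ∨ j = 1 := by omega
      have hl : l = 0 ∨ l = 1 := by omega
      rcases hj with hj | hj <;> rcases hl with hl | hl
      · exact hne (by rw [hj, hl])
      · rw [hj, hl, b0, b1] at hz'
        exact new (-z) (by push_cast; linarith)
      · rw [hj, hl, b0, b1] at hz'
        exact new z (by linarith)
      · exact hne (by rw [hj, hl])
  · -- dir
    rintro (i | j)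
    · exact M.dir i
    · exact sg_cases j
  · -- start
    rintro (i | j)
    · exact M.start i
    · show hb y δ j + sg j * pp δ 0 = hb y δ j
      have : pp δ 0 = 0 := by unfold pp; rw [if_pos hδ.le]
      rw [this]; ring
  · -- init
    rintro (i | j)
    · exact M.init i
    · show sg j * pv δ 0 = sg j
      have : pv δ 0 = 1 := by unfold pv; rw [if_pos hδ]
      rw [this]; ring
  · -- right
    rintro (i | j) t ht
    · exact M.right i t ht
    · obtain ⟨ε, hε, h⟩ := pp_right δ t hδ
      refine ⟨ε, hε, fun s h1 h2 => ?_⟩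
      show hb y δ j + sg j * pp δ s = hb y δ j + sg j * pp δ t + sg j * pv δ t * (s - t)
      rw [h s h1 h2]; ring
  · -- left
    rintro (i | j) t ht
    · exact M.left i t ht
    · obtain ⟨ε, hε, h⟩ := pp_left δ t hδ ht
      refine ⟨ε, hε, fun s h1 h2 => ?_⟩
      show hb y δ j + sg j * pp δ s = hb y δ j + sg j * pp δ t + sg j * pw δ t * (s - t)
      rw [h s h1 h2]; ring
  · -- rest
    rintro (i | j) t ht hA
    · exact M.rest i t ht hA
    · rw [alR j t ht] at hA
      push Not at hA
      show sg j * pv δ t = 0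
      have : pv δ t = 0 := by
        unfold pv
        rw [if_neg (by linarith), if_neg (by linarith)]
      rw [this]; ring
  · -- free
    rintro (i | j) t ht hA hk
    · apply M.free i t ht hA
      intro k hki hka hm
      exact hk (Sum.inl k) (fun h => hki (Sum.inl.inj h)) hka hm
    · rw [alR j t ht.le] at hA
      show sg j * pv δ t = sg j * pw δ t
      have hne : t ≠ δ := by
        intro htd
        have hj : j = 0 ∨ j = 1 := by omega
        have hpd : pp δ δ = δ := by unfold pp; rw [if_pos le_rfl]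
        have b0 : hb y δ 0 = y := by simp [hb]
        have b1 : hb y δ 1 = y + 2 * δ := by simp [hb]
        rcases hj with hj | hj
        · apply hk (Sum.inr 1) (by rw [hj]; simp) ((alR 1 t ht.le).2 hA)
          refine ⟨0, ?_⟩
          show hb y δ j + sg j * pp δ t = hb y δ 1 + sg 1 * pp δ t + ((0 : ℤ) : ℝ) * L
          rw [hj, b0, b1, sg_zero, sg_one, htd, hpd]
          push_cast; ring
        · apply hk (Sum.inr 0) (by rw [hj]; simp) ((alR 0 t ht.le).2 hA)
          refine ⟨0, ?_⟩
          show hb y δ j + sg j * pp δ t = hb y δ 0 + sg 0 * pp δ t + ((0 : ℤ) : ℝ) * L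
          rw [hj, b0, b1, sg_zero, sg_one, htd, hpd]
          push_cast; ring
      have : pv δ t = pw δ t := by
        unfold pv pw
        rcases lt_or_gt_of_ne hne with h | h
        · rw [if_pos h, if_pos h.le]
        · rw [if_neg (by linarith), if_pos hA, if_neg (by linarith), if_pos hA.le]
      rw [this]
  · -- bounce
    rintro (i | j) (k | l) t ht hki hAi hAk hm
    · exact M.bounce i k t ht (fun h => hki (by rw [h])) hAi hAk hm
    · exfalso
      rw [alR l t ht.le] at hAk
      obtain ⟨z, hz⟩ := hm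
      exact nomeet i l t ht hAk z hz
    · exfalso
      rw [alR j t ht.le] at hAi
      obtain ⟨z, hz⟩ := hm
      have hz' : hb y δ j + sg j * pp δ t = M.x k t + z * L := hz
      exact nomeet k j t ht hAi (-z) (by push_cast; linarith)
    · rw [alR j t ht.le] at hAi
      have hne : l ≠ j := fun h => hki (by rw [h])
      have htd := newmeet j l t ht hAi hne hm
      show sg j * pv δ t = sg l * pw δ t
      have e1 : pv δ t = -1 := by
        unfold pv; rw [htd, if_neg (by linarith), if_pos (by linarith)]
      have e2 : pw δ t = 1 := by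
        unfold pw; rw [htd, if_pos le_rfl]
      rw [e1, e2]
      have hj : j = 0 ∨ j = 1 := by omega
      have hl : l = 0 ∨ l = 1 := by omega
      rcases hj with hj | hj <;> rcases hl with hl | hl
      · exact absurd (hl.trans hj.symm) hne
      · rw [hj, hl, sg_zero, sg_one]; ring
      · rw [hj, hl, sg_zero, sg_one]; ring
      · exact absurd (hl.trans hj.symm) hne
  · -- survivors
    have hsub : Sum.inl '' M.survivors ⊆ {i : ι ⊕ Fin 2 | ∀ t, Alive L h' x' i t} := by
      rintro _ ⟨i, hi, rfl⟩ t
      exact hi t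
    have hinj : (Sum.inl '' M.survivors : Set (ι ⊕ Fin 2)).ncard = M.survivors.ncard :=
      Set.ncard_image_of_injective _ Sum.inl_injective
    rw [← hinj]
    exact Set.ncard_le_ncard hsub (Set.toFinite _)

end Q32.RB
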