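import Mathlib
import Pool.Agent.Q32.RB.Fin

/-!
# Bouncing robots: the upper bound
-/

namespace Q32.RB

open Finset

/-- the lift of a home relative to another one -/
theorem lift_mem {ι : Type} {L : ℝ} (M : Motion ι L) (hL : 0 < L) {i j : ι} (hij : i ≠ j) :
    M.h j < M.h i - ⌊(M.h i - M.h j) / L⌋ * L ∧
      M.h i - ⌊(M.h i - M.h j) / L⌋ * L < M.h j + L := by
  have h1 := Int.floor_le ((M.h i - M.h j) / L)
  have h2 := Int.lt_floor_add_one ((M.h i - M.h j) / L)
  rw [le_div_iff₀ hL] at h1
  rw [div_lt_iff₀ hL] at h2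
  refine ⟨lt_of_le_of_ne (by linarith) (fun h => ?_), by linarith⟩
  exact M.homes i j hij _ (by linarith)

theorem floor_unique {L y : ℝ} (hL : 0 < L) {m : ℤ} (h1 : (m : ℝ) * L ≤ y)
    (h2 : y < (m + 1) * L) : ⌊y / L⌋ = m := by
  rw [Int.floor_eq_iff, le_div_iff₀ hL, div_lt_iff₀ hL]
  exact ⟨h1, h2⟩

theorem ub1 : S_UB1 := by
  classical
  intro ι _ L M hL i0 j0 hi0 hj0
  -- it is enough to treat a right-starter and a left-starter
  suffices H : ∀ i j, i ∈ M.survivors → j ∈ M.survivors → M.d i = 1 → M.d j = -1 → False by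
    rcases M.dir i0 with h1 | h1 <;> rcases M.dir j0 with h2 | h2
    · rw [h1, h2]
    · exact (H i0 j0 hi0 hj0 h1 h2).elim
    · exact (H j0 i0 hj0 hi0 h2 h1).elim
    · rw [h1, h2]
  clear i0 j0 hi0 hj0
  intro i1 j1 hi1 hj1 hdi1 hdj1
  obtain ⟨Sv, K, T0, hT0, hSm, hcard, h4, h5, h6, -, -⟩ := fin ι L M hL
  let F : Finset (ι × ι) := univ.filter (fun q => q.1 ∈ M.survivors ∧ q.2 ∈ M.survivors ∧
    M.d q.1 = 1 ∧ M.d q.2 = -1)
  let φ : ι × ι → ℝ := fun q => M.h q.1 - M.h q.2 - ⌊(M.h q.1 - M.h q.2) / L⌋ * L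
  have hFne : F.Nonempty := ⟨(i1, j1), by
    simp only [F, mem_filter, mem_univ, true_and]; exact ⟨hi1, hj1, hdi1, hdj1⟩⟩
  obtain ⟨⟨i, j⟩, hij, hmin⟩ := Finset.exists_min_image F φ hFne
  simp only [F, mem_filter, mem_univ, true_and] at hij
  obtain ⟨hi, hj, hdi, hdj⟩ := hij
  have hne : i ≠ j := by rintro rfl; rw [hdi] at hdj; norm_num at hdj
  set q : ℤ := ⌊(M.h i - M.h j) / L⌋ with hq
  obtain ⟨l1, l2⟩ := lift_mem M hL hne
  rw [← hq] at l1 l2
  have hmin' : ∀ i' j', i' ∈ M.survivors → j' ∈ M.survivors → M.d i' = 1 → M.d j' = -1 →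
      M.h i - M.h j - q * L ≤ M.h i' - M.h j' - ⌊(M.h i' - M.h j') / L⌋ * L := by
    intro i' j' a1 a2 a3 a4
    have := hmin (i', j') (by simp only [F, mem_filter, mem_univ, true_and]; exact ⟨a1, a2, a3, a4⟩)
    simpa [φ, hq] using this
  -- lifts of the survivors
  have hlift : ∀ k ∈ M.survivors, ∃ y : ℤ, M.h i - q * L ≤ M.h k + y * L ∧
      M.h k + y * L ≤ M.h j + L := by
    intro k hk
    by_cases hkj : k = j
    · subst hkj
      exact ⟨1, by push_cast; linarith, by push_cast; linarith⟩
    · obtain ⟨m1, m2⟩ := lift_mem M hL hkj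
      set r : ℤ := ⌊(M.h k - M.h j) / L⌋ with hr
      refine ⟨-r, ?_, by push_cast; linarith⟩
      push_cast
      by_contra hcon
      push Not at hcon
      rcases M.dir k with hd | hd
      · have := hmin' k j hk hj hd hdj
        rw [← hr] at this
        linarith
      · have := hmin' i k hi hk hdi hd
        rw [floor_unique hL (m := q - r) (by push_cast; linarith) (by push_cast; linarith)] at this
        push_cast at this
        linarith
  -- no survivor is ever at the home of `j`
  have hno : ∀ k ∈ M.survivors, ∀ t, 0 < t → ∀ y : ℤ, M.x k t ≠ M.h j + y * L := by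
    intro k hk t ht y hy
    have hB : ∀ l ∈ M.survivors, M.AliveB l t := fun l hl r h1 h2 => hl t r h1 h2.le
    obtain ⟨r1, -⟩ := ((range' ι L M hL i t ht (hB i hi)).1 hdi).2.2 (hi t)
    obtain ⟨-, r2⟩ := ((range' ι L M hL j t ht (hB j hj)).2 hdj).2.2 (hj t)
    obtain ⟨m, m1, m2⟩ := hlift k hk
    have c1 : M.x i t - q * L ≤ M.x k t + m * L := by
      rcases m1.lt_or_eq with h | h
      · have := ord ι L M hL i k (q + m) (by push_cast; linarith) t ht.le (hB i hi) (hB k hk)
        push_cast at this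
        linarith
      · have hik : i = k := by
          by_contra hne'
          exact M.homes i k hne' (q + m) (by push_cast; linarith)
        subst hik
        have : ((m + q : ℤ) : ℝ) * L = 0 := by push_cast; linarith
        push_cast at this
        linarith
    have c2 : M.x k t + m * L ≤ M.x j t + L := by
      rcases m2.lt_or_eq with h | h
      · have := ord ι L M hL k j (1 - m) (by push_cast; linarith) t ht.le (hB k hk) (hB j hj)
        push_cast at this
        linarith
      · have hik : k = j := by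
          by_contra hne'
          exact M.homes k j hne' (1 - m) (by push_cast; linarith)
        subst hik
        have : ((m - 1 : ℤ) : ℝ) * L = 0 := by push_cast; linarith
        push_cast at this
        linarith
    have c3 : M.h j < M.h j + (y + m) * L := by linarith
    have c4 : M.h j + (y + m) * L < M.h j + L := by linarith
    have c5 : (0 : ℝ) < (y + m : ℤ) := by
      by_contra hn; push Not at hn
      push_cast at hn
      nlinarith
    have c6 : ((y + m : ℤ) : ℝ) < 1 := by
      by_contra hn; push Not at hn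
      push_cast at hn
      nlinarith
    have c7 : 0 < y + m := by exact_mod_cast c5
    have c8 : y + m < 1 := by exact_mod_cast c6
    omega
  -- a token in `K`
  have hKne : K.Nonempty := by
    rw [← Finset.card_pos, hcard]
    exact Finset.card_pos.2 ⟨i, (hSm i).2 hi⟩
  obtain ⟨k0, hk0⟩ := hKne
  obtain ⟨m, hm⟩ := exists_nat_gt ((T0 + |M.h j - M.h k0| + 1) / L)
  rw [div_lt_iff₀ hL] at hm
  have habs := abs_le.1 (le_refl |M.h j - M.h k0|)
  have hfin : ∀ t, 0 < t → T0 ≤ t → ∀ y : ℤ, M.h k0 + M.d k0 * t = M.h j + y * L → False := by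
    intro t ht htT y hy
    obtain ⟨σ, z, a, hTok⟩ := tok ι L M hL t ht.le
    have e1 : σ (σ.symm k0) = k0 := Equiv.apply_symm_apply _ _
    have hA := h6 t ht.le σ z a hTok (σ.symm k0) (by rw [e1]; exact hk0)
    have hS := (hSm _).1 (h4 t htT _ hA)
    apply hno _ hS t ht (y + z (σ.symm k0))
    rw [hTok.pos, e1, (hTok.alive _ hA).1]
    push_cast
    linarith
  rcases M.dir k0 with hd | hd
  · apply hfin (M.h j - M.h k0 + m * L) (by linarith) (by linarith) m
    rw [hd]; push_cast; ring
  · apply hfin (M.h k0 - M.h j + m * L) (by linarith) (by linarith) (-m)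
    rw [hd]; push_cast; ring

theorem ldie : S_LDIE := by
  intro ι _ L M hL hne hiff j hj
  have hjs : j ∉ M.survivors := by
    rw [hiff, hj]; norm_num
  obtain ⟨T, hT⟩ := not_survivor M hL j hjs
  refine ⟨T, hT, ?_⟩
  rcases (dvel ι L M hL j T hT).2 hj with h | h
  · exact h
  · exfalso
    obtain ⟨i, hi⟩ := hne
    have hdi := (hiff i).1 hi
    have hij : i ≠ j := by rintro rfl; exact hjs hi
    obtain ⟨l1, l2⟩ := lift_mem M hL hij
    set q : ℤ := ⌊(M.h i - M.h j) / L⌋ with hq
    have hB : M.AliveB i T := fun r h1 h2 => hi T r h1 h2.le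
    have o := ord ι L M hL i j (q + 1) (by push_cast; linarith) T hT.1.le hB hT.2.2
    obtain ⟨r1, -⟩ := ((range' ι L M hL i T hT.1 hB).1 hdi).2.2 (hi T)
    push_cast at o
    rw [h.1] at o
    linarith

theorem chain : S_CHAIN := by
  intro ι _ L M hL hLd k hk hsurv j1 T1 z1 hj1 hT1 hz1
  by_contra hcon
  push Not at hcon
  -- the finite set of bad lifts
  let s : Set (ι × ℤ) := {q | M.d q.1 = -1 ∧ ∃ T, M.DeathAt q.1 T ∧ M.h k < M.h q.1 + q.2 * L ∧
    M.h q.1 + q.2 * L - M.h k ≤ T}
  have hfin : s.Finite := by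
    have hsub : s ⊆ ⋃ i : ι, (fun z : ℤ => (i, z)) '' {z | ∃ T, M.DeathAt i T ∧
        M.h k < M.h i + z * L ∧ M.h i + z * L - M.h k ≤ T} := by
      rintro ⟨i, z⟩ ⟨-, T, hT, h1, h2⟩
      rw [Set.mem_iUnion]
      exact ⟨i, z, ⟨T, hT, h1, h2⟩, rfl⟩
    refine Set.Finite.subset (Set.finite_iUnion (fun i => Set.Finite.image _ ?_)) hsub
    by_cases h : ∃ T, M.DeathAt i T
    · obtain ⟨T, hT⟩ := h
      refine Set.Finite.subset (Set.finite_Icc ⌊(M.h k - M.h i) / L⌋ ⌈(M.h k + T - M.h i) / L⌉) ?_
      rintro z ⟨T', hT', h1, h2⟩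
      have := deathAt_unique hT hT'
      subst this
      constructor
      · rw [← Int.lt_add_one_iff, Int.floor_lt, div_lt_iff₀ hL]
        push_cast
        nlinarith
      · rw [← Int.sub_one_lt_iff, Int.lt_ceil, lt_div_iff₀ hL]
        push_cast
        nlinarith
    · convert Set.finite_empty
      ext z
      simp only [Set.mem_ofPred_eq, Set.mem_empty_iff_false, iff_false]
      rintro ⟨T, hT, -⟩
      exact h ⟨T, hT⟩
  obtain ⟨⟨j, z⟩, ⟨hj, T, hT, h1, h2⟩, hmax⟩ := Set.exists_max_image s
    (fun q => M.h q.1 + q.2 * L) hfin ⟨(j1, z1), hj1, T1, hT1, hz1, hcon⟩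
  simp only at h1 h2 hmax hj hT
  obtain ⟨T', hT', hx', hw'⟩ := hLd j hj
  have hTT := deathAt_unique hT hT'
  subst hTT
  set r := M.h j + z * L - M.h k with hr
  have hr0 : 0 < r := by linarith
  rcases h2.lt_or_eq with hlt | heq
  · obtain ⟨σ, z', a, hTok⟩ := tok ι L M hL r hr0.le
    set e := σ.symm k with he
    have hσe : σ e = k := by rw [he, Equiv.apply_symm_apply]
    have hAe := hsurv r hr0.le σ z' a hTok e hσe
    have hAj : M.Alive j r := fun q h3 h4 => hT.2.2 q h3 (by linarith)
    have hAjB : M.AliveB j r := fun q h3 h4 => hAj q h3 h4.le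
    have hAeB : M.AliveB e r := fun q h3 h4 => hAe q h3 h4.le
    have hpos := hTok.pos e
    rw [(hTok.alive e hAe).1, hσe, hk] at hpos
    obtain ⟨-, q2⟩ := ((range' ι L M hL j r hr0 hAjB).2 hj).2.2 hAj
    have hej : e ≠ j := by
      intro h
      rw [h] at hpos
      apply hAj r hr0 le_rfl
      refine ⟨z + z' j, ?_⟩
      rw [hpos, hr]; push_cast; ring
    have hgt : M.h j + z * L < M.h e + (-z' e : ℤ) * L := by
      by_contra hc
      push Not at hc
      rcases hc.lt_or_eq with h | h
      · have := ord ι L M hL e j (z + z' e) (by push_cast at h ⊢; linarith) r hr0.le hAeB hAjB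
        push_cast at this
        linarith
      · apply M.homes e j hej (z + z' e)
        push_cast at h ⊢
        linarith
    push_cast at hgt
    have hde : M.d e = -1 := by
      rcases M.dir e with h | h
      · exfalso
        obtain ⟨q3, -⟩ := ((range' ι L M hL e r hr0 hAeB).1 h).2.2 hAe
        linarith
      · exact h
    obtain ⟨Te, hTe, hxe, -⟩ := hLd e hde
    have hTe' : r < Te := by
      by_contra hc
      push Not at hc
      exact hAe Te hTe.1 hc hTe.2.1
    have hlip := (lip ι L M hL e r Te hr0.le hTe'.le).1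
    rw [hxe, hpos] at hlip
    have := hmax (e, -z' e) ⟨hde, Te, hTe, by push_cast; linarith, by push_cast; linarith⟩
    simp only at this
    push_cast at this
    linarith
  · obtain ⟨σ, z', a, hTok⟩ := tok ι L M hL T hT.1.le
    obtain ⟨e1, e2⟩ := hTok.dead j T le_rfl hT
    have hpos := hTok.pos j
    rw [e1, ← e2, hw', hx'] at hpos
    have hσ : σ j = k := by
      by_contra hne
      apply M.homes _ _ hne (-z - z' j)
      push_cast
      linarith
    exact hsurv T hT.1.le σ z' a hTok j hσ T hT.1 le_rfl hT.2.1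

theorem ub2 : S_UB2 := by
  classical
  intro ι _ L M hL hne hall
  by_contra hcon
  push Not at hcon
  have hiff : ∀ i, i ∈ M.survivors ↔ M.d i = 1 := fun i => ⟨hall i, hcon i⟩
  have hLd := ldie ι L M hL hne hiff
  obtain ⟨Sv, K, T0, hT0, hSm, hcard, h4, h5, h6, hbal, h8⟩ := fin ι L M hL
  have hKne : K.Nonempty := by
    rw [← Finset.card_pos, hcard]
    obtain ⟨i, hi⟩ := hne
    exact Finset.card_pos.2 ⟨i, (hSm i).2 hi⟩
  -- a surviving right token
  have hk : ∃ k ∈ K, M.d k = 1 := by
    by_contra h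
    push Not at h
    have h1 : ∀ k ∈ K, M.d k = -1 := fun k hk => (M.dir k).resolve_left (h k hk)
    rw [Finset.sum_congr rfl h1] at hbal
    simp only [Finset.sum_const, nsmul_eq_mul, mul_neg, mul_one, neg_eq_zero,
      Nat.cast_eq_zero] at hbal
    exact (Finset.card_pos.2 hKne).ne' hbal
  obtain ⟨k, hkK, hdk⟩ := hk
  have hch := chain ι L M hL hLd k hdk
    (fun t ht σ z a hTok i hi => h6 t ht σ z a hTok i (by rw [hi]; exact hkK))
  obtain ⟨σ, z, a, hTok⟩ := tok ι L M hL L hL.le
  set l : ι → ℤ := fun i => -⌊(M.h i - M.h k) / L⌋ with hl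
  have hl1 : ∀ i, M.h k ≤ M.h i + l i * L ∧ M.h i + l i * L < M.h k + L := by
    intro i
    have h1 := Int.floor_le ((M.h i - M.h k) / L)
    have h2 := Int.lt_floor_add_one ((M.h i - M.h k) / L)
    rw [le_div_iff₀ hL] at h1
    rw [div_lt_iff₀ hL] at h2
    simp only [hl]
    push_cast
    constructor <;> linarith
  have hlk : l k = 0 := by simp [hl]
  -- left-starters are dead at time L
  have hleft : ∀ j, M.d j = -1 → ∃ T, M.DeathAt j T ∧ M.x j T = M.h j ∧ M.w j T = 1 ∧
      T < M.h j + l j * L - M.h k := by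
    intro j hj
    obtain ⟨T, hT, hx, hw⟩ := hLd j hj
    refine ⟨T, hT, hx, hw, hch j T (l j) hj hT ?_⟩
    rcases (hl1 j).1.lt_or_eq with h | h
    · exact h
    · exfalso
      have hjk : k ≠ j := by rintro rfl; rw [hdk] at hj; norm_num at hj
      exact M.homes k j hjk _ h
  have hKim : K = Sv.image σ := by
    apply Finset.eq_of_subset_of_card_le
    · intro k' hk'
      refine Finset.mem_image.2 ⟨σ.symm k', ?_, Equiv.apply_symm_apply _ _⟩
      have hA := h6 L hL.le σ z a hTok (σ.symm k') (by rw [Equiv.apply_symm_apply]; exact hk')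
      rw [hSm, hiff]
      rcases M.dir (σ.symm k') with h | h
      · exact h
      · exfalso
        obtain ⟨T, hT, -, -, hTl⟩ := hleft _ h
        exact hA T hT.1 (by have := (hl1 (σ.symm k')).2; linarith) hT.2.1
    · rw [hcard]; exact Finset.card_image_le
  set zh : ι → ℤ := fun i => z i + l i - l (σ i) with hzh
  have hsum0 : ∑ i, zh i = 0 := by
    simp only [hzh]
    rw [Finset.sum_sub_distrib, Finset.sum_add_distrib, hTok.sum, Equiv.sum_comp σ l]
    ring
  have hposh : ∀ i, M.x i L + l i * L = (M.h (σ i) + l (σ i) * L) + M.d (σ i) * a i + zh i * L := by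
    intro i
    rw [hTok.pos i]
    simp only [hzh]
    push_cast; ring
  -- dead robots
  have hzdead : ∀ i, i ∉ Sv → zh i = 0 := by
    intro i hi
    rw [hSm, hiff] at hi
    have hdi := (M.dir i).resolve_left hi
    obtain ⟨T, hT, hx, hw, hTl⟩ := hleft i hdi
    have hTL : T ≤ L := by have := (hl1 i).2; linarith
    have h1 := hposh i
    obtain ⟨e1, e2⟩ := hTok.dead i T hTL hT
    rw [((death ι L M hL).2 i T hT L hTL).1, hx, e1, ← e2, hw] at h1
    have h2 := hl1 i
    have h3 := hl1 (σ i)
    have h4 := hT.1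
    have c1 : (-1 : ℝ) < zh i := by
      by_contra hn; push Not at hn
      nlinarith
    have c2 : (zh i : ℝ) < 1 := by
      by_contra hn; push Not at hn
      nlinarith
    have c3 : -1 < zh i := by exact_mod_cast c1
    have c4 : zh i < 1 := by exact_mod_cast c2
    omega
  -- living robots
  have hzal : ∀ i, i ∈ Sv → (if σ i = k then 1 else 0) - (M.d (σ i)) ≤ (zh i : ℝ) := by
    intro i hi
    have his := (hSm i).1 hi
    have hdi := (hiff i).1 his
    have h1 := hposh i
    rw [(hTok.alive i (his L)).1] at h1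
    obtain ⟨r1, -⟩ := ((range' ι L M hL i L hL (fun r h1 h2 => his L r h1 h2.le)).1 hdi).2.2 (his L)
    have h2 := hl1 i
    have h3 := hl1 (σ i)
    by_cases hs : σ i = k
    · rw [if_pos hs, hs, hdk]
      rw [hs, hdk, hlk] at h1
      have c1 : (-1 : ℝ) < zh i := by
        by_contra hn; push Not at hn
        push_cast at h1
        nlinarith
      have c3 : -1 < zh i := by exact_mod_cast c1
      have c4 : 0 ≤ zh i := by omega
      have : (0 : ℝ) ≤ zh i := by exact_mod_cast c4
      linarith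
    · rw [if_neg hs]
      rcases M.dir (σ i) with hd | hd
      · rw [hd] at h1 ⊢
        have c1 : (-2 : ℝ) < zh i := by
          by_contra hn; push Not at hn
          nlinarith
        have c3 : -2 < zh i := by exact_mod_cast c1
        have c4 : -1 ≤ zh i := by omega
        have : (-1 : ℝ) ≤ zh i := by exact_mod_cast c4
        linarith
      · rw [hd] at h1 ⊢
        have c1 : (0 : ℝ) < zh i := by
          by_contra hn; push Not at hn
          nlinarith
        have c3 : 0 < zh i := by exact_mod_cast c1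
        have c4 : 1 ≤ zh i := by omega
        have : (1 : ℝ) ≤ zh i := by exact_mod_cast c4
        linarith
  have hsum1 : (∑ i, (zh i : ℝ)) = ∑ i ∈ Sv, (zh i : ℝ) := by
    symm
    apply Finset.sum_subset (Finset.subset_univ _)
    intro i _ hi
    rw [hzdead i hi]; simp
  have hsum2 : ∑ i ∈ Sv, ((if σ i = k then (1 : ℝ) else 0) - M.d (σ i)) ≤ ∑ i ∈ Sv, (zh i : ℝ) :=
    Finset.sum_le_sum hzal
  rw [Finset.sum_sub_distrib] at hsum2
  have hsum3 : ∑ i ∈ Sv, M.d (σ i) = 0 := by
    rw [← hbal, hKim, Finset.sum_image (fun i _ j _ h => σ.injective h)]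
  have hsum4 : ∑ i ∈ Sv, (if σ i = k then (1 : ℝ) else 0) = 1 := by
    have hmem : σ.symm k ∈ Sv := by
      have : k ∈ Sv.image σ := by rw [← hKim]; exact hkK
      obtain ⟨i, hi, hik⟩ := Finset.mem_image.1 this
      rw [← hik, Equiv.symm_apply_apply]; exact hi
    rw [Finset.sum_eq_single (σ.symm k)]
    · rw [Equiv.apply_symm_apply, if_pos rfl]
    · intro i _ hi
      rw [if_neg]
      intro h
      apply hi
      rw [← h, Equiv.symm_apply_apply]
    · intro h; exact absurd hmem h
  have hsum5 : (∑ i, (zh i : ℝ)) = 0 := by exact_mod_cast hsum0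
  rw [hsum3, hsum4, ← hsum1, hsum5] at hsum2
  norm_num at hsum2

end Q32.RB
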