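import Mathlib
import Pool.Agent.Q32.RB.Upper

/-!
# Bouncing robots: reflection and the upper bound
-/

namespace Q32.RB

open Finset

section neg

variable {ι : Type} {L : ℝ}

theorem atHome_neg (h : ι → ℝ) (x : ι → ℝ → ℝ) (i : ι) (t : ℝ) :
    AtHome L (fun i => -h i) (fun i t => -x i t) i t ↔ AtHome L h x i t := by
  constructor
  · rintro ⟨z, hz⟩
    exact ⟨-z, by push_cast; linarith⟩
  · rintro ⟨z, hz⟩
    exact ⟨-z, by push_cast; linarith⟩

theorem alive_neg (h : ι → ℝ) (x : ι → ℝ → ℝ) (i : ι) (t : ℝ) :
    Alive L (fun i => -h i) (fun i t => -x i t) i t ↔ Alive L h x i t := by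
  unfold Alive
  simp only [atHome_neg]

theorem meet_neg (x : ι → ℝ → ℝ) (i k : ι) (t : ℝ) :
    Meet L (fun i t => -x i t) i k t ↔ Meet L x i k t := by
  constructor
  · rintro ⟨z, hz⟩
    exact ⟨-z, by push_cast; linarith⟩
  · rintro ⟨z, hz⟩
    exact ⟨-z, by push_cast; linarith⟩

end neg

theorem neg : S_NEG := by
  intro ι L M
  refine ⟨{ h := fun i => -M.h i, d := fun i => -M.d i, x := fun i t => -M.x i t,
            v := fun i t => -M.v i t, w := fun i t => -M.w i t,
            homes := ?_, dir := ?_, start := ?_, init := ?_, right := ?_, left := ?_,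
            rest := ?_, free := ?_, bounce := ?_ }, fun i => rfl, ?_⟩
  · intro i k hik z hz
    exact M.homes i k hik (-z) (by push_cast; linarith)
  · intro i
    rcases M.dir i with h | h <;> rw [h] <;> norm_num
  · intro i; rw [M.start]
  · intro i; rw [M.init]
  · intro i t ht
    obtain ⟨ε, hε, h⟩ := M.right i t ht
    refine ⟨ε, hε, fun s h1 h2 => ?_⟩
    rw [h s h1 h2]; ring
  · intro i t ht
    obtain ⟨ε, hε, h⟩ := M.left i t ht
    refine ⟨ε, hε, fun s h1 h2 => ?_⟩
    rw [h s h1 h2]; ring
  · intro i t ht hA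
    rw [alive_neg] at hA
    rw [M.rest i t ht hA, neg_zero]
  · intro i t ht hA hk
    rw [alive_neg] at hA
    simp only [alive_neg, meet_neg] at hk
    rw [M.free i t ht hA hk]
  · intro i k t ht hik hA hA' hm
    rw [alive_neg] at hA hA'
    rw [meet_neg] at hm
    rw [M.bounce i k t ht hik hA hA' hm]
  · ext i
    unfold Motion.survivors Motion.Alive
    simp only [Set.mem_ofPred_eq, alive_neg]

/-- the upper bound if all survivors are right-starters -/
theorem ub_right (ι : Type) [Fintype ι] (L : ℝ) (M : Motion ι L) (hL : 0 < L)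
    (hne : M.survivors.Nonempty) (hall : ∀ i, i ∈ M.survivors → M.d i = 1) :
    M.survivors.ncard ≤ 2 * ((Fintype.card ι - 1) / 3) := by
  classical
  obtain ⟨Sv, K, T0, hT0, hSm, hcard, h4, h5, h6, hbal, h8⟩ := fin ι L M hL
  obtain ⟨i0, hi0, hi0s⟩ := ub2 ι L M hL hne hall
  have hnc : M.survivors.ncard = Sv.card := by
    have : M.survivors = (Sv : Set ι) := by
      ext i; rw [Finset.mem_coe, hSm]
    rw [this, Set.ncard_coe_finset]
  set R := univ.filter (fun i => M.d i = 1) with hR
  set Lf := univ.filter (fun i => M.d i = -1) with hLf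
  have hRL : R.card + Lf.card = Fintype.card ι := by
    have hdisj : Disjoint R Lf := by
      rw [Finset.disjoint_left]
      intro i h1 h2
      simp only [R, Lf, mem_filter, mem_univ, true_and] at h1 h2
      rw [h1] at h2; norm_num at h2
    have hun : R ∪ Lf = univ := by
      ext i
      simp only [R, Lf, mem_union, mem_filter, mem_univ, true_and, iff_true]
      exact M.dir i
    rw [← Finset.card_union_of_disjoint hdisj, hun, Finset.card_univ]
  have hRc : Sv.card + 1 ≤ R.card := by
    have hsub : insert i0 Sv ⊆ R := by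
      intro i hi
      rw [Finset.mem_insert] at hi
      simp only [R, mem_filter, mem_univ, true_and]
      rcases hi with rfl | hi
      · exact hi0
      · exact hall i ((hSm i).1 hi)
    have := Finset.card_le_card hsub
    rwa [Finset.card_insert_of_notMem (by rw [hSm]; exact hi0s)] at this
  set K1 := K.filter (fun i => M.d i = 1) with hK1
  set K2 := K.filter (fun i => ¬ M.d i = 1) with hK2
  have hKc : K1.card + K2.card = K.card := Finset.card_filter_add_card_filter_not _
  have hK2L : K2.card ≤ Lf.card := by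
    apply Finset.card_le_card
    intro i hi
    simp only [K2, Lf, mem_filter, mem_univ, true_and] at hi ⊢
    exact (M.dir i).resolve_left hi.2
  have hbal' : (K1.card : ℝ) - K2.card = 0 := by
    rw [← hbal, ← Finset.sum_filter_add_sum_filter_not K (fun i => M.d i = 1)]
    have e1 : ∑ x ∈ K with M.d x = 1, M.d x = K1.card := by
      rw [Finset.sum_congr rfl (fun i hi => (Finset.mem_filter.1 hi).2)]
      simp [K1]
    have e2 : ∑ x ∈ K with ¬ M.d x = 1, M.d x = -K2.card := by
      rw [Finset.sum_congr rfl (fun i hi => (M.dir i).resolve_left (Finset.mem_filter.1 hi).2)]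
      simp [K2]
    rw [e1, e2]; ring
  have h12 : K1.card = K2.card := by
    have : (K1.card : ℝ) = K2.card := by linarith
    exact_mod_cast this
  rw [hnc]
  omega

theorem ub : S_UB := by
  intro ι _ L M hL
  rcases Set.eq_empty_or_nonempty M.survivors with h | hne
  · rw [h]; simp
  · obtain ⟨i0, hi0⟩ := hne
    rcases M.dir i0 with hd | hd
    · exact ub_right ι L M hL ⟨i0, hi0⟩ (fun i hi => by rw [ub1 ι L M hL i i0 hi hi0, hd])
    · obtain ⟨M', hd', hs'⟩ := neg ι L M
      rw [← hs']
      apply ub_right ι L M' hL ⟨i0, by rw [hs']; exact hi0⟩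
      intro i hi
      rw [hs'] at hi
      rw [hd', ub1 ι L M hL i i0 hi hi0, hd]; norm_num

end Q32.RB
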