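import Mathlib
import Pool.Agent.Q32.RB.Ex5
import Pool.Agent.Q32.RB.Upper2
import Pool.Agent.Q32.RB.Flux
import Pool.Agent.Q32.RB.NDie
import Pool.Agent.Q32.RB.ArE
import Pool.Agent.Q32.RB.Grid
import Pool.Agent.Q32.RB.Norm
import Pool.Agent.Q32.RB.Pair

/-!
# Bouncing robots: assembly
-/

namespace Q32.RB

open Finset

theorem exP : S_EX :=
  ex death tok fluxP ndieP dvel a1U a1V a1C b1U b1V b1C gam d2U d2V e2U e2V

/-- parameters -/
def uP (p k : ℕ) : ℤ := 2 * 3 ^ (if k = 0 then 0 else p - k)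

theorem pow_dbl {a b : ℕ} (h : a < b) : 2 * (2 * (3 : ℤ) ^ a) < 2 * 3 ^ b := by
  have h1 : (3 : ℤ) ^ (a + 1) ≤ 3 ^ b := pow_le_pow_right₀ (by norm_num) h
  have h2 : (0 : ℤ) < 3 ^ a := by positivity
  rw [pow_succ] at h1
  linarith

theorem parP (p : ℕ) (hp : 1 ≤ p) :
    Par p (uP p) (2 * 3 ^ p) (2 * 3 ^ p + 2) (10 * 3 ^ p) where
  pos := fun k hk => by unfold uP; positivity
  big := fun k hk => by
    unfold uP
    apply pow_dbl
    split_ifs <;> omega
  dec := fun k j h0 hkj hjp => by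
    unfold uP
    apply pow_dbl
    split_ifs <;> omega
  zero := fun k h0 hkp => by
    unfold uP
    apply pow_dbl
    split_ifs <;> omega
  vc := by linarith
  cv := by
    have h1 : (3 : ℤ) ^ 1 ≤ 3 ^ p := pow_le_pow_right₀ (by norm_num) hp
    linarith
  room := by
    have h1 : (3 : ℤ) ^ 1 ≤ 3 ^ p := pow_le_pow_right₀ (by norm_num) hp
    linarith

theorem Hm_dist {p e : ℕ} {u : ℕ → ℤ} {v c S : ℤ} (P : Par p u v c S) (hp : 1 ≤ p) (he : e ≤ 1)
    (i k : Idx p e) (hik : i ≠ k) (z : ℤ) : Hm u v c S i ≠ Hm u v c S k + z * (p * S) := by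
  intro h
  rw [Hm_eq, Hm_eq] at h
  have h1 := off_lt P hp he i
  have h2 := off_lt P hp he k
  have h3 := off_nonneg P hp he i
  have h4 := off_nonneg P hp he k
  obtain ⟨h5, h6⟩ := block_unique (S := S) (b := blk i) (b' := blk k + z * p) h3 h4 (by omega)
    (by omega) (by rw [h]; ring)
  obtain ⟨-, h7⟩ := mod_unique (blk_nonneg k) (blk_nonneg i) (blk_lt hp k) (blk_lt hp i) h5.symm
  have hu0 := P.pos 0 (by omega)
  have hv0 := P.big 0 (by omega)
  have hvc := P.vc
  have tri : ∀ (b : Fin p) (j j' : Fin 3), off (e := e) u v c (Sum.inl (b, j)) =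
      off (e := e) u v c (Sum.inl (b, j')) → j = j' := by
    intro b j j' hj
    have hub := P.pos b b.2
    have hvb := P.big b b.2
    have c1 : j = 0 ∨ j = 1 ∨ j = 2 := by omega
    have c2 : j' = 0 ∨ j' = 1 ∨ j' = 2 := by omega
    rcases c1 with c1 | c1 | c1 <;> rcases c2 with c2 | c2 | c2 <;> rw [c1, c2] at hj ⊢ <;>
      simp [off] at hj <;> omega
  have mix : ∀ (b : Fin p) (j : Fin 3) (j' : Fin (e + 1)), (b : ℕ) = 0 →
      off (e := e) u v c (Sum.inl (b, j)) ≠ off u v c (Sum.inr j' : Idx p e) := by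
    intro b j j' hb hj
    have hj' : (0 : ℤ) ≤ ((j' : ℕ) : ℤ) * (v - u 0) := by
      apply mul_nonneg (by positivity); omega
    simp only [off, hb] at hj
    split_ifs at hj <;> omega
  cases i with
  | inl q =>
    obtain ⟨b, j⟩ := q
    cases k with
    | inl q' =>
      obtain ⟨b', j'⟩ := q'
      have hb : b' = b := by
        simp only [blk] at h7
        exact Fin.ext (by exact_mod_cast h7)
      subst hb
      exact hik (by rw [tri _ _ _ h6])
    | inr j' =>
      simp only [blk] at h7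
      exact mix b j j' (by exact_mod_cast h7.symm) h6
  | inr j =>
    cases k with
    | inl q' =>
      obtain ⟨b', j'⟩ := q'
      simp only [blk] at h7
      exact mix b' j' j (by exact_mod_cast h7) h6.symm
    | inr j' =>
      simp only [off] at h6
      have h8 : (((j : ℕ) : ℤ) - (j' : ℕ)) * (v - u 0) = 0 := by linarith
      rcases mul_eq_zero.1 h8 with h9 | h9
      · apply hik
        have : (j : ℕ) = (j' : ℕ) := by omega
        rw [Fin.ext this]
      · omega

/-- the example -/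
theorem example_exists (p e : ℕ) (hp : 1 ≤ p) (he : e ≤ 1) :
    ∃ (C : ℤ) (M : Motion (Idx p e) (C : ℝ)), 0 < C ∧ 2 * p ≤ M.survivors.ncard := by
  have P := parP p hp
  set u := uP p with hu
  set v : ℤ := 2 * 3 ^ p with hv
  set c : ℤ := 2 * 3 ^ p + 2 with hc
  set S : ℤ := 10 * 3 ^ p with hS
  have hSe : Even S := ⟨5 * 3 ^ p, by rw [hS]; ring⟩
  have hve : Even v := ⟨3 ^ p, by rw [hv]; ring⟩
  have hce : Even c := ⟨3 ^ p + 1, by rw [hc]; ring⟩
  have hue : ∀ k, Even (u k) := fun k => ⟨3 ^ (if k = 0 then 0 else p - k), by rw [hu, uP]; ring⟩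
  have hSp := P.S_pos hp
  have hC : 0 < (p : ℤ) * S := by
    have : (0 : ℤ) < p := by omega
    positivity
  obtain ⟨M, hM1, hM2⟩ := grid (Idx p e) (Hm u v c S) Dm ((p : ℤ) * S) hC (hSe.mul_left _)
    (by
      intro i
      cases i with
      | inl q =>
        obtain ⟨k, j⟩ := q
        simp only [Hm]
        apply (hSe.mul_left _).add
        split_ifs
        · exact Even.zero
        · exact hue _
        · exact hve
      | inr j =>
        simp only [Hm]
        exact hce.add ((hve.sub (hue 0)).mul_left _))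
    Dm_one_or (fun i k hik z => Hm_dist P hp he i k hik z)
  refine ⟨(p : ℤ) * S, M, hC, ?_⟩
  have hsur := exP p e u v c S hp he P M hM1 hM2
  let f : Fin p × Fin 2 → Idx p e := fun q => Sum.inl (q.1, q.2.succ)
  have hf : Function.Injective f := by
    rintro ⟨a, b⟩ ⟨a', b'⟩ h
    simp only [f, Sum.inl.injEq, Prod.mk.injEq, Fin.succ_inj] at h
    rw [h.1, h.2]
  have h1 : (f '' Set.univ).ncard = 2 * p := by
    rw [Set.ncard_image_of_injective _ hf, Set.ncard_univ, Nat.card_eq_fintype_card,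
      Fintype.card_prod, Fintype.card_fin, Fintype.card_fin, mul_comm]
  rw [← h1]
  apply Set.ncard_le_ncard _ (Set.toFinite _)
  rintro _ ⟨q, -, rfl⟩
  exact hsur q.1 q.2.succ (Fin.succ_ne_zero _)

theorem card_idx (p e : ℕ) : Fintype.card (Idx p e) = 3 * p + e + 1 := by
  simp only [Idx, Fintype.card_sum, Fintype.card_prod, Fintype.card_fin]
  ring

/-- lower bound -/
theorem lower (n : ℕ) (hn : 1 ≤ n) :
    ∃ (ι : Type) (_ : Fintype ι) (L : ℝ) (M : Motion ι L), 0 < L ∧ Fintype.card ι = n ∧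
      2 * ((n - 1) / 3) ≤ M.survivors.ncard := by
  have hd := Nat.div_add_mod (n - 1) 3
  have hm := Nat.mod_lt (n - 1) (show 0 < 3 by norm_num)
  set p := (n - 1) / 3 with hp
  rcases Nat.eq_zero_or_pos p with h0 | h0
  · obtain ⟨M, -, -⟩ := grid (Fin n) (fun i => 2 * ((i : ℕ) : ℤ)) (fun _ => 1) (2 * n)
      (by omega) ⟨n, by ring⟩ (fun i => ⟨((i : ℕ) : ℤ), by ring⟩) (fun i => Or.inl rfl)
      (by
        intro i k hik z hz
        have h1 : ((k : ℕ) : ℤ) + z * n = (i : ℕ) := by linarith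
        obtain ⟨-, h2⟩ := mod_unique (by positivity) (by positivity) (by exact_mod_cast k.2)
          (by exact_mod_cast i.2) h1
        apply hik
        exact Fin.ext (by exact_mod_cast h2.symm))
    exact ⟨Fin n, inferInstance, _, M, by have : (0 : ℤ) < 2 * n := by omega
                                          exact_mod_cast this, by simp, by omega⟩
  · have hcase : (n - 1) % 3 = 0 ∨ (n - 1) % 3 = 1 ∨ (n - 1) % 3 = 2 := by omega
    rcases hcase with h | h | h
    · obtain ⟨C, M, hC, hM⟩ := example_exists p 0 h0 (by norm_num)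
      exact ⟨Idx p 0, inferInstance, _, M, by exact_mod_cast hC, by rw [card_idx]; omega, hM⟩
    · obtain ⟨C, M, hC, hM⟩ := example_exists p 1 h0 le_rfl
      exact ⟨Idx p 1, inferInstance, _, M, by exact_mod_cast hC, by rw [card_idx]; omega, hM⟩
    · obtain ⟨C, M, hC, hM⟩ := example_exists p 0 h0 (by norm_num)
      obtain ⟨M', hM'⟩ := pair (Idx p 0) (C : ℝ) M (by exact_mod_cast hC)
      refine ⟨Idx p 0 ⊕ Fin 2, inferInstance, _, M', by exact_mod_cast hC, ?_, hM.trans hM'⟩
      rw [Fintype.card_sum, card_idx, Fintype.card_fin]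
      omega

/-- the maximum number of survivors -/
theorem main (n : ℕ) (hn : 1 ≤ n) :
    IsGreatest {m : ℕ | ∃ M : Motion (Fin n) 1, StrictMono M.h ∧
      (∀ i, 0 ≤ M.h i ∧ M.h i < 1) ∧ M.survivors.ncard = m} (2 * ((n - 1) / 3)) := by
  constructor
  · obtain ⟨ι, _, L, M, hL, hc, hM⟩ := lower n hn
    obtain ⟨M', h1, h2, h3⟩ := norm ι L M n hL hc
    refine ⟨M', h1, h2, ?_⟩
    have h4 := ub (Fin n) 1 M' one_pos
    rw [Fintype.card_fin] at h4
    omega
  · rintro m ⟨M, -, -, rfl⟩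
    have h4 := ub (Fin n) 1 M one_pos
    rwa [Fintype.card_fin] at h4

end Q32.RB
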