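import Mathlib
import Pool.Agent.Q32.RB.Main
import Pool.Agent.Q32.RB.Exist

/-!
# Bouncing robots: the final theorem
-/

namespace Q32.RB

open Finset

/-- A configuration of `n` robots on the circle of circumference one: home bases
`0 ≤ h 0 < h 1 < ... < 1` and directions `d i = 1` or `d i = -1`. -/
def IsConfig {n : ℕ} (h d : Fin n → ℝ) : Prop :=
  StrictMono h ∧ (∀ i, 0 ≤ h i ∧ h i < 1) ∧ ∀ i, d i = 1 ∨ d i = -1

/-- No three robots which have not died before time `t` are at the same point at time `t > 0`. -/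
def Motion.NoTriple {ι : Type} {L : ℝ} (M : Motion ι L) : Prop :=
  ∀ t, 0 < t → ∀ i j k, i ≠ j → i ≠ k → j ≠ k → M.AliveB i t → M.AliveB j t → M.AliveB k t →
    ¬ (M.Meet i j t ∧ M.Meet i k t)

theorem wel_inj {ι : Type} [Fintype ι] {L : ℝ} {M : Motion ι L} (hL : 0 < L) {i k : ι} {t : ℝ}
    (ht : 0 < t) (hik : i ≠ k) (hi : M.AliveB i t) (hk : M.AliveB k t) {y : ℤ}
    (hm : M.x i t = M.x k t + y * L) : M.w i t ≠ M.w k t := by
  intro hw
  obtain ⟨ε, hε, hεt, h⟩ := left ι L M hL t ht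
  obtain ⟨a1, a2, -, a4⟩ := h (t - ε / 2) (by linarith) (by linarith) i
  obtain ⟨b1, b2, -, b4⟩ := h (t - ε / 2) (by linarith) (by linarith) k
  apply vel_inj (M := M) hL (t := t - ε / 2) (by linarith) hik (a4.2 hi) (b4.2 hk) (y := y)
  · rw [a1, b1, hw, hm]; ring
  · rw [a2, b2, hw]

theorem noTriple {ι : Type} [Fintype ι] {L : ℝ} (hL : 0 < L) (M : Motion ι L) : M.NoTriple := by
  rintro t ht i j k hij hik hjk hi hj hk ⟨⟨y, hy⟩, ⟨z, hz⟩⟩
  have h1 := wel_inj hL ht hij hi hj hy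
  have h2 := wel_inj hL ht hik hi hk hz
  have h3 : M.x j t = M.x k t + ((z - y : ℤ) : ℝ) * L := by
    push_cast
    linarith
  have h4 := wel_inj hL ht hjk hj hk h3
  rcases wel_aliveB hL ht hi with a | a <;> rcases wel_aliveB hL ht hj with b | b <;>
    rcases wel_aliveB hL ht hk with c | c <;> rw [a, b] at h1 <;> rw [a, c] at h2 <;>
    rw [b, c] at h4 <;> first | exact h1 rfl | exact h2 rfl | exact h4 rfl

theorem config_homes {n : ℕ} {h d : Fin n → ℝ} (hc : IsConfig h d) :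
    ∀ i k, i ≠ k → ∀ z : ℤ, h i ≠ h k + z * 1 := by
  intro i k hik z hz
  have h1 := hc.2.1 i
  have h2 := hc.2.1 k
  have h3 : (z : ℝ) < 1 := by linarith
  have h4 : (-1 : ℝ) < z := by linarith
  have h5 : z < 1 := by exact_mod_cast h3
  have h6 : -1 < z := by exact_mod_cast h4
  have h7 : z = 0 := by omega
  rw [h7] at hz
  apply hik
  apply hc.1.injective
  rw [hz]; simp

/-- the final theorem -/
theorem final (n : ℕ) (hn : 1 ≤ n) :
    (∀ h d : Fin n → ℝ, IsConfig h d → ∃ M : Motion (Fin n) 1, M.h = h ∧ M.d = d ∧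
      ∀ M' : Motion (Fin n) 1, M'.h = h → M'.d = d → ∀ i t, 0 ≤ t → M'.x i t = M.x i t) ∧
    IsGreatest {m : ℕ | ∃ M : Motion (Fin n) 1, IsConfig M.h M.d ∧ M.NoTriple ∧
      M.survivors.ncard = m} (2 * ((n - 1) / 3)) := by
  constructor
  · intro h d hc
    obtain ⟨M, h1, h2⟩ := exists_motion one_pos h d (config_homes hc) hc.2.2
    refine ⟨M, h1, h2, fun M' h3 h4 i t ht => ?_⟩
    exact (motion_unique one_pos M' M (h3.trans h1.symm) (h4.trans h2.symm) t ht i).1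
  · obtain ⟨⟨M, h1, h2, h3⟩, h4⟩ := main n hn
    refine ⟨⟨M, ⟨h1, h2, M.dir⟩, noTriple one_pos M, h3⟩, ?_⟩
    rintro m ⟨M', hM', -, hm⟩
    exact h4 ⟨M', hM'.1, hM'.2.1, hm⟩

end Q32.RB
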